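import Mathlib

/-! The generator of `q`-th root linear maps on a polynomial ring over `ZMod p`, and on a
hypersurface. -/

set_option autoImplicit false

namespace Pool.Agent.Lib.MP_010de0_ag

open MvPolynomial

section Trace

variable {p : ℕ} [Fact p.Prime] {σ : Type} [Fintype σ] [DecidableEq σ]

/-- the trace map -/
noncomputable def tr (p : ℕ) (σ : Type) [Fintype σ] (q : ℕ) :
    MvPolynomial σ (ZMod p) →ₗ[ZMod p] MvPolynomial σ (ZMod p) :=
  (basisMonomials σ (ZMod p)).constr (ZMod p) fun d =>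
    if ∀ i, d i % q = q - 1 then monomial (d.mapRange (· / q) (Nat.zero_div q)) 1 else 0

omit [DecidableEq σ] in
theorem tr_monomial (q : ℕ) (d : σ →₀ ℕ) (c : ZMod p) : tr p σ q (monomial d c) =
    if ∀ i, d i % q = q - 1 then monomial (d.mapRange (· / q) (Nat.zero_div q)) c else 0 := by
  have h : (monomial d c : MvPolynomial σ (ZMod p)) = c • basisMonomials σ (ZMod p) d := by
    simp [smul_monomial]
  rw [h, map_smul, tr, Module.Basis.constr_basis]
  split_ifs <;> simp [smul_monomial]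

omit [Fintype σ] [DecidableEq σ] in
theorem monomial_pow_q (e : ℕ) (d : σ →₀ ℕ) (c : ZMod p) :
    (monomial d c : MvPolynomial σ (ZMod p)) ^ p ^ e = monomial (p ^ e • d) c := by
  rw [monomial_pow, ZMod.pow_card_pow]

omit [DecidableEq σ] in
theorem tr_pow_mul (e : ℕ) (r g : MvPolynomial σ (ZMod p)) :
    tr p σ (p ^ e) (r ^ p ^ e * g) = r * tr p σ (p ^ e) g := by
  have hq : 0 < p ^ e := pow_pos (Fact.out : p.Prime).pos e
  induction r using MvPolynomial.induction_on' with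
  | add r s hr hs => rw [add_pow_char_pow, add_mul, map_add, hr, hs, add_mul]
  | monomial d c =>
    induction g using MvPolynomial.induction_on' with
    | add r s hr hs => rw [mul_add, map_add, hr, hs, map_add, mul_add]
    | monomial d' c' =>
      rw [monomial_pow_q, monomial_mul, tr_monomial, tr_monomial]
      have h1 : ∀ i, (p ^ e • d + d') i % p ^ e = d' i % p ^ e := fun i => by
        simp [Nat.mul_add_mod]
      simp only [h1]
      split_ifs
      · rw [monomial_mul]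
        congr 2
        ext i
        simp [Nat.mul_add_div hq]
      · simp

/-- the monomial with exponents `ρ` -/
noncomputable def mono (p : ℕ) {σ : Type} [Fintype σ] {q : ℕ} (ρ : σ → Fin q) :
    MvPolynomial σ (ZMod p) :=
  monomial (Finsupp.equivFunOnFinite.symm fun i => (ρ i : ℕ)) 1

/-- the dual monomial -/
noncomputable def dual (p : ℕ) {σ : Type} [Fintype σ] {q : ℕ} (ρ : σ → Fin q) :
    MvPolynomial σ (ZMod p) :=
  monomial (Finsupp.equivFunOnFinite.symm fun i => q - 1 - (ρ i : ℕ)) 1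

theorem tr_dual_mono {q : ℕ} (ρ ρ' : σ → Fin q) :
    tr p σ q (dual p ρ * mono p ρ') = if ρ = ρ' then 1 else 0 := by
  rw [dual, mono, monomial_mul, tr_monomial]
  by_cases h : ρ = ρ'
  · subst h
    have h1 : ∀ i, q - 1 - (ρ i : ℕ) + ρ i = q - 1 := fun i => by have := (ρ i).2; omega
    have h2 : ∀ i : σ, q - 1 < q := fun i => by have := (ρ i).2; omega
    rw [if_pos, if_pos rfl]
    · have : Finsupp.mapRange (· / q) (Nat.zero_div q)
          ((Finsupp.equivFunOnFinite.symm fun i => q - 1 - (ρ i : ℕ)) +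
            Finsupp.equivFunOnFinite.symm fun i => (ρ i : ℕ)) = 0 := by
        ext i
        simp [h1, Nat.div_eq_of_lt (h2 i)]
      rw [this]; simp
    · intro i
      simp [h1, Nat.mod_eq_of_lt (h2 i)]
  · rw [if_neg h, if_neg]
    intro h'
    apply h
    funext i
    have h1 := h' i
    simp only [Finsupp.coe_add, Pi.add_apply, Finsupp.equivFunOnFinite_symm_apply_apply] at h1
    have a1 := (ρ i).2
    have a2 := (ρ' i).2
    apply Fin.ext
    by_cases h3 : q - 1 - (ρ i : ℕ) + ρ' i < q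
    · rw [Nat.mod_eq_of_lt h3] at h1; omega
    · rw [Nat.mod_eq_sub_mod (by omega), Nat.mod_eq_of_lt (by omega)] at h1; omega

theorem tr_expand (e : ℕ) (g : MvPolynomial σ (ZMod p)) :
    g = ∑ ρ : σ → Fin (p ^ e), tr p σ (p ^ e) (dual p ρ * g) ^ p ^ e * mono p ρ := by
  have hq : 0 < p ^ e := pow_pos (Fact.out : p.Prime).pos e
  induction g using MvPolynomial.induction_on' with
  | add r s hr hs =>
    simp only [mul_add, map_add, add_pow_char_pow, add_mul, Finset.sum_add_distrib]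
    rw [← hr, ← hs]
  | monomial d c =>
    let ρ0 : σ → Fin (p ^ e) := fun i => ⟨d i % p ^ e, Nat.mod_lt _ hq⟩
    let r : MvPolynomial σ (ZMod p) := monomial (d.mapRange (· / p ^ e) (Nat.zero_div _)) c
    have h : (monomial d c : MvPolynomial σ (ZMod p)) = r ^ p ^ e * mono p ρ0 := by
      rw [monomial_pow_q, mono, monomial_mul, mul_one]
      congr 2
      ext i
      simp [ρ0, Nat.div_add_mod]
    have h2 : ∀ ρ : σ → Fin (p ^ e), tr p σ (p ^ e) (dual p ρ * monomial d c) =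
        if ρ = ρ0 then r else 0 := fun ρ => by
      rw [h, mul_left_comm, tr_pow_mul, tr_dual_mono]
      split_ifs <;> simp
    simp only [h2]
    rw [Finset.sum_eq_single ρ0 (fun ρ _ hρ => by rw [if_neg hρ, zero_pow hq.ne', zero_mul]) (by simp), if_pos rfl, h]

theorem pow_dvd_of_tr (e : ℕ) {G g : MvPolynomial σ (ZMod p)}
    (h : ∀ x, G ∣ tr p σ (p ^ e) (g * x)) : G ^ p ^ e ∣ g := by
  rw [tr_expand e g]
  refine Finset.dvd_sum fun ρ _ => Dvd.dvd.mul_right (pow_dvd_pow_of_dvd ?_ _) _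
  rw [mul_comm]; exact h _

end Trace

section Extend

variable {B K : Type} [CommRing B] [Field K]

theorem exists_extend (j : B →+* K) (hj : ∀ f : K, ∃ a b, j b ≠ 0 ∧ f * j b = j a) {q : ℕ}
    (hq : 0 < q) (φ : B →+ K) (h0 : ∀ b, j b = 0 → φ b = 0)
    (hφ : ∀ r x, φ (r ^ q * x) = j r * φ x) :
    ∃ Φ : K →+ K, (∀ r x, Φ (r ^ q * x) = r * Φ x) ∧ ∀ b, Φ (j b) = φ b := by
  choose a b hb hab using hj
  have hq1 : q - 1 + 1 = q := by omega
  have hp : ∀ x : B, x ^ q = x ^ (q - 1) * x := fun x => by rw [← pow_succ, hq1]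
  have hcongr : ∀ x y, j x = j y → φ x = φ y := fun x y h => by
    have := h0 (x - y) (by rw [map_sub, h, sub_self])
    rwa [map_sub, sub_eq_zero] at this
  let F : K → K := fun f => φ (a f * b f ^ (q - 1)) / j (b f)
  have key : ∀ f x y, j y ≠ 0 → f * j y = j x → F f * j y = φ (x * y ^ (q - 1)) := by
    intro f x y hy hxy
    have h1 : j y * φ (a f * b f ^ (q - 1)) = j (b f) * φ (x * y ^ (q - 1)) := by
      rw [← hφ, ← hφ]
      apply hcongr
      simp only [hp, map_mul, map_pow, ← hab f, ← hxy]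
      ring
    have := hb f
    simp only [F]
    field_simp
    linear_combination h1
  have hadd : ∀ f g, F (f + g) = F f + F g := by
    intro f g
    have hy : j (b f * b g) ≠ 0 := by rw [map_mul]; exact mul_ne_zero (hb f) (hb g)
    have h1 := key f (a f * b g) _ hy (by simp only [map_mul, ← hab f]; ring)
    have h2 := key g (a g * b f) _ hy (by simp only [map_mul, ← hab g]; ring)
    have h3 := key (f + g) (a f * b g + a g * b f) _ hy (by
      simp only [map_mul, map_add, ← hab g, ← hab f]; ring)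
    apply mul_right_cancel₀ hy
    rw [h3, add_mul, add_mul, h1, h2, map_add]
  refine ⟨AddMonoidHom.mk' F hadd, fun r x => ?_, fun x => ?_⟩
  · change F _ = r * F x
    have hy : j (b r ^ q * b x) ≠ 0 := by
      rw [map_mul, map_pow]; exact mul_ne_zero (pow_ne_zero _ (hb r)) (hb x)
    have h1 := key (r ^ q * x) (a r ^ q * a x) _ hy (by
      simp only [map_mul, map_pow, ← hab r, ← hab x]; ring)
    have h2 := key x (a x) _ (hb x) (hab x)
    have h3 : a r ^ q * a x * (b r ^ q * b x) ^ (q - 1) =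
        (a r * b r ^ (q - 1)) ^ q * (a x * b x ^ (q - 1)) := by
      rw [mul_pow, mul_pow, ← pow_mul, ← pow_mul, mul_comm q (q - 1)]; ring
    rw [h3, hφ, ← h2] at h1
    apply mul_right_cancel₀ hy
    rw [h1]
    simp only [map_mul, map_pow, ← hab r, hp]
    ring
  · change F _ = _
    have := key (j x) x 1 (by simp) (by simp)
    simpa using this

end Extend

section Hyper

variable {p : ℕ} [Fact p.Prime] {σ : Type} [Fintype σ] [DecidableEq σ] {K : Type} [Field K]

theorem exists_cartier (e : ℕ) (G : MvPolynomial σ (ZMod p)) (j : MvPolynomial σ (ZMod p) →+* K)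
    (hj : ∀ f : K, ∃ a b, j b ≠ 0 ∧ f * j b = j a) (hker : ∀ g, j g = 0 ↔ G ∣ g) :
    ∃ Φ : K →+ K, (∀ r x, Φ (r ^ p ^ e * x) = r * Φ x) ∧
      ∀ g, Φ (j g) = j (tr p σ (p ^ e) (G ^ (p ^ e - 1) * g)) := by
  have hq : 0 < p ^ e := pow_pos (Fact.out : p.Prime).pos e
  refine exists_extend j hj hq (AddMonoidHom.mk' (fun g => j (tr p σ (p ^ e) (G ^ (p ^ e - 1) * g)))
    fun a b => by rw [mul_add, map_add, map_add]) (fun b hb => ?_) fun r x => ?_
  · obtain ⟨h, rfl⟩ := (hker b).mp hb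
    change j (tr _ _ _ _) = 0
    rw [← mul_assoc, ← pow_succ, show p ^ e - 1 + 1 = p ^ e by omega, tr_pow_mul, map_mul,
      (hker G).mpr dvd_rfl, zero_mul]
  · change j (tr _ _ _ _) = j r * j (tr _ _ _ _)
    rw [mul_left_comm, tr_pow_mul, map_mul]

variable {e : ℕ} {G : MvPolynomial σ (ZMod p)} {j : MvPolynomial σ (ZMod p) →+* K} {Φ : K →+ K}

theorem cartier_nondeg (hG0 : G ≠ 0) (hker : ∀ g, j g = 0 ↔ G ∣ g)
    (hΦ : ∀ g, Φ (j g) = j (tr p σ (p ^ e) (G ^ (p ^ e - 1) * g))) {f : K}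
    (hf : ∀ x, Φ (f * x) = 0) : f = 0 := by
  have hq : 0 < p ^ e := pow_pos (Fact.out : p.Prime).pos e
  by_contra hne
  have h1 : G ^ p ^ e ∣ G ^ (p ^ e - 1) := pow_dvd_of_tr e fun x => by
    rw [← hker, ← hΦ]
    have := hf (f⁻¹ * j x)
    rwa [mul_inv_cancel_left₀ hne] at this
  have h2 : G ^ (p ^ e - 1) * G ∣ G ^ (p ^ e - 1) * 1 := by
    rwa [← pow_succ, show p ^ e - 1 + 1 = p ^ e by omega, mul_one]
  have h3 := (hker 1).mpr ((mul_dvd_mul_iff_left (pow_ne_zero _ hG0)).mp h2)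
  simp at h3

theorem cartier_rep (hG0 : G ≠ 0) (hj : ∀ f : K, ∃ a b, j b ≠ 0 ∧ f * j b = j a)
    (hker : ∀ g, j g = 0 ↔ G ∣ g) (hΦ1 : ∀ r x, Φ (r ^ p ^ e * x) = r * Φ x)
    (hΦ : ∀ g, Φ (j g) = j (tr p σ (p ^ e) (G ^ (p ^ e - 1) * g))) {ψ : K →+ K}
    (hψ : ∀ r x, ψ (r ^ p ^ e * x) = r * ψ x) {w : K}
    (hw : ∀ ρ : σ → Fin (p ^ e), ∃ g, w * ψ (j (mono p ρ)) = j g) :
    ∃ s, ∀ x, w * ψ x = Φ (j s * x) := by
  have hq : 0 < p ^ e := pow_pos (Fact.out : p.Prime).pos e
  have hq1 : p ^ e - 1 + 1 = p ^ e := by omega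
  choose g hg using hw
  let g0 : MvPolynomial σ (ZMod p) := ∑ ρ, g ρ ^ p ^ e * dual p ρ
  have h1 : ∀ ρ : σ → Fin (p ^ e), tr p σ (p ^ e) (g0 * mono p ρ) = g ρ := fun ρ => by
    simp only [g0, Finset.sum_mul, map_sum, mul_assoc, tr_pow_mul, tr_dual_mono]
    simp
  have h2 : ∀ h, j (tr p σ (p ^ e) (g0 * h)) = w * ψ (j h) := fun h => by
    conv_lhs => rw [tr_expand e h]
    conv_rhs => rw [tr_expand e h]
    simp only [Finset.mul_sum, map_sum, map_mul, map_pow, hψ]
    refine Finset.sum_congr rfl fun ρ _ => ?_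
    rw [mul_left_comm, tr_pow_mul, h1, map_mul, ← hg]
    ring
  have h3 : G ^ p ^ e ∣ g0 * G := pow_dvd_of_tr e fun x => by
    rw [← hker, mul_assoc, h2, map_mul, (hker G).mpr dvd_rfl, zero_mul, map_zero, mul_zero]
  rw [← hq1, pow_succ] at h3
  obtain ⟨s, hs⟩ := (mul_dvd_mul_iff_right hG0).mp h3
  refine ⟨s, fun x => ?_⟩
  obtain ⟨a, b, hb, hab⟩ := hj x
  have h4 := h2 (a * b ^ (p ^ e - 1))
  rw [hs, mul_assoc, ← hΦ] at h4
  have h5 : j (a * b ^ (p ^ e - 1)) = j b ^ p ^ e * x := by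
    rw [map_mul, map_pow, ← hab]
    conv_rhs => rw [← hq1, pow_succ]
    ring
  rw [map_mul, h5, mul_left_comm, hΦ1, hψ] at h4
  apply mul_left_cancel₀ hb
  rw [h4]; ring

end Hyper

end Pool.Agent.Lib.MP_010de0_ag
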