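import Pool.Agent.Lib.MP_010de0_ag.Ring
import Pool.Agent.Lib.MP_010de0_ag.Frob

/-! The Cartier operator on the function field and the local ring `Rm`. -/

set_option autoImplicit false

namespace Pool.Agent.Lib.MP_010de0_ag

open MvPolynomial

variable {p : ℕ} [Fact p.Prime] {e n : ℕ}

/-- `Φ` is the Cartier operator of the hypersurface -/
structure IsCartier (e : ℕ) (Φ : K p →+ K p) : Prop where
  lin : ∀ r x, Φ (r ^ p ^ e * x) = r * Φ x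
  onev : ∀ g, Φ (ev p g) = ev p (tr p V (p ^ e) (G p ^ (p ^ e - 1) * g))

theorem exists_isCartier (e : ℕ) : ∃ Φ : K p →+ K p, IsCartier e Φ := by
  obtain ⟨Φ, h1, h2⟩ := exists_cartier e (G p) (ev p).toRingHom K_frac' ev_eq_zero
  exact ⟨Φ, h1, h2⟩

theorem tr_Pd (hn : p ^ e = n + 1) {C : Set Λ} {g : P p} (hg : g ∈ Pd (ZMod p) wt C) :
    tr p V (p ^ e) g ∈ Pd (ZMod p) wt {ε | (n + 1) • ε + n • (5, 2, 2, 10) ∈ C} := by
  refine Pd_ind (P := fun g => tr p V (p ^ e) g ∈ _) hg (by simp)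
    (fun a b ha hb => by rw [map_add]; exact add_mem ha hb) fun d c hd => ?_
  rw [tr_monomial]
  split_ifs with h
  · refine Pd_monomial c ?_
    have h1 : ((5, 2, 2, 10) : Λ) = ∑ i, wt i := by decide
    rw [Set.mem_ofPred_eq, h1, Finsupp.weight_eq_sum, Finset.smul_sum, Finset.smul_sum,
      ← Finset.sum_add_distrib]
    rw [Finsupp.weight_eq_sum] at hd
    convert hd using 2 with i
    rw [smul_smul, ← add_smul, Finsupp.mapRange_apply]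
    congr 1
    have := Nat.div_add_mod (d i) (p ^ e)
    rw [h i, hn] at this
    rw [hn]; exact this
  · exact zero_mem _

namespace IsCartier

variable {Φ : K p →+ K p} (hΦ : IsCartier e Φ)
include hΦ

theorem loc {x : P p} {f : K p} (hf : f ∈ Loc x) : Φ f ∈ Loc x := by
  obtain ⟨n, hn⟩ : ∃ n, p ^ e = n + 1 :=
    Nat.exists_eq_succ_of_ne_zero (pow_pos (Fact.out : p.Prime).pos e).ne'
  obtain ⟨N, g, H⟩ := hf
  refine ⟨N, _, Eq.trans ?_ (hΦ.onev ((x ^ N) ^ n * g))⟩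
  rw [← hΦ.lin, map_mul (ev p), ← H, hn, map_pow, map_pow]
  congr 1; ring

theorem memT {f : K p} (hf : f ∈ T p) : Φ f ∈ T p := ⟨hΦ.loc hf.1, hΦ.loc hf.2⟩

theorem deg (hn : p ^ e = n + 1) {A : Set Λ} {f : K p} (hf : f ∈ Loc (x0 p)) (hA : f ∈ EE p A) :
    Φ f ∈ EE p {δ | (n + 1) • δ + n • (4, 0, 0, 10) ∈ A} := by
  obtain ⟨N, g, H⟩ := hf
  have e1 : (ev p (x0 p) ^ N) ^ p ^ e * f = ev p ((x0 p ^ N) ^ n * g) := by
    rw [map_mul, ← H, hn, map_pow, map_pow]; ring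
  obtain ⟨g', h1, h2⟩ := ev_lift (e1 ▸ EE_mul (EE_pow (x_pow_EE x0_Pd N) (p ^ e)) hA
    (C := {ε | ε - (n + 1) • (0, (N : ℤ), (N : ℤ), 0) ∈ A}) (by
      rintro _ rfl b hb; simpa [hn] using hb))
  have h3 := ev_EE (tr_Pd hn (Pd_mul (Pd_pow G_Pd (p ^ e - 1)) h1
    (C := {ε | ε - n • (1, 2, 2, 0) - (n + 1) • (0, (N : ℤ), (N : ℤ), 0) ∈ A}) (by
      rintro _ rfl b hb; simpa [hn] using hb)))
  rw [← hΦ.onev, h2, ← e1, hΦ.lin] at h3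
  refine EE_mono (fun δ h => ?_) (EE_cancel (pow_ne_zero N ev_x0_ne) (x_pow_EE x0_Pd N) h3)
  simp only [Set.mem_ofPred_eq] at h ⊢
  convert h using 1
  ext <;> (simp; try ring)

theorem nondeg {f : K p} (hf : ∀ x, Φ (f * x) = 0) : f = 0 :=
  cartier_nondeg (j := (ev p).toRingHom) G_ne ev_eq_zero hΦ.onev hf

theorem unique {f f' : K p} (h : ∀ x, Φ (f * x) = Φ (f' * x)) : f = f' :=
  sub_eq_zero.mp (hΦ.nondeg fun x => by rw [sub_mul, map_sub, h, sub_self])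

variable {ψ : K p →+ K p} (hψ : ∀ r x, ψ (r ^ p ^ e * x) = r * ψ x)
include hψ

theorem rep_loc {x : P p} (hx : ev p x ≠ 0) {w : K p}
    (hw : ∀ ρ : V → Fin (p ^ e), w * ψ (ev p (mono p ρ)) ∈ Loc x) :
    ∃ f ∈ Loc x, ∀ z, w * ψ z = Φ (f * z) := by
  choose N g hg using hw
  obtain ⟨s, hs⟩ := cartier_rep (j := (ev p).toRingHom) G_ne K_frac' ev_eq_zero
    hΦ.lin hΦ.onev hψ (w := ev p x ^ (∑ ρ, N ρ) * w) fun ρ => by
      obtain ⟨c, hc⟩ := Nat.exists_eq_add_of_le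
        (Finset.single_le_sum (f := N) (fun _ _ => Nat.zero_le _) (Finset.mem_univ ρ))
      refine ⟨x ^ c * g ρ, ?_⟩
      simp only [AlgHom.toRingHom_eq_coe, RingHom.coe_coe, map_mul, map_pow, ← hg, hc]
      ring
  refine ⟨(ev p x ^ (∑ ρ, N ρ))⁻¹ ^ p ^ e * ev p s,
    ⟨(∑ ρ, N ρ) * p ^ e, s, ?_⟩, fun z => ?_⟩
  · rw [pow_mul, ← mul_assoc, ← mul_pow, mul_inv_cancel₀ (pow_ne_zero _ hx), one_pow, one_mul]
  · rw [mul_assoc, hΦ.lin]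
    refine (inv_mul_cancel_left₀ (pow_ne_zero (∑ ρ, N ρ) hx) _).symm.trans ?_
    rw [← mul_assoc _ w, hs]; rfl

theorem rep_T {w : K p}
    (hw : ∀ ρ : V → Fin (p ^ e), w * ψ (ev p (mono p ρ)) ∈ T p) :
    ∃ f ∈ T p, ∀ z, w * ψ z = Φ (f * z) := by
  obtain ⟨f, h1, h2⟩ := hΦ.rep_loc hψ ev_x0_ne fun ρ => (hw ρ).1
  obtain ⟨f', h1', h2'⟩ := hΦ.rep_loc hψ ev_x1_ne fun ρ => (hw ρ).2
  obtain rfl : f = f' := hΦ.unique fun x => by rw [← h2, ← h2']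
  exact ⟨f, ⟨h1, h1'⟩, h2⟩

end IsCartier

theorem T_coprime {f : K p} {N M : ℕ} (h1 : f * ξ p s02 ^ N ∈ T p) (h2 : f * ξ p s20 ^ M ∈ T p) :
    f ∈ T p := by
  have hrel : IsRelPrime (X (.inl 0) : P' p) (X (.inl 1)) :=
    relPrime_X _ (fun i => if i = .inl 0 then 0 else 1) (by simp) (by simp)
  refine ⟨L_coprime hrel (X_ne_zero _) h1.1 h2.1, ?_⟩
  have a1 := ρ_L1 h1.2
  have a2 := ρ_L1 h2.2
  rw [map_mul, map_pow, ρ_s02] at a1
  rw [map_mul, map_pow, ρ_s20] at a2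
  have := ρ_L0 (L_coprime hrel (X_ne_zero _) a2 a1)
  rwa [ρ_ρ] at this

/-- the local ring at the vertex -/
noncomputable def Rm (p : ℕ) [Fact p.Prime] : Subalgebra (R0 p) (K p) :=
  Localization.subalgebra.ofField (K p) (mm p).primeCompl (mm p).primeCompl_le_nonZeroDivisors

instance : IsLocalization.AtPrime (Rm p) (mm p) :=
  Localization.subalgebra.isLocalization_ofField _ _ _

theorem ne_of_not_mm {c : R0 p} (hc : c ∉ mm p) : (c : K p) ≠ 0 := fun h =>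
  hc (by rw [show c = 0 from Subtype.ext h]; exact zero_mem _)

theorem mem_Rm {z : K p} : z ∈ Rm p ↔ ∃ c : R0 p, c ∉ mm p ∧ c * z ∈ R0 p := by
  constructor
  · rintro ⟨a, c, hc, rfl⟩
    refine ⟨c, hc, ?_⟩
    have := ne_of_not_mm hc
    convert a.2 using 1
    simp only [Subalgebra.algebraMap_def, Algebra.algebraMap_self, RingHom.id_apply]
    field_simp
  · rintro ⟨c, hc, h⟩
    refine ⟨⟨_, h⟩, c, hc, ?_⟩
    have := ne_of_not_mm hc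
    simp only [Subalgebra.algebraMap_def, Algebra.algebraMap_self, RingHom.id_apply]
    field_simp

theorem R0_le_Rm {z : K p} (h : z ∈ R0 p) : z ∈ Rm p :=
  mem_Rm.mpr ⟨1, one_not_mem_mm, by simpa using h⟩

theorem Rm_decomp {z : K p} (h : z ∈ Rm p) : ∃ (c0 : ZMod p) (a c : R0 p), a ∈ mm p ∧ c ∉ mm p ∧
    c * (z - algebraMap _ _ c0) = a := by
  obtain ⟨c, hc, h⟩ := mem_Rm.mp h
  obtain ⟨a0, ha0⟩ := R0_decomp ⟨_, h⟩
  obtain ⟨c0, hc0⟩ := R0_decomp c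
  have h0 : c0 ≠ 0 := by rintro rfl; simp [hc] at hc0
  refine ⟨a0 / c0, _, c, sub_mem ha0 ((mm p).mul_mem_left (algebraMap _ _ (a0 / c0)) hc0), hc, ?_⟩
  have h1 : algebraMap (ZMod p) (K p) c0 ≠ 0 := (map_ne_zero _).mpr h0
  simp only [Subalgebra.coe_sub, Subalgebra.coe_mul, Subalgebra.coe_algebraMap, map_div₀]
  field_simp
  ring

namespace IsCartier

variable {Φ : K p →+ K p} (hΦ : IsCartier e Φ)
include hΦ

theorem rep_Rm {ψ : K p →+ K p} (hψ : ∀ r x, ψ (r ^ p ^ e * x) = r * ψ x)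
    (h : ∀ z ∈ Rm p, ψ z ∈ Rm p) :
    ∃ c : R0 p, c ∉ mm p ∧ ∃ f ∈ T p, ∀ z, c * ψ z = Φ (f * z) := by
  obtain ⟨n, hn⟩ : ∃ n, p ^ e = n + 1 :=
    Nat.exists_eq_succ_of_ne_zero (pow_pos (Fact.out : p.Prime).pos e).ne'
  have key : ∀ t : V, wt t = (1, 0, 0, 0) → ∃ c : R0 p, c ∉ mm p ∧ ∃ N : ℕ, ∃ f ∈ T p,
      ∀ z, c * ξ p t ^ N * ψ z = Φ (f * z) := by
    intro t ht
    have h0 : ξ p t ∈ R0 p := ξ_R0 (by rw [ht]; decide)
    have h1 : ∀ ρ : V → Fin (p ^ e), ∃ c : R0 p, c ∉ mm p ∧ ∃ N : ℕ,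
        c * (ξ p t ^ N * ψ (ev p (mono p ρ))) ∈ R0 p := fun ρ => by
      obtain ⟨N, hN⟩ := pow_mul_ev ht (mono p ρ)
      have h2 := h _ (R0_le_Rm (mul_mem (pow_mem (pow_mem h0 N) n) hN))
      rw [← mul_assoc, ← pow_succ, ← hn, hψ] at h2
      obtain ⟨c, hc, h3⟩ := mem_Rm.mp h2
      exact ⟨c, hc, N, h3⟩
    choose c hc N hN using h1
    refine ⟨∏ ρ, c ρ, (mm p).primeCompl.prod_mem fun ρ _ => hc ρ, ∑ ρ, N ρ,
      hΦ.rep_T hψ fun ρ => ?_⟩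
    obtain ⟨a, ha⟩ := Nat.exists_eq_add_of_le
      (Finset.single_le_sum (f := N) (fun _ _ => Nat.zero_le _) (Finset.mem_univ ρ))
    obtain ⟨b, hb⟩ := Finset.dvd_prod_of_mem c (Finset.mem_univ ρ)
    convert (mul_mem (hN ρ) (mul_mem b.2 (pow_mem h0 a))).1 using 1
    rw [ha, hb, Subalgebra.coe_mul]; ring
  obtain ⟨c, hc, N, f, hf, H⟩ := key s02 rfl
  obtain ⟨c', hc', N', f', hf', H'⟩ := key s20 rfl
  have a0 := pow_ne_zero N (ξ_ne (p := p) (.inl 0))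
  have a1 := pow_ne_zero N' (ξ_ne (p := p) (.inl 1))
  have b0 : ∀ z, (c * c' : R0 p) * ψ z = Φ ((c' / ξ p s02 ^ N) ^ p ^ e * f * z) := fun z => by
    rw [mul_assoc, hΦ.lin, ← H, Subalgebra.coe_mul]; field_simp
  have b1 : ∀ z, (c * c' : R0 p) * ψ z = Φ ((c / ξ p s20 ^ N') ^ p ^ e * f' * z) := fun z => by
    rw [mul_assoc, hΦ.lin, ← H', Subalgebra.coe_mul]; field_simp
  have b2 := hΦ.unique fun z => (b0 z).symm.trans (b1 z)
  refine ⟨c * c', (mm p).primeCompl.mul_mem hc hc', _,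
    T_coprime (N := N * p ^ e) (M := N' * p ^ e) ?_ ?_, b0⟩
  · rw [pow_mul, mul_right_comm, ← mul_pow, div_mul_cancel₀ _ a0]
    exact mul_mem (pow_mem c'.2.1 _) hf
  · rw [b2, pow_mul, mul_right_comm, ← mul_pow, div_mul_cancel₀ _ a1]
    exact mul_mem (pow_mem c.2.1 _) hf'

theorem mem_Rm_of (hn : p ^ e = n + 1) {f : K p} (hf : f ∈ T p)
    (hd : f ∈ EE p {δ | -n ≤ δ.2.1 ∧ -n ≤ δ.2.2.1 ∧ δ.2.2.2 ≤ δ.1}) {z : K p} (hz : z ∈ Rm p) :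
    Φ (f * z) ∈ Rm p := by
  obtain ⟨c, hc, h⟩ := mem_Rm.mp hz
  refine mem_Rm.mpr ⟨c, hc, ?_⟩
  have h1 := mul_mem (pow_mem c.2 n) h
  have h2 := mul_mem hf h1.1
  have h3 := EE_inter (hΦ.deg hn h2.1 (EE_mul hd h1.2
    (C := {δ | -n ≤ δ.2.1 ∧ -n ≤ δ.2.2.1 ∧ δ.2.2.2 ≤ δ.1}) fun a ha b hb => by
      simp only [mem_cone, Set.mem_ofPred_eq, Prod.fst_add, Prod.snd_add] at *
      omega)) (L_pos (hΦ.memT h2).1)
  have e1 : f * (c ^ n * (c * z)) = c ^ p ^ e * (f * z) := by rw [hn]; ring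
  rw [← hΦ.lin, ← e1]
  refine ⟨hΦ.memT h2, EE_mono (fun δ h => ?_) h3⟩
  obtain ⟨⟨b1, b2, b3⟩, b4, b5⟩ := h
  simp at b1 b2 b3
  have hn0 : (0 : ℤ) ≤ n := Int.natCast_nonneg n
  exact ⟨by nlinarith, by nlinarith, b5, by nlinarith⟩

end IsCartier

end Pool.Agent.Lib.MP_010de0_ag
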