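import Mathlib

/-! The function field of a hypersurface of degree `(1,2,2)` and three of its automorphisms. -/

set_option autoImplicit false

namespace Pool.Agent.Lib.MP_010de0_ag

open MvPolynomial

abbrev V' : Type := Fin 8 ⊕ Fin 10
abbrev V : Type := Option V'

abbrev s00 : V := none
abbrev s02 : V := some (.inl 0)
abbrev s20 : V := some (.inl 1)
abbrev s22 : V := some (.inl 2)
abbrev s11 : V := some (.inl 3)
abbrev u0 : V := some (.inl 4)
abbrev u1 : V := some (.inl 5)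
abbrev v0 : V := some (.inl 6)
abbrev v1 : V := some (.inl 7)
abbrev yy (i : Fin 10) : V := some (.inr i)

theorem V_cases {Q : V → Prop} (h0 : Q s00) (h1 : Q s02) (h2 : Q s20) (h3 : Q s22) (h4 : Q s11)
    (h5 : Q u0) (h6 : Q u1) (h7 : Q v0) (h8 : Q v1) (hy : ∀ i, Q (yy i)) : ∀ i, Q i := by
  rintro (_ | i | i)
  · exact h0
  · fin_cases i <;> assumption
  · exact hy i

/-- the part of the equation without `s00` -/
def Gf' {R : Type} [CommRing R] (z : V → R) : R :=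
  z s02 * z u0 ^ 2 * z v1 ^ 2 + z s20 * z u1 ^ 2 * z v0 ^ 2 + z s22 * z u1 ^ 2 * z v1 ^ 2 +
    z s11 * z u0 * z u1 * z v0 * z v1

/-- the equation -/
def Gf {R : Type} [CommRing R] (z : V → R) : R := z s00 * (z u0 * z v0) ^ 2 + Gf' z

theorem map_Gf' {R S F : Type} [CommRing R] [CommRing S] [FunLike F R S] [RingHomClass F R S]
    (f : F) (z : V → R) : f (Gf' z) = Gf' fun i => f (z i) := by
  simp [Gf']

theorem map_Gf {R S F : Type} [CommRing R] [CommRing S] [FunLike F R S] [RingHomClass F R S]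
    (f : F) (z : V → R) : f (Gf z) = Gf fun i => f (z i) := by
  simp [Gf, Gf']

variable (p : ℕ) [Fact p.Prime]

abbrev P : Type := MvPolynomial V (ZMod p)
abbrev P' : Type := MvPolynomial V' (ZMod p)
abbrev K : Type := FractionRing (P' p)

noncomputable def ι : P' p →ₐ[ZMod p] K p := IsScalarTower.toAlgHom (ZMod p) (P' p) (K p)

noncomputable def X' : V → P' p := fun i => i.elim 0 X

noncomputable def ξ : V → K p := fun i =>
  i.elim (-ι p (Gf' (X' p)) / ι p (X' p u0 * X' p v0) ^ 2) fun i => ι p (X i)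

noncomputable def ev : P p →ₐ[ZMod p] K p := aeval (ξ p)

noncomputable def G : P p := Gf X

variable {p}

theorem ι_apply (g : P' p) : ι p g = algebraMap (P' p) (K p) g := rfl

theorem ι_inj : Function.Injective (ι p) := IsFractionRing.injective (P' p) (K p)

theorem ι_ne {g : P' p} (h : g ≠ 0) : ι p g ≠ 0 := (map_ne_zero_iff _ ι_inj).mpr h

theorem ξ_some (i : V') : ξ p (some i) = ι p (X i) := rfl

theorem ξ_ne (i : V') : ξ p (some i) ≠ 0 := ι_ne (X_ne_zero i)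

theorem ev_X (i : V) : ev p (X i) = ξ p i := aeval_X _ _

theorem Gf_ξ : Gf (ξ p) = 0 := by
  have h1 : ι p (Gf' (X' p)) = Gf' (ξ p) := map_Gf' _ _
  have h2 : ξ p s00 = -Gf' (ξ p) / (ξ p u0 * ξ p v0) ^ 2 := by rw [← h1]; simp [ξ, X']
  rw [Gf, h2, div_mul_cancel₀ _ (pow_ne_zero _ (mul_ne_zero (ξ_ne _) (ξ_ne _))), neg_add_cancel]

theorem aeval_G {R : Type} [CommRing R] [Algebra (ZMod p) R] (z : V → R) :
    aeval z (G p) = Gf z := by
  rw [G, map_Gf]; simp

theorem ev_G : ev p (G p) = 0 := by rw [ev, aeval_G, Gf_ξ]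

theorem ev_rename (g : P' p) : ev p (rename some g) = ι p g := by
  have : (ev p).comp (rename some) = ι p := by ext i; simp [ev_X, ξ_some]
  exact DFunLike.congr_fun this g

theorem pseudo_div (g : P p) :
    ∃ (n : ℕ) (h : P p) (r : P' p), (X u0 * X v0) ^ n * g = G p * h + rename some r := by
  induction g using MvPolynomial.induction_on with
  | C c => exact ⟨0, 0, C c, by simp⟩
  | add a b ha hb =>
    obtain ⟨n, h, r, H⟩ := ha
    obtain ⟨n', h', r', H'⟩ := hb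
    refine ⟨n + n', (X u0 * X v0) ^ n' * h + (X u0 * X v0) ^ n * h',
      (X (.inl 4) * X (.inl 6)) ^ n' * r + (X (.inl 4) * X (.inl 6)) ^ n * r', ?_⟩
    simp only [map_add, map_mul, map_pow, rename_X]
    linear_combination (X u0 * X v0) ^ n' * H + (X u0 * X v0) ^ n * H'
  | mul_X a i ha =>
    obtain ⟨n, h, r, H⟩ := ha
    cases i with
    | some i =>
      refine ⟨n, h * X (some i), r * X i, ?_⟩
      simp only [map_mul, rename_X]
      linear_combination X (some i) * H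
    | none =>
      refine ⟨n + 2, h * X s00 * (X u0 * X v0) ^ 2 + rename some r, -(r * Gf' (X' p)), ?_⟩
      have h1 : rename some (Gf' (X' p)) = Gf' (X : V → P p) := by rw [map_Gf']; simp [Gf', X']
      have h2 : G p = X s00 * (X u0 * X v0) ^ 2 + Gf' X := rfl
      simp only [map_mul, map_neg, h1]
      linear_combination X s00 * (X u0 * X v0) ^ 2 * H - rename some r * h2

theorem relPrime_X {σ : Type} {g : MvPolynomial σ (ZMod p)} (i : σ) (z : σ → ZMod p)
    (h0 : z i = 0) (h : aeval z g ≠ 0) : IsRelPrime (X i) g := by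
  rw [X_prime.irreducible.isRelPrime_iff_not_dvd]
  rintro ⟨a, rfl⟩
  simp [h0] at h

theorem G_relPrime : IsRelPrime (G p) (X u0 * X v0) := by
  refine IsRelPrime.mul_right ?_ ?_ <;> refine (relPrime_X _
    (fun i => if i = s22 ∨ i = u1 ∨ i = v1 then 1 else 0) (by simp) ?_).symm <;>
  simp [aeval_G, Gf, Gf']

theorem G_ne : G p ≠ 0 := fun h => by
  have := aeval_G (p := p) (fun i => if i = s22 ∨ i = u1 ∨ i = v1 then (1 : ZMod p) else 0)
  simp [h, Gf, Gf'] at this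

theorem ev_eq_zero (g : P p) : ev p g = 0 ↔ G p ∣ g := by
  refine ⟨fun h => ?_, ?_⟩
  · obtain ⟨n, a, r, H⟩ := pseudo_div g
    have h1 := congrArg (ev p) H
    rw [map_mul, h, map_add, map_mul, ev_G, ev_rename, mul_zero, zero_mul, zero_add] at h1
    have h2 : r = 0 := ι_inj (by rw [← h1, map_zero])
    rw [h2, map_zero, add_zero] at H
    exact (G_relPrime.pow_right (n := n)).dvd_of_dvd_mul_left ⟨a, H⟩
  · rintro ⟨a, rfl⟩
    rw [map_mul, ev_G, zero_mul]

theorem ev_clear (g : P p) : ∃ (n : ℕ) (r : P' p), (ξ p u0 * ξ p v0) ^ n * ev p g = ι p r := by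
  obtain ⟨n, a, r, H⟩ := pseudo_div g
  have h1 := congrArg (ev p) H
  simp only [map_mul, map_add, map_pow, ev_G, ev_rename, ev_X, zero_mul, zero_add] at h1
  exact ⟨n, r, h1⟩

theorem K_frac (f : K p) : ∃ a b : P' p, b ≠ 0 ∧ f * ι p b = ι p a := by
  obtain ⟨a, b, hb, rfl⟩ := IsFractionRing.div_surjective (A := P' p) f
  have := nonZeroDivisors.ne_zero hb
  exact ⟨a, b, this, div_mul_cancel₀ _ (ι_ne this)⟩

theorem K_frac' (f : K p) : ∃ a b : P p, ev p b ≠ 0 ∧ f * ev p b = ev p a := by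
  obtain ⟨a, b, hb, h⟩ := K_frac f
  exact ⟨rename some a, rename some b, by rw [ev_rename]; exact ι_ne hb, by
    rw [ev_rename, ev_rename, h]⟩

theorem trdeg_K : Algebra.trdeg (ZMod p) (K p) = 18 := by
  have h1 := trdeg_add_eq (ZMod p) (P' p) (A := K p)
  have : Algebra.IsAlgebraic (P' p) (K p) :=
    IsLocalization.isAlgebraic _ (nonZeroDivisors (P' p))
  rw [trdeg_eq_zero (R := P' p), add_zero, MvPolynomial.trdeg_of_isDomain] at h1
  rw [← h1]; simp

theorem endo_ext {σ σ' : K p →ₐ[ZMod p] K p} (h : ∀ i : V', σ (ξ p (some i)) = σ' (ξ p (some i))) :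
    σ = σ' := by
  have h1 : σ.comp (ι p) = σ'.comp (ι p) := by ext i; exact h i
  apply AlgHom.coe_ringHom_injective
  exact IsFractionRing.ringHom_ext (A := P' p) fun x => DFunLike.congr_fun h1 x

theorem exists_endo (z : V → K p) (hG : Gf z = 0) (hx : z u0 * z v0 ≠ 0)
    (htop : ∀ i : V', ξ p (some i) ∈
      IntermediateField.adjoin (ZMod p) (Set.range fun i : V' => z (some i))) :
    ∃ σ : K p →ₐ[ZMod p] K p, ∀ i, σ (ξ p i) = z i := by
  have h1 : ∀ g : P' p, ι p g ∈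
      IntermediateField.adjoin (ZMod p) (Set.range fun i : V' => z (some i)) := by
    intro g
    induction g using MvPolynomial.induction_on with
    | C c => simp
    | add a b ha hb => rw [map_add]; exact add_mem ha hb
    | mul_X a i ha => rw [map_mul]; exact mul_mem ha (htop i)
  have : Algebra.IsAlgebraic (Algebra.adjoin (ZMod p) (Set.range fun i : V' => z (some i)))
      (K p) := by
    refine ⟨fun f => ?_⟩
    obtain ⟨a, b, hb, h⟩ := K_frac f
    have h2 : f ∈ IntermediateField.adjoin (ZMod p) (Set.range fun i : V' => z (some i)) := by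
      rw [eq_div_of_mul_eq (ι_ne hb) h]; exact div_mem (h1 a) (h1 b)
    obtain ⟨r, hr, s, hs, rfl⟩ := IntermediateField.mem_adjoin_iff_div.mp h2
    rw [div_eq_mul_inv]
    exact (isAlgebraic_algebraMap (⟨r, hr⟩ : Algebra.adjoin (ZMod p) _)).mul
      (isAlgebraic_algebraMap (⟨s, hs⟩ : Algebra.adjoin (ZMod p) _)).inv
  have h3 := (Algebra.IsAlgebraic.isTranscendenceBasis_of_le_trdeg_of_finite (ZMod p)
    (fun i : V' => z (some i)) (by rw [trdeg_K]; simp)).1
  have h4 : Function.Injective (aeval (R := ZMod p) fun i : V' => z (some i)) := h3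
  let σ : K p →ₐ[ZMod p] K p := IsFractionRing.liftAlgHom h4
  have h5 : ∀ i : V', σ (ξ p (some i)) = z (some i) := fun i => by
    simp [σ, ξ_some, ι_apply, IsFractionRing.liftAlgHom_apply]
  refine ⟨σ, fun i => ?_⟩
  cases i with
  | some i => exact h5 i
  | none =>
    have h6 := congrArg σ (Gf_ξ (p := p))
    rw [map_Gf, map_zero] at h6
    simp only [Gf, Gf', h5] at h6 hG
    apply mul_right_cancel₀ (pow_ne_zero 2 hx)
    linear_combination h6 - hG

/-- swap the two projective lines -/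
def πe : V → V := fun i =>
  i.elim s00 (Sum.elim ![s20, s02, s22, s11, v0, v1, u0, u1] yy)

/-- swap the two charts -/
def ρe : V → V := fun i =>
  i.elim s22 (Sum.elim ![s20, s02, s00, s11, u1, u0, v1, v0] yy)

theorem exists_π : ∃ σ : K p →ₐ[ZMod p] K p, ∀ i, σ (ξ p i) = ξ p (πe i) := by
  refine exists_endo _ ?_ ?_ fun i => IntermediateField.subset_adjoin _ _ ?_
  · have := Gf_ξ (p := p)
    simp only [Gf, Gf', πe] at this ⊢
    simp
    linear_combination this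
  · exact mul_ne_zero (ξ_ne _) (ξ_ne _)
  · have : ∀ i : V', ∃ j : V', πe (some j) = some i := by decide
    obtain ⟨j, hj⟩ := this i
    exact ⟨j, by simp only [hj]⟩

theorem exists_ρ : ∃ σ : K p →ₐ[ZMod p] K p, ∀ i, σ (ξ p i) = ξ p (ρe i) := by
  refine exists_endo _ ?_ ?_ fun i => ?_
  · have := Gf_ξ (p := p)
    simp only [Gf, Gf', ρe] at this ⊢
    simp
    linear_combination this
  · exact mul_ne_zero (ξ_ne _) (ξ_ne _)
  · have h1 : ∀ i : V, i ≠ s22 → ξ p i ∈ IntermediateField.adjoin (ZMod p)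
        (Set.range fun i : V' => ξ p (ρe (some i))) := fun i hi => by
      have : ∀ i : V, i ≠ s22 → ∃ j : V', ρe (some j) = i := by decide
      obtain ⟨j, hj⟩ := this i hi
      exact IntermediateField.subset_adjoin _ _ ⟨j, by simp only [hj]⟩
    by_cases hi : some i = s22
    · have h2 : ξ p s22 = -(ξ p s00 * (ξ p u0 * ξ p v0) ^ 2 + ξ p s02 * ξ p u0 ^ 2 * ξ p v1 ^ 2 +
          ξ p s20 * ξ p u1 ^ 2 * ξ p v0 ^ 2 + ξ p s11 * ξ p u0 * ξ p u1 * ξ p v0 * ξ p v1) /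
          (ξ p u1 * ξ p v1) ^ 2 := by
        rw [eq_div_iff (pow_ne_zero _ (mul_ne_zero (ξ_ne _) (ξ_ne _)))]
        have := Gf_ξ (p := p)
        simp only [Gf, Gf'] at this
        linear_combination this
      rw [hi, h2]
      apply_rules (maxDepth := 200) [div_mem, neg_mem, add_mem, pow_mem, mul_mem, h1] <;> decide
    · exact h1 _ hi

variable (p)

noncomputable def π : K p →ₐ[ZMod p] K p := exists_π.choose
noncomputable def ρ : K p →ₐ[ZMod p] K p := exists_ρ.choose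

noncomputable def Af : K p := ξ p s00 * ξ p u0 ^ 2 + ξ p s20 * ξ p u1 ^ 2
noncomputable def Bf : K p := ξ p s11 * ξ p u0 * ξ p u1
noncomputable def Cf : K p := ξ p s02 * ξ p u0 ^ 2 + ξ p s22 * ξ p u1 ^ 2

noncomputable def τz : V → K p := fun i =>
  i.elim (ξ p s00) (Sum.elim ![ξ p s20, ξ p s02, ξ p s22, ξ p s11, Cf p / ξ p v0, Af p / ξ p v1,
    ξ p u0, ξ p u1] fun i => ξ p (yy i))

variable {p}

theorem π_ξ (i : V) : π p (ξ p i) = ξ p (πe i) := exists_π.choose_spec i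
theorem ρ_ξ (i : V) : ρ p (ξ p i) = ξ p (ρe i) := exists_ρ.choose_spec i

theorem ABC : Af p * ξ p v0 ^ 2 + Bf p * ξ p v0 * ξ p v1 + Cf p * ξ p v1 ^ 2 = 0 := by
  have := Gf_ξ (p := p)
  simp only [Gf, Gf', Af, Bf, Cf] at this ⊢
  linear_combination this

theorem Cf_eq : Cf p = ι p (X (.inl 0) * X (.inl 4) ^ 2 + X (.inl 2) * X (.inl 5) ^ 2) := by
  simp [Cf, ξ_some]

theorem Cf_ne : Cf p ≠ 0 := by
  rw [Cf_eq]
  refine ι_ne fun h => ?_
  have := congrArg (aeval fun i : V' => if i = .inl 2 then (0 : ZMod p) else 1) h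
  simp at this

theorem exists_τ : ∃ σ : K p →ₐ[ZMod p] K p, ∀ i, σ (ξ p i) = τz p i := by
  have a0 := ξ_ne (p := p) (.inl 6)
  have a1 := ξ_ne (p := p) (.inl 7)
  refine exists_endo _ ?_ ?_ fun i => ?_
  · have := ABC (p := p)
    simp only [Gf, Gf', τz]
    simp
    field_simp
    simp only [Af, Bf, Cf] at this ⊢
    linear_combination (ξ p s00 * ξ p u0 ^ 2 + ξ p s20 * ξ p u1 ^ 2) *
      (ξ p s02 * ξ p u0 ^ 2 + ξ p s22 * ξ p u1 ^ 2) * this
  · exact mul_ne_zero (div_ne_zero Cf_ne a0) (ξ_ne _)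
  · set F := IntermediateField.adjoin (ZMod p) (Set.range fun i : V' => τz p (some i))
    have h1 : ∀ j : V', τz p (some j) ∈ F := fun j => IntermediateField.subset_adjoin _ _ ⟨j, rfl⟩
    have b0 : ξ p s20 ∈ F := h1 (.inl 0)
    have b1 : ξ p s02 ∈ F := h1 (.inl 1)
    have b2 : ξ p s22 ∈ F := h1 (.inl 2)
    have b3 : ξ p s11 ∈ F := h1 (.inl 3)
    have b4 : Cf p / ξ p v0 ∈ F := h1 (.inl 4)
    have b5 : Af p / ξ p v1 ∈ F := h1 (.inl 5)
    have b6 : ξ p u0 ∈ F := h1 (.inl 6)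
    have b7 : ξ p u1 ∈ F := h1 (.inl 7)
    have c1 : Cf p ∈ F := add_mem (mul_mem b1 (pow_mem b6 2)) (mul_mem b2 (pow_mem b7 2))
    have c2 : Bf p ∈ F := mul_mem (mul_mem b3 b6) b7
    have c3 : ξ p v0 ∈ F := by
      have := div_mem c1 b4
      rwa [div_div_cancel₀ Cf_ne] at this
    have c4 : ξ p v1 ∈ F := by
      have h2 : ξ p v1 = -(Af p / ξ p v1 * ξ p v0 ^ 2 + Bf p * ξ p v0) / Cf p := by
        have := Cf_ne (p := p)
        field_simp
        linear_combination ABC (p := p)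
      rw [h2]
      exact div_mem (neg_mem (add_mem (mul_mem b5 (pow_mem c3 2)) (mul_mem c2 c3))) c1
    rcases i with i | i
    · fin_cases i <;> assumption
    · exact h1 (.inr i)

noncomputable def τ (p : ℕ) [Fact p.Prime] : K p →ₐ[ZMod p] K p := exists_τ.choose

theorem τ_ξ (i : V) : τ p (ξ p i) = τz p i := exists_τ.choose_spec i

theorem π_s00 : π p (ξ p s00) = ξ p s00 := π_ξ _
theorem ρ_s00 : ρ p (ξ p s00) = ξ p s22 := ρ_ξ _
theorem τ_s00 : τ p (ξ p s00) = ξ p s00 := τ_ξ _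
theorem π_s02 : π p (ξ p s02) = ξ p s20 := π_ξ _
theorem ρ_s02 : ρ p (ξ p s02) = ξ p s20 := ρ_ξ _
theorem τ_s02 : τ p (ξ p s02) = ξ p s20 := τ_ξ _
theorem π_s20 : π p (ξ p s20) = ξ p s02 := π_ξ _
theorem ρ_s20 : ρ p (ξ p s20) = ξ p s02 := ρ_ξ _
theorem τ_s20 : τ p (ξ p s20) = ξ p s02 := τ_ξ _
theorem π_s22 : π p (ξ p s22) = ξ p s22 := π_ξ _
theorem ρ_s22 : ρ p (ξ p s22) = ξ p s00 := ρ_ξ _
theorem τ_s22 : τ p (ξ p s22) = ξ p s22 := τ_ξ _
theorem π_s11 : π p (ξ p s11) = ξ p s11 := π_ξ _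
theorem ρ_s11 : ρ p (ξ p s11) = ξ p s11 := ρ_ξ _
theorem τ_s11 : τ p (ξ p s11) = ξ p s11 := τ_ξ _
theorem π_u0 : π p (ξ p u0) = ξ p v0 := π_ξ _
theorem ρ_u0 : ρ p (ξ p u0) = ξ p u1 := ρ_ξ _
theorem τ_u0 : τ p (ξ p u0) = Cf p / ξ p v0 := τ_ξ _
theorem π_u1 : π p (ξ p u1) = ξ p v1 := π_ξ _
theorem ρ_u1 : ρ p (ξ p u1) = ξ p u0 := ρ_ξ _
theorem τ_u1 : τ p (ξ p u1) = Af p / ξ p v1 := τ_ξ _
theorem π_v0 : π p (ξ p v0) = ξ p u0 := π_ξ _
theorem ρ_v0 : ρ p (ξ p v0) = ξ p v1 := ρ_ξ _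
theorem τ_v0 : τ p (ξ p v0) = ξ p u0 := τ_ξ _
theorem π_v1 : π p (ξ p v1) = ξ p u1 := π_ξ _
theorem ρ_v1 : ρ p (ξ p v1) = ξ p v0 := ρ_ξ _
theorem τ_v1 : τ p (ξ p v1) = ξ p u1 := τ_ξ _
theorem π_yy (i : Fin 10) : π p (ξ p (yy i)) = ξ p (yy i) := π_ξ _
theorem ρ_yy (i : Fin 10) : ρ p (ξ p (yy i)) = ξ p (yy i) := ρ_ξ _
theorem τ_yy (i : Fin 10) : τ p (ξ p (yy i)) = ξ p (yy i) := τ_ξ _

theorem ρ_ρ (z : K p) : ρ p (ρ p z) = z := by
  have : (ρ p).comp (ρ p) = AlgHom.id _ _ := endo_ext fun i => by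
    have : ∀ i, ρe (ρe i) = i := by decide
    simp [ρ_ξ, this]
  exact DFunLike.congr_fun this z

theorem τ_ρ (z : K p) : τ p (ρ p z) = ρ p (τ p z) := by
  have h : ∀ i, τ p (ρ p (ξ p i)) = ρ p (τ p (ξ p i)) := by
    apply V_cases <;>
    simp only [ρ_s00, ρ_s02, ρ_s20, ρ_s22, ρ_s11, ρ_u0, ρ_u1, ρ_v0, ρ_v1, ρ_yy, τ_s00, τ_s02, τ_s20,
      τ_s22, τ_s11, τ_u0, τ_u1, τ_v0, τ_v1, τ_yy, Af, Cf, map_div₀, map_add, map_mul, map_pow,
      implies_true] <;> rw [add_comm]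
  have : (τ p).comp (ρ p) = (ρ p).comp (τ p) := endo_ext fun i => h _
  exact DFunLike.congr_fun this z

theorem π_ev (g : P p) : π p (ev p g) = ev p (rename πe g) := by
  have : (π p).comp (ev p) = (ev p).comp (rename πe) := by ext i; simp [ev_X, π_ξ]
  exact DFunLike.congr_fun this g

theorem ρ_ev (g : P p) : ρ p (ev p g) = ev p (rename ρe g) := by
  have : (ρ p).comp (ev p) = (ev p).comp (rename ρe) := by ext i; simp [ev_X, ρ_ξ]
  exact DFunLike.congr_fun this g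

theorem τ_ev (g : P p) : τ p (ev p g) = aeval (τz p) g := by
  have : (τ p).comp (ev p) = aeval (τz p) := by ext i; simp [ev_X, τ_ξ]
  exact DFunLike.congr_fun this g

end Pool.Agent.Lib.MP_010de0_ag
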