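import Pool.Agent.Lib.MP_010de0_ag.Grade
import Pool.Agent.Lib.MP_010de0_ag.Setup

/-! The ring of sections `T` and its degrees. -/

set_option autoImplicit false

namespace Pool.Agent.Lib.MP_010de0_ag

open MvPolynomial

abbrev Λ : Type := ℤ × ℤ × ℤ × ℤ

def wt : V → Λ := fun i => i.elim (1, 0, 0, 0) (Sum.elim
  ![(1, 0, 0, 0), (1, 0, 0, 0), (1, 0, 0, 0), (1, 0, 0, 0), (0, 1, 0, 0), (0, 1, 0, 0),
    (0, 0, 1, 0), (0, 0, 1, 0)] fun _ => (0, 0, 0, 1))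

theorem weight_wt (d : V →₀ ℕ) : Finsupp.weight wt d =
    (((d s00 + d s02 + d s20 + d s22 + d s11 : ℕ) : ℤ), ((d u0 + d u1 : ℕ) : ℤ),
      ((d v0 + d v1 : ℕ) : ℤ), ((∑ i, d (yy i) : ℕ) : ℤ)) := by
  rw [Finsupp.weight_eq_sum, Fintype.sum_option, Fintype.sum_sum_type, Fin.sum_univ_eight]
  simp [wt, Prod.ext_iff, Prod.fst_sum, Prod.snd_sum]
  ring

variable {p : ℕ} [Fact p.Prime]

/-- elements of the function field with degrees in `A` -/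
noncomputable def EE (p : ℕ) [Fact p.Prime] (A : Set Λ) : Submodule (ZMod p) (K p) :=
  E (fun i => wt (some i)) (ι p) A

section EE

variable {A B C : Set Λ} {z z' : K p}

theorem EE_def (A : Set Λ) : EE p A = E (fun i => wt (some i)) (ι p) A := rfl

theorem EE_mono (h : ∀ δ ∈ A, δ ∈ B) (hz : z ∈ EE p A) : z ∈ EE p B := by
  rw [EE_def] at *; exact E_mono h hz

theorem EE_mul (hz : z ∈ EE p A) (hz' : z' ∈ EE p B) (H : ∀ a ∈ A, ∀ b ∈ B, a + b ∈ C) :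
    z * z' ∈ EE p C := by
  rw [EE_def] at *; exact E_mul hz hz' H

theorem EE_algebraMap (c : ZMod p) (h : 0 ∈ A) : algebraMap (ZMod p) (K p) c ∈ EE p A := by
  rw [EE_def]; exact E_algebraMap c h

theorem EE_one (h : 0 ∈ A) : (1 : K p) ∈ EE p A := by
  rw [EE_def]; exact E_one h

theorem EE_pow {δ : Λ} (hz : z ∈ EE p {δ}) (n : ℕ) : z ^ n ∈ EE p {n • δ} := by
  rw [EE_def] at *; exact E_pow hz n

theorem EE_aeval {ι' : Type} {w' : ι' → Λ} {y : ι' → K p} (hy : ∀ i, y i ∈ EE p {w' i})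
    {g : MvPolynomial ι' (ZMod p)} (hg : g ∈ Pd (ZMod p) w' A) : aeval y g ∈ EE p A := by
  simp only [EE_def] at *; exact E_aeval hy hg

theorem EE_disj (ha : z ∈ EE p A) (hb : z ∈ EE p B) (H : ∀ δ ∈ A, δ ∉ B) : z = 0 := by
  rw [EE_def] at *; exact E_disj (ι_inj (p := p)) ha hb H

theorem EE_split (B : Set Λ) (hz : z ∈ EE p A) :
    ∃ z1 ∈ EE p (A ∩ B), ∃ z2 ∈ EE p (A \ B), z = z1 + z2 := by
  simp only [EE_def] at *; exact E_split (ι_inj (p := p)) B hz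

theorem EE_inter (ha : z ∈ EE p A) (hb : z ∈ EE p B) : z ∈ EE p (A ∩ B) := by
  rw [EE_def] at *; exact E_inter (ι_inj (p := p)) ha hb

theorem EE_inv {δ : Λ} (hz : z ∈ EE p {δ}) : z⁻¹ ∈ EE p {-δ} := by
  rw [EE_def] at *; exact E_inv (ι_inj (p := p)) hz

theorem EE_cancel {δ : Λ} (h0 : z ≠ 0) (hz : z ∈ EE p {δ}) (h : z * z' ∈ EE p A) :
    z' ∈ EE p {ε | δ + ε ∈ A} := by
  rw [EE_def] at *; exact E_cancel (ι_inj (p := p)) h0 hz h

theorem EE_finite (hz : z ∈ EE p A) : ∃ s : Finset Λ, (∀ δ ∈ s, δ ∈ A) ∧ z ∈ EE p s := by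
  simp only [EE_def] at *; exact E_finite hz

theorem EE_lift {ι' : Type} {w' : ι' → Λ} {y : ι' → K p} (hy : ∀ i, y i ∈ EE p {w' i})
    {g : MvPolynomial ι' (ZMod p)} (hg : aeval y g ∈ EE p A) :
    ∃ g' ∈ Pd (ZMod p) w' A, aeval y g' = aeval y g := by
  simp only [EE_def] at *; exact E_lift (ι_inj (p := p)) hy hg

theorem EE_integral (l : Λ →+ ℤ) (hz : z ∈ EE p Set.univ) (f : Polynomial (K p)) (hf : f.Monic)
    (hc : ∀ i, f.coeff i ∈ EE p {δ | 0 ≤ l δ}) (h0 : f.eval z = 0) : z ∈ EE p {δ | 0 ≤ l δ} := by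
  simp only [EE_def] at *; exact E_integral (ι_inj (p := p)) l hz f hf hc h0

theorem EE_X (i : V') : ξ p (some i) ∈ EE p {wt (some i)} := by
  rw [EE_def]; exact E_of_Pd (Pd_X i rfl)

theorem EE_elim (hz : z ∈ EE p A) : ∃ δ g1 g2, g2 ≠ 0 ∧
    g2 ∈ Pd (ZMod p) (fun i => wt (some i)) {δ} ∧
    g1 ∈ Pd (ZMod p) (fun i => wt (some i)) {ε | ε - δ ∈ A} ∧ z * ι p g2 = ι p g1 := hz

attribute [irreducible] EE

end EE

theorem D_cast {R : Type} [CommRing R] [Module (ZMod p) R] {D : Set Λ → Submodule (ZMod p) R}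
    {a : R} {δ ε : Λ} (h : a ∈ D {δ}) (e : δ = ε) : a ∈ D {ε} := e ▸ h

theorem Gf'_deg {R : Type} [CommRing R] [Module (ZMod p) R] {D : Set Λ → Submodule (ZMod p) R}
    (hmul : ∀ {a b : R} {δ ε : Λ}, a ∈ D {δ} → b ∈ D {ε} → a * b ∈ D {δ + ε}) {z : V → R}
    (hz : ∀ i : V', z (some i) ∈ D {wt (some i)}) : Gf' z ∈ D {(1, 2, 2, 0)} := by
  simp only [Gf', pow_two]
  refine add_mem (add_mem (add_mem ?_ ?_) ?_) ?_
  · exact D_cast (hmul (hmul (hz _) (hmul (hz _) (hz _))) (hmul (hz _) (hz _))) (by decide)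
  · exact D_cast (hmul (hmul (hz _) (hmul (hz _) (hz _))) (hmul (hz _) (hz _))) (by decide)
  · exact D_cast (hmul (hmul (hz _) (hmul (hz _) (hz _))) (hmul (hz _) (hz _))) (by decide)
  · exact D_cast (hmul (hmul (hmul (hmul (hz _) (hz _)) (hz _)) (hz _)) (hz _)) (by decide)

theorem EE_mul1 {a b : K p} {δ ε : Λ} (ha : a ∈ EE p {δ}) (hb : b ∈ EE p {ε}) :
    a * b ∈ EE p {δ + ε} := EE_mul ha hb (by rintro _ rfl _ rfl; rfl)

theorem Pd_mul1 {a b : P p} {δ ε : Λ} (ha : a ∈ Pd (ZMod p) wt {δ}) (hb : b ∈ Pd (ZMod p) wt {ε}) :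
    a * b ∈ Pd (ZMod p) wt {δ + ε} := Pd_mul ha hb (by rintro _ rfl _ rfl; rfl)

theorem ξ_EE (i : V) : ξ p i ∈ EE p {wt i} := by
  have h : ∀ i : V', ξ p (some i) ∈ EE p {wt (some i)} := EE_X
  cases i with
  | some i => exact h i
  | none =>
    have h1 := Gf'_deg (D := EE p) EE_mul1 h
    have h2 := EE_mul1 (h (.inl 4)) (h (.inl 6))
    have h3 : (ξ p u0 * ξ p v0 * (ξ p u0 * ξ p v0)) * ξ p s00 = -Gf' (ξ p) := by
      have := Gf_ξ (p := p)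
      rw [Gf] at this
      linear_combination this
    have h4 := EE_cancel (mul_ne_zero (mul_ne_zero (ξ_ne _) (ξ_ne _))
      (mul_ne_zero (ξ_ne _) (ξ_ne _))) (EE_mul1 h2 h2) (h3 ▸ neg_mem h1)
    refine EE_mono (fun δ hδ => ?_) h4
    simp [wt, Prod.ext_iff] at hδ ⊢
    omega

theorem G_Pd : G p ∈ Pd (ZMod p) wt {(1, 2, 2, 0)} := by
  have h : ∀ i, (X i : P p) ∈ Pd (ZMod p) wt {wt i} := fun i => Pd_X i rfl
  refine add_mem ?_ (Gf'_deg (D := Pd (ZMod p) wt) Pd_mul1 fun i => h _)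
  rw [pow_two]
  exact D_cast (D := Pd (ZMod p) wt)
    (Pd_mul1 (h _) (Pd_mul1 (Pd_mul1 (h _) (h _)) (Pd_mul1 (h _) (h _)))) (by decide)

theorem ev_EE {A : Set Λ} {g : P p} (hg : g ∈ Pd (ZMod p) wt A) : ev p g ∈ EE p A :=
  EE_aeval ξ_EE hg

theorem ev_lift {A : Set Λ} {g : P p} (hg : ev p g ∈ EE p A) :
    ∃ g' ∈ Pd (ZMod p) wt A, ev p g' = ev p g := EE_lift ξ_EE hg

theorem ev_pos (g : P p) : ev p g ∈ EE p {δ | 0 ≤ δ.1 ∧ 0 ≤ δ.2.1 ∧ 0 ≤ δ.2.2.1 ∧ 0 ≤ δ.2.2.2} :=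
  ev_EE fun d _ => by
    rw [weight_wt]
    exact ⟨Int.natCast_nonneg _, Int.natCast_nonneg _, Int.natCast_nonneg _, Int.natCast_nonneg _⟩

theorem EE_endo (σ : K p →ₐ[ZMod p] K p) (l : Λ →+ Λ) (h : ∀ i, σ (ξ p i) ∈ EE p {l (wt i)})
    {A B : Set Λ} (hAB : ∀ δ ∈ A, l δ ∈ B) {z : K p} (hz : z ∈ EE p A) : σ z ∈ EE p B := by
  obtain ⟨δ, g1, g2, h0, h2, h1, H⟩ := EE_elim hz
  have key : ∀ (g : P' p) (C : Set Λ), g ∈ Pd (ZMod p) (fun i => wt (some i)) C →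
      σ (ι p g) ∈ EE p (l '' C) := by
    intro g C hg
    have e1 : σ.comp (ι p) = aeval fun i => σ (ξ p (some i)) := by ext i; simp [ξ_some]
    rw [show σ (ι p g) = _ from DFunLike.congr_fun e1 g]
    refine EE_aeval (fun i => h (some i)) fun d hd => ?_
    rw [weight_map]
    exact ⟨_, hg d hd, rfl⟩
  have a1 := key _ _ h1
  have a2 := key _ _ h2
  rw [Set.image_singleton] at a2
  rw [← H, map_mul, mul_comm] at a1
  refine EE_mono ?_ (EE_cancel ((map_ne_zero σ).mpr (ι_ne h0)) a2 a1)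
  rintro ε ⟨a, ha, e⟩
  have := hAB _ ha
  rwa [map_sub, e, add_sub_cancel_left] at this

def lπ : Λ →+ Λ := AddMonoidHom.mk' (fun δ => (δ.1, δ.2.2.1, δ.2.1, δ.2.2.2)) fun _ _ => rfl

def lτ : Λ →+ Λ := AddMonoidHom.mk'
  (fun δ => (δ.1 + δ.2.1, 2 * δ.2.1 + δ.2.2.1, -δ.2.1, δ.2.2.2)) fun a b => by
    simp [Prod.ext_iff]; refine ⟨?_, ?_, ?_⟩ <;> ring

theorem π_EE {A B : Set Λ} (hAB : ∀ δ ∈ A, (δ.1, δ.2.2.1, δ.2.1, δ.2.2.2) ∈ B) {z : K p}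
    (hz : z ∈ EE p A) : π p z ∈ EE p B := by
  refine EE_endo _ lπ (fun i => ?_) hAB hz
  have : ∀ i, lπ (wt i) = wt (πe i) := by decide
  rw [this, π_ξ]; exact ξ_EE _

theorem τ_EE {A B : Set Λ}
    (hAB : ∀ δ ∈ A, (δ.1 + δ.2.1, 2 * δ.2.1 + δ.2.2.1, -δ.2.1, δ.2.2.2) ∈ B) {z : K p}
    (hz : z ∈ EE p A) : τ p z ∈ EE p B := by
  refine EE_endo _ lτ ?_ hAB hz
  have hA : Af p ∈ EE p {(1, 2, 0, 0)} := by
    simp only [Af, pow_two]
    exact add_mem (D_cast (EE_mul1 (ξ_EE _) (EE_mul1 (ξ_EE _) (ξ_EE _))) (by decide))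
      (D_cast (EE_mul1 (ξ_EE _) (EE_mul1 (ξ_EE _) (ξ_EE _))) (by decide))
  have hC : Cf p ∈ EE p {(1, 2, 0, 0)} := by
    simp only [Cf, pow_two]
    exact add_mem (D_cast (EE_mul1 (ξ_EE _) (EE_mul1 (ξ_EE _) (ξ_EE _))) (by decide))
      (D_cast (EE_mul1 (ξ_EE _) (EE_mul1 (ξ_EE _) (ξ_EE _))) (by decide))
  apply V_cases
  · rw [τ_s00]; exact D_cast (ξ_EE _) (by decide)
  · rw [τ_s02]; exact D_cast (ξ_EE _) (by decide)
  · rw [τ_s20]; exact D_cast (ξ_EE _) (by decide)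
  · rw [τ_s22]; exact D_cast (ξ_EE _) (by decide)
  · rw [τ_s11]; exact D_cast (ξ_EE _) (by decide)
  · rw [τ_u0, div_eq_mul_inv]; exact D_cast (EE_mul1 hC (EE_inv (ξ_EE _))) (by decide)
  · rw [τ_u1, div_eq_mul_inv]; exact D_cast (EE_mul1 hA (EE_inv (ξ_EE _))) (by decide)
  · rw [τ_v0]; exact D_cast (ξ_EE _) (by decide)
  · rw [τ_v1]; exact D_cast (ξ_EE _) (by decide)
  · intro i; rw [τ_yy]; exact ξ_EE (yy i)

/-- the chart where `x` is inverted -/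
def Loc (x : P p) : Subalgebra (ZMod p) (K p) where
  carrier := {f | ∃ (N : ℕ) (g : P p), ev p x ^ N * f = ev p g}
  mul_mem' := by
    rintro a b ⟨N, g, h⟩ ⟨N', g', h'⟩
    exact ⟨N + N', g * g', by rw [map_mul, ← h, ← h']; ring⟩
  add_mem' := by
    rintro a b ⟨N, g, h⟩ ⟨N', g', h'⟩
    exact ⟨N + N', x ^ N' * g + x ^ N * g', by
      simp only [map_add, map_mul, map_pow, ← h, ← h']; ring⟩
  algebraMap_mem' := fun c => ⟨0, C c, by simp⟩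

noncomputable def x0 (p : ℕ) [Fact p.Prime] : P p := X u0 * X v0
noncomputable def x1 (p : ℕ) [Fact p.Prime] : P p := X u1 * X v1

theorem ev_x0 : ev p (x0 p) = ξ p u0 * ξ p v0 := by simp [x0, ev_X]
theorem ev_x1 : ev p (x1 p) = ξ p u1 * ξ p v1 := by simp [x1, ev_X]
theorem ev_x0_ne : ev p (x0 p) ≠ 0 := by rw [ev_x0]; exact mul_ne_zero (ξ_ne _) (ξ_ne _)
theorem ev_x1_ne : ev p (x1 p) ≠ 0 := by rw [ev_x1]; exact mul_ne_zero (ξ_ne _) (ξ_ne _)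
theorem x0_Pd : x0 p ∈ Pd (ZMod p) wt {(0, 1, 1, 0)} := Pd_mul1 (Pd_X u0 rfl) (Pd_X v0 rfl)
theorem x1_Pd : x1 p ∈ Pd (ZMod p) wt {(0, 1, 1, 0)} := Pd_mul1 (Pd_X u1 rfl) (Pd_X v1 rfl)

/-- the ring of sections -/
noncomputable def T (p : ℕ) [Fact p.Prime] : Subalgebra (ZMod p) (K p) :=
  Loc (x0 p) ⊓ Loc (x1 p)

theorem ev_Loc (x g : P p) : ev p g ∈ Loc x := ⟨0, g, by simp⟩
theorem ξ_Loc (x : P p) (i : V) : ξ p i ∈ Loc x := ev_X (p := p) i ▸ ev_Loc x _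
theorem ev_T (g : P p) : ev p g ∈ T p := ⟨ev_Loc _ _, ev_Loc _ _⟩
theorem ξ_T (i : V) : ξ p i ∈ T p := ⟨ξ_Loc _ _, ξ_Loc _ _⟩

theorem mem_L {f : K p} : f ∈ Loc (x0 p) ↔ ∃ (N : ℕ) (r : P' p), ev p (x0 p) ^ N * f = ι p r := by
  constructor
  · rintro ⟨N, g, h⟩
    obtain ⟨n, r, h'⟩ := ev_clear g
    exact ⟨n + N, r, by rw [← h', ← h, ev_x0]; ring⟩
  · rintro ⟨N, r, h⟩
    exact ⟨N, rename some r, by rw [h, ev_rename]⟩

theorem L_coprime {c c' : P' p} (h : IsRelPrime c c') (hc : c ≠ 0) {f : K p} {N M : ℕ}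
    (h1 : f * ι p c ^ N ∈ Loc (x0 p)) (h2 : f * ι p c' ^ M ∈ Loc (x0 p)) : f ∈ Loc (x0 p) := by
  obtain ⟨n, r, H⟩ := mem_L.mp h1
  obtain ⟨n', r', H'⟩ := mem_L.mp h2
  let x : P' p := X (.inl 4) * X (.inl 6)
  have hx : ev p (x0 p) = ι p x := by simp [ev_x0, x, ξ_some]
  have e : x ^ n' * r * c' ^ M = c ^ N * (x ^ n * r') := ι_inj (by
    simp only [map_mul, map_pow, ← H, ← H', hx]; ring)
  obtain ⟨s, hs⟩ := (h.pow (m := N) (n := M)).dvd_of_dvd_mul_right ⟨_, e⟩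
  refine mem_L.mpr ⟨n' + n, s, mul_left_cancel₀ (pow_ne_zero N (ι_ne hc)) ?_⟩
  have := congrArg (ι p) hs
  simp only [map_mul, map_pow, ← H, ← hx] at this
  rw [← this]; ring

theorem Loc_map {σ : K p →ₐ[ZMod p] K p} {e : V → V} (h : ∀ g, σ (ev p g) = ev p (rename e g))
    {x x' : P p} (hx : rename e x = x') {f : K p} (hf : f ∈ Loc x) : σ f ∈ Loc x' := by
  obtain ⟨N, g, H⟩ := hf
  exact ⟨N, rename e g, by rw [← h, ← H, ← hx, ← h, map_mul, map_pow]⟩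

theorem ρ_L0 {f : K p} (hf : f ∈ Loc (x0 p)) : ρ p f ∈ Loc (x1 p) :=
  Loc_map ρ_ev (by simp [x0, x1, ρe]) hf

theorem ρ_L1 {f : K p} (hf : f ∈ Loc (x1 p)) : ρ p f ∈ Loc (x0 p) :=
  Loc_map ρ_ev (by simp [x0, x1, ρe]) hf

theorem ρ_T {f : K p} (hf : f ∈ T p) : ρ p f ∈ T p := ⟨ρ_L1 hf.2, ρ_L0 hf.1⟩

theorem π_T {f : K p} (hf : f ∈ T p) : π p f ∈ T p :=
  ⟨Loc_map π_ev (by simp [x0, πe, mul_comm]) hf.1, Loc_map π_ev (by simp [x1, πe, mul_comm]) hf.2⟩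

theorem τ_L {f : K p} (hf : f ∈ T p) : τ p f ∈ Loc (x0 p) := by
  have a0 := ξ_ne (p := p) (.inl 4)
  have a1 := ξ_ne (p := p) (.inl 6)
  have a2 := ξ_ne (p := p) (.inl 7)
  have iu : (ξ p u0)⁻¹ ∈ Loc (x0 p) := ⟨1, X v0, by rw [ev_x0, ev_X]; field_simp⟩
  have iv : (ξ p v0)⁻¹ ∈ Loc (x0 p) := ⟨1, X u0, by rw [ev_x0, ev_X]; field_simp⟩
  have hξ := ξ_Loc (x0 p)
  have hB : Bf p ∈ Loc (x0 p) := mul_mem (mul_mem (hξ _) (hξ _)) (hξ _)
  have hC : Cf p ∈ Loc (x0 p) :=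
    add_mem (mul_mem (hξ _) (pow_mem (hξ _) 2)) (mul_mem (hξ _) (pow_mem (hξ _) 2))
  have eA : Af p / ξ p v1 = -(Bf p * ξ p v0 + Cf p * ξ p v1) * (ξ p v0)⁻¹ ^ 2 := by
    field_simp
    linear_combination ABC (p := p)
  have h1 : ∀ i, τ p (ξ p i) ∈ Loc (x0 p) := by
    apply V_cases
    · rw [τ_s00]; exact hξ _
    · rw [τ_s02]; exact hξ _
    · rw [τ_s20]; exact hξ _
    · rw [τ_s22]; exact hξ _
    · rw [τ_s11]; exact hξ _
    · rw [τ_u0, div_eq_mul_inv]; exact mul_mem hC iv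
    · rw [τ_u1, eA]
      exact mul_mem (neg_mem (add_mem (mul_mem hB (hξ _)) (mul_mem hC (hξ _)))) (pow_mem iv 2)
    · rw [τ_v0]; exact hξ _
    · rw [τ_v1]; exact hξ _
    · intro i; rw [τ_yy]; exact hξ _
  have h2 : ∀ g, τ p (ev p g) ∈ Loc (x0 p) := by
    intro g
    induction g using MvPolynomial.induction_on with
    | C c => simp
    | add a b ha hb => rw [map_add, map_add]; exact add_mem ha hb
    | mul_X a i ha => rw [map_mul, map_mul, ev_X]; exact mul_mem ha (h1 i)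
  obtain ⟨⟨N, g, H⟩, ⟨M, g', H'⟩⟩ := hf
  let c : P' p := X (.inl 0) * X (.inl 4) ^ 2 + X (.inl 2) * X (.inl 5) ^ 2
  have hc : ι p c = Cf p := Cf_eq.symm
  have key : ∀ i : V', (i = .inl 3 ∨ i = .inl 4 ∨ i = .inl 5 ∨ i = .inl 6) →
      IsRelPrime c (X i) := by
    rintro i (rfl | rfl | rfl | rfl)
    · exact (relPrime_X _ (fun i => if i = .inl 3 ∨ i = .inl 0 then 0 else 1) (by simp)
        (by simp [c])).symm
    · exact (relPrime_X _ (fun i => if i = .inl 4 then 0 else 1) (by simp) (by simp [c])).symm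
    · exact (relPrime_X _ (fun i => if i = .inl 5 then 0 else 1) (by simp) (by simp [c])).symm
    · exact (relPrime_X _ (fun i => if i = .inl 6 ∨ i = .inl 0 then 0 else 1) (by simp)
        (by simp [c])).symm
  have k3 := key (.inl 3) (by decide)
  have k4 := key (.inl 4) (by decide)
  have k5 := key (.inl 5) (by decide)
  have k6 := key (.inl 6) (by decide)
  have hrel := k5.mul_right ((((k3.mul_right k4).mul_right k5).mul_right k6).add_mul_left_right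
    (X (.inl 7)))
  refine L_coprime hrel (fun h => Cf_ne (by rw [← hc, h, map_zero])) (N := N) (M := M) ?_ ?_
  · have := mul_mem (h2 g) (pow_mem (mul_mem (hξ v0) iu) N)
    rw [← H, map_mul, map_pow, ev_x0, map_mul, τ_u0, τ_v0] at this
    convert this using 1
    rw [hc, mul_right_comm, ← mul_pow, mul_comm]
    congr 2
    field_simp
  · have := mul_mem (h2 g') (pow_mem (neg_mem (pow_mem (hξ v0) 2)) M)
    rw [← H', map_mul, map_pow, ev_x1, map_mul, τ_u1, τ_v1, eA] at this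
    convert this using 1
    rw [mul_right_comm _ (τ p f), ← mul_pow, mul_comm]
    congr 2
    simp only [map_mul, map_add, hc, ← ξ_some, Bf]
    field_simp

theorem τ_T {f : K p} (hf : f ∈ T p) : τ p f ∈ T p := by
  refine ⟨τ_L hf, ?_⟩
  have := ρ_L0 (τ_L (ρ_T hf))
  rwa [τ_ρ, ρ_ρ] at this

end Pool.Agent.Lib.MP_010de0_ag
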