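import Mathlib

set_option autoImplicit false

namespace Pool.Agent.Lib.MP_010de0_ag

/-- `R^{1/q}`: the `R`-algebra generated by the `q`-th roots of elements of `R` inside an algebraic
closure of the fraction field (for `q = p ^ e` in characteristic `p`, the set of these roots). -/
noncomputable def rootAlg (R : Type) [CommRing R] [IsDomain R] (q : ℕ) :
    Subalgebra R (AlgebraicClosure (FractionRing R)) :=
  Algebra.adjoin R {z | ∃ r : R, z ^ q = algebraMap R (AlgebraicClosure (FractionRing R)) r}

/-- the minimal number of generators of the `R`-module `Hom_R(R^{1/q}, R)` -/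
noncomputable def mu (R : Type) [CommRing R] [IsDomain R] (q : ℕ) : ℕ :=
  (⊤ : Submodule R (rootAlg R q →ₗ[R] R)).spanFinrank

end Pool.Agent.Lib.MP_010de0_ag
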