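import Pool.Agent.Lib.MP_010de0_ag.Defs

/-! The ring of `q`-th roots is `R` viewed through Frobenius; counting generators. -/

set_option autoImplicit false

namespace Pool.Agent.Lib.MP_010de0_ag

theorem exists_root (R : Type) [CommRing R] [IsDomain R] (p e : ℕ) [Fact p.Prime] [CharP R p] :
    ∃ F : rootAlg R (p ^ e) ≃+* R, ∀ r, F (algebraMap R _ r) = r ^ p ^ e := by
  let Ω := AlgebraicClosure (FractionRing R)
  have hi : Function.Injective (algebraMap R Ω) := by
    rw [IsScalarTower.algebraMap_eq R (FractionRing R) Ω]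
    exact (algebraMap (FractionRing R) Ω).injective.comp (IsFractionRing.injective R _)
  have : CharP Ω p := charP_of_injective_algebraMap hi p
  have h1 : ∀ z : rootAlg R (p ^ e), ∃ r : R, z.1 ^ p ^ e = algebraMap R Ω r := by
    rintro ⟨z, hz⟩
    induction hz using Algebra.adjoin_induction with
    | mem x hx => exact hx
    | algebraMap r => exact ⟨r ^ p ^ e, by simp; rfl⟩
    | add x y _ _ hx hy =>
      obtain ⟨a, ha⟩ := hx
      obtain ⟨b, hb⟩ := hy
      exact ⟨a + b, by rw [map_add, ← ha, ← hb]; exact add_pow_char_pow _ _ _ _⟩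
    | mul x y _ _ hx hy =>
      obtain ⟨a, ha⟩ := hx
      obtain ⟨b, hb⟩ := hy
      exact ⟨a * b, by rw [map_mul, ← ha, ← hb]; exact mul_pow _ _ _⟩
  choose f hf using h1
  let F : rootAlg R (p ^ e) →+* R :=
    { toFun := f
      map_one' := hi (by rw [← hf]; simp)
      map_zero' := hi (by rw [← hf]; simp [(Fact.out : p.Prime).ne_zero])
      map_mul' := fun a b => hi (by rw [map_mul, ← hf, ← hf, ← hf]; exact mul_pow _ _ _)
      map_add' := fun a b => hi (by
        rw [map_add, ← hf, ← hf, ← hf]; exact add_pow_char_pow _ _ _ _) }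
  refine ⟨RingEquiv.ofBijective F ⟨(injective_iff_map_eq_zero F).mpr fun a ha => ?_, fun r => ?_⟩,
    fun r => hi ?_⟩
  · have := hf a
    rw [show f a = 0 from ha, map_zero] at this
    exact Subtype.ext (pow_eq_zero_iff' .. |>.mp this).1
  · obtain ⟨z, hz⟩ := IsAlgClosed.exists_pow_nat_eq (algebraMap R Ω r)
      (pow_pos (Fact.out : p.Prime).pos e)
    exact ⟨⟨z, Algebra.subset_adjoin ⟨r, hz⟩⟩, hi (by rw [← hz]; exact (hf _).symm)⟩
  · rw [map_pow]; exact (hf _).symm

theorem finite_of_expand {R S I : Type} [CommRing R] [CommRing S] [Algebra R S] [Fintype I]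
    {q : ℕ} (F : S ≃+* R) (hF : ∀ r, F (algebraMap R S r) = r ^ q) (m : I → R)
    (h : ∀ x, ∃ c : I → R, x = ∑ i, c i ^ q * m i) : Module.Finite R S := by
  refine ⟨Submodule.fg_def.mpr ⟨Set.range fun i => F.symm (m i), Set.finite_range _, ?_⟩⟩
  refine eq_top_iff.mpr fun z _ => ?_
  obtain ⟨c, hc⟩ := h (F z)
  have : z = ∑ i, c i • F.symm (m i) := F.injective (by
    simp only [hc, map_sum, Algebra.smul_def, map_mul, hF, RingEquiv.apply_symm_apply])
  rw [this]
  exact Submodule.sum_mem _ fun i _ => Submodule.smul_mem _ _ (Submodule.subset_span ⟨i, rfl⟩)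

theorem card_le_spanFinrank {k R M I : Type} [Field k] [CommRing R] [AddCommGroup M] [Module R M]
    [Module.Finite R M] [Fintype I] (j : k →+* R) (N : AddSubgroup M)
    (hN : ∀ c, ∀ m ∈ N, j c • m ∈ N) (h : ∀ r : R, ∃ c, ∀ m, (r - j c) • m ∈ N) (v : I → M)
    (hv : ∀ a : I → k, ∑ i, j (a i) • v i ∈ N → ∀ i, a i = 0) :
    Fintype.card I ≤ (⊤ : Submodule R M).spanFinrank := by
  classical
  let : Module k M := Module.compHom M j
  let N' : Submodule k M := { N with smul_mem' := fun c m hm => hN c m hm }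
  obtain ⟨s, hs, hs'⟩ := (Module.Finite.fg_top (R := R) (M := M)).exists_span_finset_card_eq_spanFinrank
  have h1 : LinearIndependent k fun i => N'.mkQ (v i) := by
    refine Fintype.linearIndependent_iff.mpr fun a ha => hv a ?_
    simp only [← map_smul, ← map_sum] at ha
    exact (Submodule.Quotient.mk_eq_zero N').mp ha
  have h2 : Submodule.span k (s.image N'.mkQ : Set (M ⧸ N')) = ⊤ := by
    refine eq_top_iff.mpr fun z _ => ?_
    obtain ⟨m, rfl⟩ := N'.mkQ_surjective z
    obtain ⟨f, -, rfl⟩ := Submodule.mem_span_finset.mp (hs' ▸ Submodule.mem_top : m ∈ Submodule.span R (s : Set M))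
    rw [map_sum]
    refine Submodule.sum_mem _ fun x hx => ?_
    obtain ⟨c, hc⟩ := h (f x)
    have : N'.mkQ (f x • x) = c • N'.mkQ x := by
      rw [← map_smul]
      refine (Submodule.Quotient.eq N').mpr ?_
      have := hc x
      rw [sub_smul] at this
      exact this
    rw [this]
    exact Submodule.smul_mem _ _ (Submodule.subset_span (Finset.mem_image_of_mem _ hx))
  have h3 := linearIndependent_le_span_finset _ h1 _ h2
  rw [Cardinal.mk_fintype] at h3
  exact (Nat.cast_le.mp h3).trans (hs ▸ Finset.card_image_le)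

end Pool.Agent.Lib.MP_010de0_ag
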