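import Pool.Agent.Lib.MP_010de0_ag.Cartier
import Pool.Agent.Lib.MP_010de0_ag.Root

/-! The local ring `Rm` and the lower bound for the number of generators. -/

set_option autoImplicit false

namespace Pool.Agent.Lib.MP_010de0_ag

open MvPolynomial

variable {p : ℕ} [Fact p.Prime] {e n : ℕ}

/-- the local ring as a type -/
def RR (p : ℕ) [Fact p.Prime] : Type := Rm p

noncomputable instance : CommRing (RR p) := inferInstanceAs (CommRing (Rm p))
instance : IsDomain (RR p) := inferInstanceAs (IsDomain (Rm p))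
noncomputable instance : Algebra (R0 p) (RR p) := inferInstanceAs (Algebra (R0 p) (Rm p))
instance : IsLocalization.AtPrime (RR p) (mm p) :=
  inferInstanceAs (IsLocalization.AtPrime (Rm p) (mm p))

/-- the inclusion in the function field -/
noncomputable def ii (p : ℕ) [Fact p.Prime] : RR p →+* K p := (Rm p).val.toRingHom

theorem ii_inj : Function.Injective (ii p) := Subtype.val_injective
theorem ii_mem (r : RR p) : ii p r ∈ Rm p := Subtype.property r
theorem ii_surj {z : K p} (h : z ∈ Rm p) : ∃ r, ii p r = z := ⟨⟨z, h⟩, rfl⟩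
theorem ii_alg (r : R0 p) : ii p (algebraMap _ _ r) = r := rfl

instance : IsLocalRing (RR p) := IsLocalization.AtPrime.isLocalRing _ (mm p)

instance : IsNoetherianRing (RR p) :=
  IsLocalization.isNoetherianRing (mm p).primeCompl _ inferInstance

instance : IsIntegrallyClosed (RR p) :=
  isIntegrallyClosed_of_isLocalization _ (mm p).primeCompl (mm p).primeCompl_le_nonZeroDivisors

/-- the prime field inside `Rm` -/
noncomputable def jj (p : ℕ) [Fact p.Prime] : ZMod p →+* RR p :=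
  (algebraMap (R0 p) (RR p)).comp (algebraMap (ZMod p) (R0 p))

theorem jj_coe (c : ZMod p) : ii p (jj p c) = algebraMap (ZMod p) (K p) c := rfl

instance : CharP (RR p) p := charP_of_injective_ringHom (jj p).injective p

theorem dim_RR : ∃ d : ℕ, d ≤ 18 ∧ ringKrullDim (RR p) = d := by
  have h1 : ringKrullDim (RR p) ≤ 18 := by
    rw [IsLocalization.AtPrime.ringKrullDim_eq_height (mm p) (RR p)]
    exact Ideal.height_le_ringKrullDim_of_isPrime.trans dim_R0
  rw [IsLocalization.AtPrime.ringKrullDim_eq_height (mm p) (RR p)] at h1 ⊢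
  have h2 : (mm p).height ≤ (18 : ℕ) := WithBot.coe_le_coe.mp h1
  obtain ⟨d, hd⟩ := ENat.ne_top_iff_exists.mp (ne_top_of_le_ne_top (ENat.natCast_ne_top 18) h2)
  rw [← hd] at h2 ⊢
  exact ⟨d, by exact_mod_cast h2, rfl⟩

theorem perfect_Rm : PerfectField (IsLocalRing.ResidueField (RR p)) := by
  have : Finite (IsLocalRing.ResidueField (RR p)) := by
    refine Finite.of_surjective (fun c => IsLocalRing.residue _ (jj p c)) fun x => ?_
    obtain ⟨r, rfl⟩ := IsLocalRing.residue_surjective x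
    obtain ⟨c0, a, c, ha, hc, h⟩ := Rm_decomp (ii_mem r)
    refine ⟨c0, (Ideal.Quotient.eq.mpr ?_).symm⟩
    have h1 : algebraMap (R0 p) (RR p) c * (r - jj p c0) = algebraMap (R0 p) (RR p) a :=
      ii_inj (by rw [map_mul, map_sub]; exact h)
    have h2 := (IsLocalization.AtPrime.to_map_mem_maximal_iff (RR p) (mm p) a).mpr ha
    rw [← h1] at h2
    exact (Ideal.IsPrime.mem_or_mem inferInstance h2).resolve_left fun h =>
      hc ((IsLocalization.AtPrime.to_map_mem_maximal_iff (RR p) (mm p) c).mp h)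
  infer_instance

theorem finite_Rm {S : Type} [CommRing S] [Algebra (RR p) S] (F : S ≃+* RR p)
    (hF : ∀ r, F (algebraMap _ S r) = r ^ p ^ e) : Module.Finite (RR p) S := by
  obtain ⟨n, hn⟩ : ∃ n, p ^ e = n + 1 :=
    Nat.exists_eq_succ_of_ne_zero (pow_pos (Fact.out : p.Prime).pos e).ne'
  obtain ⟨s, f, hf⟩ := Algebra.FiniteType.iff_quotient_mvPolynomial''.mp
    (inferInstance : Algebra.FiniteType (ZMod p) (R0 p))
  refine finite_of_expand F hF
    (fun ρ : Fin s → Fin (p ^ e) => algebraMap (R0 p) _ (f (mono p ρ))) fun x => ?_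
  obtain ⟨⟨a, c⟩, h⟩ := IsLocalization.surj (mm p).primeCompl x
  obtain ⟨u, hu⟩ := (IsLocalization.map_units (RR p) c).exists_right_inv
  obtain ⟨g, hg⟩ := hf (c ^ n * a)
  refine ⟨fun ρ => u * algebraMap (R0 p) _ (f (tr p _ (p ^ e) (dual p ρ * g))), ?_⟩
  have h1 := congrArg (fun g => algebraMap (R0 p) (RR p) (f g)) (tr_expand e g)
  simp only [map_sum, map_mul, map_pow] at h1
  simp only [mul_pow, mul_assoc, ← Finset.mul_sum, ← h1, hg, map_mul, map_pow, ← h]
  rw [hn, mul_comm x, ← mul_assoc (_ ^ n), ← pow_succ, ← mul_assoc, ← mul_pow, mul_comm u, hu,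
    one_pow, one_mul]

theorem IsCartier.unique_Rm {Φ : K p →+ K p} (hΦ : IsCartier e Φ) {f f' : K p}
    (h : ∀ z ∈ Rm p, Φ (f * z) = Φ (f' * z)) : f = f' := by
  obtain ⟨n, hn⟩ : ∃ n, p ^ e = n + 1 :=
    Nat.exists_eq_succ_of_ne_zero (pow_pos (Fact.out : p.Prime).pos e).ne'
  refine hΦ.unique fun x => ?_
  obtain ⟨a, b, hb, rfl⟩ := IsFractionRing.div_surjective (A := R0 p) x
  have h0 : (b : K p) ≠ 0 := fun h => nonZeroDivisors.ne_zero hb (Subtype.ext h)
  have h1 : ∀ g : K p, g * (algebraMap (R0 p) (K p) a / algebraMap (R0 p) (K p) b) =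
      (b : K p)⁻¹ ^ p ^ e * (g * (b ^ n * a)) := fun g => by
    simp only [Subalgebra.algebraMap_def, Algebra.algebraMap_self, RingHom.id_apply, hn, inv_pow]
    field_simp
    ring
  rw [h1, h1, hΦ.lin, hΦ.lin, h _ (R0_le_Rm (mul_mem (pow_mem b.2 n) a.2))]

/-- polynomials in the extra variables -/
noncomputable def Y (p : ℕ) [Fact p.Prime] : MvPolynomial (Fin 10) (ZMod p) →ₐ[ZMod p] K p :=
  aeval fun i => ξ p (yy i)

theorem Y_eq (g : MvPolynomial (Fin 10) (ZMod p)) : Y p g = ι p (rename Sum.inr g) := by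
  have : Y p = (ι p).comp (rename Sum.inr) := by ext i; simp [Y, ξ_some]
  rw [this]; rfl

theorem Y_T (g : MvPolynomial (Fin 10) (ZMod p)) : Y p g ∈ T p := by
  rw [Y_eq, ← ev_rename]; exact ev_T _

theorem Y_inj : Function.Injective (Y p) := fun a b h => by
  rw [Y_eq, Y_eq] at h
  exact rename_injective _ Sum.inr_injective (ι_inj h)

theorem Y_mono {M : ℕ} (μ : Fin 10 → Fin (M + 1)) :
    Y p (mono p μ) ∈ EE p {δ | δ.1 = 0 ∧ δ.2.1 = 0 ∧ δ.2.2.1 = 0 ∧ δ.2.2.2 ≤ 10 * M} := by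
  refine EE_aeval (w' := fun _ => (0, 0, 0, 1)) (fun i => ξ_EE (yy i)) (Pd_monomial 1 ?_)
  rw [Finsupp.weight_eq_sum]
  simp only [Set.mem_ofPred_eq, Prod.fst_sum, Prod.snd_sum]
  refine ⟨by simp, by simp, by simp, (Finset.sum_le_card_nsmul _ _ (M : ℤ) fun i _ => ?_).trans
    (by simp)⟩
  have := (μ i).2
  simp
  omega

theorem mono_indep {M : ℕ} (a : (Fin 10 → Fin M) → ZMod p) (h : ∑ μ, a μ • mono p μ = 0) :
    ∀ μ, a μ = 0 := by
  refine Fintype.linearIndependent_iff.mp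
    ((basisMonomials (Fin 10) (ZMod p)).linearIndependent.comp
      (fun μ : Fin 10 → Fin M => Finsupp.equivFunOnFinite.symm fun i => (μ i : ℕ)) ?_) a ?_
  · intro μ ν h
    funext i
    exact Fin.ext (congrFun (Finsupp.equivFunOnFinite.symm.injective h) i)
  · simpa [mono] using h

theorem mu_ge (hn : p ^ e = n + 1) (h1 : 1 ≤ n) {M : ℕ} (hM : 20 * M ≤ n * (n + 1))
    {S : Type} [CommRing S] [Algebra (RR p) S] (F : S ≃+* RR p)
    (hF : ∀ r, F (algebraMap _ S r) = r ^ p ^ e) :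
    (M + 1) ^ 10 ≤ (⊤ : Submodule (RR p) (S →ₗ[RR p] RR p)).spanFinrank := by
  obtain ⟨Φ, hΦ⟩ := exists_isCartier (p := p) e
  obtain ⟨s, hs, hs0, j, hj, hsd⟩ := exists_sec (p := p) n
  have := finite_Rm F hF
  have hsm : ∀ (r : RR p) z, ii p (F (r • z)) = ii p r ^ p ^ e * ii p (F z) := fun r z => by
    rw [Algebra.smul_def, map_mul, hF, map_mul, map_pow]
  have hd : ∀ μ : Fin 10 → Fin (M + 1), s * Y p (mono p μ) ∈
      EE p {δ | δ.1 = j ∧ δ.2.1 = n + 1 ∧ δ.2.2.1 = -n ∧ δ.2.2.2 ≤ 10 * M} := fun μ =>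
    EE_mul hsd (Y_mono μ) (by
      rintro _ rfl b hb
      simp only [Set.mem_ofPred_eq, Prod.fst_add, Prod.snd_add] at *
      omega)
  have hv : ∀ (μ : Fin 10 → Fin (M + 1)) z, ∃ r, ii p r = Φ (s * Y p (mono p μ) * ii p (F z)) :=
    fun μ z => ii_surj (hΦ.mem_Rm_of hn (mul_mem hs (Y_T _)) (EE_mono (fun δ h => by
      simp only [Set.mem_ofPred_eq] at *
      omega) (hd μ)) (ii_mem _))
  choose v' hv using hv
  let v : (Fin 10 → Fin (M + 1)) → (S →ₗ[RR p] RR p) := fun μ =>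
    { toFun := v' μ
      map_add' := fun a b => ii_inj (by simp only [map_add, hv, mul_add])
      map_smul' := fun r z => ii_inj (by
        rw [hv, hsm, mul_left_comm, hΦ.lin, smul_eq_mul, map_mul (ii p), hv]; rfl) }
  let D : Set Λ := {δ | ∃ ε ∈ cone \ {0}, δ - ε ∈ {δ : Λ | 0 ≤ δ.1 ∧
    (0 < δ.2.1 + δ.2.2.1 ∨ (δ.2.1 = 0 ∧ δ.2.2.1 = 0)) ∧
    (δ.2.1 = n + 1 → δ.2.2.1 = -n → n * (n + 1) ≤ 2 * δ.1)}}
  have D1 : ∀ (c : R0 p), ∀ f ∈ EE p D, c * f ∈ EE p D := fun c f hf =>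
    EE_mul c.2.2 hf fun a ha b ⟨ε, hε, hb⟩ => ⟨a + ε, ⟨cone_add _ ha _ hε.1, fun h => hε.2 (by
      have := hε.1
      simp only [mem_cone, Set.mem_singleton_iff, Prod.ext_iff, Prod.fst_add, Prod.snd_add,
        Prod.fst_zero, Prod.snd_zero] at *
      omega)⟩, by rwa [add_sub_add_left_eq_sub]⟩
  have D2 : ∀ a ∈ mm p, ∀ f ∈ T p, a * f ∈ EE p D := fun a ha f hf =>
    EE_mul (mem_mm.mp ha) (T_eff n hf) fun a ha b hb => ⟨a, ha, by rwa [add_sub_cancel_left]⟩
  let N : AddSubgroup (S →ₗ[RR p] RR p) :=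
    { carrier := {φ | ∃ c : R0 p, c ∉ mm p ∧ ∃ f ∈ EE p D,
        ∀ z, c * ii p (φ z) = Φ (f * ii p (F z))}
      zero_mem' := ⟨1, one_not_mem_mm, 0, zero_mem _, by simp⟩
      add_mem' := by
        rintro a b ⟨c, hc, f, hf, H⟩ ⟨c', hc', f', hf', H'⟩
        refine ⟨c * c', (mm p).primeCompl.mul_mem hc hc', _,
          add_mem (D1 (c' ^ p ^ e) f hf) (D1 (c ^ p ^ e) f' hf'), fun z => ?_⟩
        simp only [Subalgebra.coe_pow, add_mul, mul_assoc, map_add, hΦ.lin, ← H, ← H',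
          LinearMap.add_apply, Subalgebra.coe_mul]
        ring
      neg_mem' := by
        rintro a ⟨c, hc, f, hf, H⟩
        exact ⟨c, hc, -f, neg_mem hf, fun z => by simp [← H]⟩ }
  have key := card_le_spanFinrank (jj p) N ?_ ?_ v ?_
  · simpa using key
  · rintro a φ ⟨c, hc, f, hf, H⟩
    refine ⟨c, hc, _, D1 (algebraMap _ _ a ^ p ^ e) f hf, fun z => ?_⟩
    rw [Subalgebra.coe_pow, mul_assoc, hΦ.lin, ← H, LinearMap.smul_apply, smul_eq_mul,
      map_mul (ii p), mul_left_comm]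
    rfl
  · intro r
    obtain ⟨c0, a, c, ha, hc, h⟩ := Rm_decomp (ii_mem r)
    refine ⟨c0, fun φ => ?_⟩
    obtain ⟨ψ, hψ, hψ'⟩ := exists_extend (ii p) (fun f => by
        obtain ⟨a, b, hb, rfl⟩ := IsFractionRing.div_surjective (A := R0 p) f
        have h0 : (b : K p) ≠ 0 := fun h => nonZeroDivisors.ne_zero hb (Subtype.ext h)
        exact ⟨algebraMap _ _ a, algebraMap _ _ b, h0, div_mul_cancel₀ _ h0⟩) (q := p ^ e)
      (by omega) (AddMonoidHom.mk' (fun x => ii p (φ (F.symm x))) fun a b => by simp)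
      (fun b hb => by simp [show b = 0 from ii_inj (hb.trans (map_zero _).symm)]) fun r x => by
        have : F.symm (r ^ p ^ e * x) = r • F.symm x := F.injective (ii_inj (by
          rw [hsm]; simp))
        simp [this]
    obtain ⟨c', hc', f, hf, H⟩ := hΦ.rep_Rm hψ fun z hz => by
      obtain ⟨r, rfl⟩ := ii_surj hz
      rw [hψ']; exact ii_mem _
    refine ⟨c * c', (mm p).primeCompl.mul_mem hc hc', _,
      D2 (a ^ p ^ e) (Ideal.pow_mem_of_mem _ ha _ (by omega)) f hf, fun z => ?_⟩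
    rw [Subalgebra.coe_pow, mul_assoc, hΦ.lin, ← H, hψ', ← h]
    simp [jj_coe]
    ring
  · rintro a ⟨c, hc, f, hf, H⟩
    let g : K p := ∑ μ, a μ • (s * Y p (mono p μ))
    have h2 : (c : K p) ^ p ^ e * g = f := hΦ.unique_Rm fun z hz => by
      obtain ⟨r, rfl⟩ := ii_surj hz
      have := H (F.symm r)
      rw [F.apply_symm_apply] at this
      rw [← this, mul_assoc, hΦ.lin]
      simp only [g, v, Finset.sum_mul, map_sum, LinearMap.sum_apply, LinearMap.smul_apply,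
        smul_eq_mul, map_mul (ii p), LinearMap.coe_mk, hv,
        AddHom.coe_mk, F.apply_symm_apply, jj_coe, ← hΦ.lin, ← map_pow, ZMod.pow_card_pow,
        Algebra.smul_def, mul_assoc]
    obtain ⟨c1, hc1⟩ := R0_decomp (c ^ p ^ e)
    have h0 : c1 ≠ 0 := by
      rintro rfl
      exact hc (Ideal.IsPrime.mem_of_pow_mem inferInstance _ (by simpa using hc1))
    have hg : g ∈ T p := sum_mem fun μ _ => Subalgebra.smul_mem _ (mul_mem hs (Y_T _)) _
    have h3 := sub_mem hf (D2 _ hc1 g hg)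
    rw [← h2, Subalgebra.coe_sub, Subalgebra.coe_pow, sub_mul, sub_sub_cancel,
      Subalgebra.coe_algebraMap, ← Algebra.smul_def] at h3
    have h4 := EE_disj h3 (Submodule.smul_mem _ c1 (sum_mem fun μ _ =>
      Submodule.smul_mem _ (a μ) (hd μ))) (by
        rintro δ ⟨ε, ⟨b1, b2⟩, b3⟩ b4
        simp only [mem_cone, Set.mem_singleton_iff, Prod.ext_iff, Prod.fst_sub, Prod.snd_sub,
          Prod.fst_zero, Prod.snd_zero, Set.mem_ofPred_eq] at *
        have hj' : (2 * j : ℤ) = n * (n + 1) := by exact_mod_cast hj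
        rw [← hj'] at b3
        omega)
    have h5 : s * Y p (∑ μ, a μ • mono p μ) = 0 := by
      rw [← (smul_eq_zero.mp h4).resolve_left h0]
      simp only [map_sum, map_smul, Finset.mul_sum, mul_smul_comm, g]
    exact mono_indep a (Y_inj (((mul_eq_zero.mp h5).resolve_left hs0).trans (map_zero _).symm))

theorem finite_RR (e : ℕ) : Module.Finite (RR p) (rootAlg (RR p) (p ^ e)) := by
  obtain ⟨F, hF⟩ := exists_root (RR p) p e
  exact finite_Rm F hF

theorem mu_RR (he : 1 ≤ e) : (p ^ e) ^ 20 ≤ 40 ^ 10 * mu (RR p) (p ^ e) := by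
  obtain ⟨F, hF⟩ := exists_root (RR p) p e
  have h1 : 1 < p ^ e := Nat.one_lt_pow (by omega) (Fact.out : p.Prime).one_lt
  obtain ⟨n, hn⟩ : ∃ n, p ^ e = n + 1 := Nat.exists_eq_succ_of_ne_zero (by omega)
  have h2 := mu_ge hn (by omega) (Nat.mul_div_le (n * (n + 1)) 20) F hF
  have h3 : (p ^ e) ^ 2 ≤ 40 * (n * (n + 1) / 20 + 1) := by
    have : (n + 1) ^ 2 ≤ 2 * (n * (n + 1)) := by nlinarith
    rw [hn]; omega
  calc (p ^ e) ^ 20 = ((p ^ e) ^ 2) ^ 10 := by rw [← pow_mul (p ^ e)]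
    _ ≤ (40 * (n * (n + 1) / 20 + 1)) ^ 10 := Nat.pow_le_pow_left h3 10
    _ ≤ _ := by rw [mul_pow]; exact Nat.mul_le_mul_left _ h2

theorem tendsto_RR {d : ℕ} (hd : d ≤ 18) :
    Filter.Tendsto (fun e : ℕ => (mu (RR p) (p ^ e) : ℝ) / (p : ℝ) ^ (e * d)) Filter.atTop
      Filter.atTop := by
  have hp : (1 : ℝ) < p := by exact_mod_cast (Fact.out : p.Prime).one_lt
  refine Filter.tendsto_atTop_mono' _ ?_
    ((tendsto_pow_atTop_atTop_of_one_lt hp).atTop_div_const (by positivity : (0 : ℝ) < 40 ^ 10))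
  filter_upwards [Filter.eventually_ge_atTop 1] with e he
  have h1 : ((p : ℝ) ^ e) ^ 20 ≤ 40 ^ 10 * mu (RR p) (p ^ e) := by exact_mod_cast mu_RR he
  have h2 : (1 : ℝ) ≤ p ^ e := one_le_pow₀ hp.le
  rw [div_le_div_iff₀ (by positivity) (by positivity), pow_mul, ← pow_succ', mul_comm]
  exact (pow_le_pow_right₀ h2 (by omega)).trans h1

end Pool.Agent.Lib.MP_010de0_ag
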