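import Mathlib

/-! Gradings of a polynomial ring and of its homogeneous localisation, by sets of degrees. -/

set_option autoImplicit false

namespace Pool.Agent.Lib.MP_010de0_ag

open MvPolynomial Finsupp

section Pd

variable {k : Type} [Field k] {ι Λ : Type} [AddCommGroup Λ] {w : ι → Λ} {A B C : Set Λ}

/-- polynomials all of whose monomials have weight in `A` -/
def Pd (k : Type) [Field k] (w : ι → Λ) (A : Set Λ) : Submodule k (MvPolynomial ι k) where
  carrier := {g | ∀ d, coeff d g ≠ 0 → weight w d ∈ A}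
  zero_mem' := fun d h => by simp at h
  add_mem' := fun {a b} ha hb d h => by
    by_cases h1 : coeff d a = 0
    · exact hb d (by simpa [h1] using h)
    · exact ha d h1
  smul_mem' := fun c a ha d h => ha d (fun h1 => by simp [h1] at h)

theorem mem_Pd {g : MvPolynomial ι k} : g ∈ Pd k w A ↔ ∀ d, coeff d g ≠ 0 → weight w d ∈ A :=
  Iff.rfl

theorem Pd_mono (h : ∀ δ ∈ A, δ ∈ B) {g : MvPolynomial ι k} (hg : g ∈ Pd k w A) :
    g ∈ Pd k w B := fun d hd => h _ (hg d hd)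

theorem Pd_mul {g h : MvPolynomial ι k} (hg : g ∈ Pd k w A) (hh : h ∈ Pd k w B)
    (H : ∀ a ∈ A, ∀ b ∈ B, a + b ∈ C) : g * h ∈ Pd k w C := by
  classical
  intro d hd
  rw [coeff_mul] at hd
  obtain ⟨⟨a, b⟩, hab, h1⟩ := Finset.exists_ne_zero_of_sum_ne_zero hd
  rw [Finset.HasAntidiagonal.mem_antidiagonal] at hab
  rw [← hab, map_add]
  exact H _ (hg _ (left_ne_zero_of_mul h1)) _ (hh _ (right_ne_zero_of_mul h1))

theorem Pd_monomial {d : ι →₀ ℕ} (c : k) (h : weight w d ∈ A) : monomial d c ∈ Pd k w A := by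
  classical
  intro d' hd
  rw [coeff_monomial] at hd
  split_ifs at hd with h1
  · rwa [← h1]
  · simp at hd

theorem Pd_X (i : ι) (h : w i ∈ A) : (X i : MvPolynomial ι k) ∈ Pd k w A :=
  Pd_monomial 1 (by simpa [weight_single] using h)

theorem Pd_C (c : k) (h : 0 ∈ A) : (MvPolynomial.C c : MvPolynomial ι k) ∈ Pd k w A :=
  Pd_monomial c (by simpa using h)

theorem Pd_pow {g : MvPolynomial ι k} {δ : Λ} (hg : g ∈ Pd k w {δ}) (n : ℕ) :
    g ^ n ∈ Pd k w {n • δ} := by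
  induction n with
  | zero => simpa using Pd_C (w := w) (A := {0}) (1 : k) rfl
  | succ n ih =>
    rw [pow_succ]
    refine Pd_mul ih hg ?_
    rintro _ rfl _ rfl
    simp [succ_nsmul]

theorem Pd_ind {P : MvPolynomial ι k → Prop} {g : MvPolynomial ι k} (hg : g ∈ Pd k w A)
    (h0 : P 0) (hadd : ∀ a b, P a → P b → P (a + b))
    (hm : ∀ d c, weight w d ∈ A → P (monomial d c)) : P g := by
  rw [g.as_sum]
  exact Finset.sum_induction _ P hadd h0 fun d hd => hm d _ (hg d (MvPolynomial.mem_support_iff.mp hd))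

theorem Pd_split (B : Set Λ) {g : MvPolynomial ι k} (hg : g ∈ Pd k w A) :
    ∃ g1 ∈ Pd k w (A ∩ B), ∃ g2 ∈ Pd k w (A \ B), g = g1 + g2 := by
  refine Pd_ind (P := fun g => ∃ g1 ∈ Pd k w (A ∩ B), ∃ g2 ∈ Pd k w (A \ B), g = g1 + g2) hg
    ⟨0, zero_mem _, 0, zero_mem _, by simp⟩ ?_ fun d c hd => ?_
  · rintro _ _ ⟨a, ha, b, hb, rfl⟩ ⟨a', ha', b', hb', rfl⟩
    exact ⟨a + a', add_mem ha ha', b + b', add_mem hb hb', by ring⟩
  · by_cases h : weight w d ∈ B
    · exact ⟨_, Pd_monomial c ⟨hd, h⟩, 0, zero_mem _, by simp⟩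
    · exact ⟨0, zero_mem _, _, Pd_monomial c ⟨hd, h⟩, by simp⟩

theorem Pd_univ (g : MvPolynomial ι k) : g ∈ Pd k w Set.univ := fun _ _ => trivial

theorem Pd_disj {g : MvPolynomial ι k} (ha : g ∈ Pd k w A) (hb : g ∈ Pd k w B)
    (H : ∀ δ ∈ A, δ ∉ B) : g = 0 := by
  ext d
  by_contra h
  exact H _ (ha d h) (hb d h)

theorem Pd_cancel {G h : MvPolynomial ι k} {γ : Λ} (hG0 : G ≠ 0) (hG : G ∈ Pd k w {γ})
    (H : G * h ∈ Pd k w A) : h ∈ Pd k w {ε | γ + ε ∈ A} := by
  obtain ⟨h1, H1, h2, H2, rfl⟩ := Pd_split {ε | γ + ε ∈ A} (Pd_univ (w := w) h)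
  have a1 : G * h1 ∈ Pd k w A := Pd_mul hG H1 (by rintro _ rfl b hb; exact hb.2)
  have a2 : G * h2 ∈ Pd k w Aᶜ := Pd_mul hG H2 (by rintro _ rfl b hb; exact hb.2)
  have a3 : G * h2 ∈ Pd k w A := by
    have := sub_mem H a1
    rwa [mul_add, add_sub_cancel_left] at this
  have := Pd_disj a3 a2 (fun δ h h' => h' h)
  rw [(mul_eq_zero.mp this).resolve_left hG0, add_zero]
  exact Pd_mono (fun δ h => h.2) H1

theorem weight_map {Λ' : Type} [AddCommGroup Λ'] (l : Λ →+ Λ') (d : ι →₀ ℕ) :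
    weight (fun i => l (w i)) d = l (weight w d) := by
  simp [weight_apply, Finsupp.sum, map_sum, map_nsmul]

end Pd

section E

variable {k : Type} [Field k] {ι Λ K : Type} [AddCommGroup Λ] [Field K] [Algebra k K] {w : ι → Λ}
  {j : MvPolynomial ι k →ₐ[k] K} {A B C : Set Λ} {z z' : K}

/-- fractions with homogeneous denominator all of whose components have degree in `A` -/
def E (w : ι → Λ) (j : MvPolynomial ι k →ₐ[k] K) (A : Set Λ) : Submodule k K where
  carrier := {z | ∃ δ g1 g2, g2 ≠ 0 ∧ g2 ∈ Pd k w {δ} ∧ g1 ∈ Pd k w {ε | ε - δ ∈ A} ∧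
    z * j g2 = j g1}
  zero_mem' := ⟨0, 0, 1, one_ne_zero, Pd_C 1 rfl, zero_mem _, by simp⟩
  add_mem' := by
    rintro a b ⟨δ, g1, g2, h0, h2, h1, h⟩ ⟨δ', g1', g2', h0', h2', h1', h'⟩
    refine ⟨δ + δ', g1 * g2' + g1' * g2, g2 * g2', mul_ne_zero h0 h0', Pd_mul h2 h2' ?_,
      add_mem (Pd_mul h1 h2' ?_) (Pd_mul h1' h2 ?_), ?_⟩
    · rintro _ rfl _ rfl; rfl
    · rintro a ha _ rfl; simpa using ha
    · rintro a ha b rfl
      have : a + b - (b + δ') = a - δ' := by abel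
      simpa [this] using ha
    · simp only [map_add, map_mul, ← h, ← h']; ring
  smul_mem' := by
    rintro c a ⟨δ, g1, g2, h0, h2, h1, h⟩
    exact ⟨δ, c • g1, g2, h0, h2, Submodule.smul_mem _ c h1, by rw [map_smul, ← h, smul_mul_assoc]⟩

theorem E_mono (h : ∀ δ ∈ A, δ ∈ B) (hz : z ∈ E w j A) : z ∈ E w j B := by
  obtain ⟨δ, g1, g2, h0, h2, h1, h'⟩ := hz
  exact ⟨δ, g1, g2, h0, h2, fun d hd => h _ (h1 d hd), h'⟩

theorem E_mul (hz : z ∈ E w j A) (hz' : z' ∈ E w j B) (H : ∀ a ∈ A, ∀ b ∈ B, a + b ∈ C) :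
    z * z' ∈ E w j C := by
  obtain ⟨δ, g1, g2, h0, h2, h1, h⟩ := hz
  obtain ⟨δ', g1', g2', h0', h2', h1', h'⟩ := hz'
  refine ⟨δ + δ', g1 * g1', g2 * g2', mul_ne_zero h0 h0', Pd_mul h2 h2' ?_, Pd_mul h1 h1' ?_, ?_⟩
  · rintro _ rfl _ rfl; rfl
  · intro a ha b hb
    have := H _ ha _ hb
    have h3 : a - δ + (b - δ') = a + b - (δ + δ') := by abel
    rwa [h3] at this
  · simp only [map_mul, ← h, ← h']; ring

theorem E_of_Pd {g : MvPolynomial ι k} (hg : g ∈ Pd k w A) : j g ∈ E w j A :=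
  ⟨0, g, 1, one_ne_zero, Pd_C 1 rfl, Pd_mono (fun δ h => by simpa using h) hg, by simp⟩

theorem E_algebraMap (c : k) (h : 0 ∈ A) : algebraMap k K c ∈ E w j A := by
  simpa using E_of_Pd (j := j) (Pd_C (w := w) c h)

theorem E_one (h : 0 ∈ A) : (1 : K) ∈ E w j A := by
  simpa using E_algebraMap (j := j) (w := w) 1 h

theorem E_pow {δ : Λ} (hz : z ∈ E w j {δ}) (n : ℕ) : z ^ n ∈ E w j {n • δ} := by
  induction n with
  | zero => simpa using E_one (w := w) (j := j) (A := {0}) rfl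
  | succ n ih =>
    rw [pow_succ]
    refine E_mul ih hz ?_
    rintro _ rfl _ rfl
    simp [succ_nsmul]

theorem E_aeval {ι' : Type} {w' : ι' → Λ} {y : ι' → K} (hy : ∀ i, y i ∈ E w j {w' i})
    {g : MvPolynomial ι' k} (hg : g ∈ Pd k w' A) : aeval y g ∈ E w j A := by
  refine Pd_ind (P := fun g => aeval y g ∈ E w j A) hg (by simp) (fun a b ha hb => by
    rw [map_add]; exact add_mem ha hb) fun d c hd => ?_
  have key : ∀ d : ι' →₀ ℕ, (d.prod fun i n => y i ^ n) ∈ E w j {weight w' d} := by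
    intro d
    induction d using Finsupp.induction_linear with
    | zero => simpa using E_one (w := w) (j := j) (A := {0}) rfl
    | add a b ha hb =>
      rw [prod_add_index' (by simp) (by simp [pow_add]), map_add]
      exact E_mul ha hb (by rintro _ rfl _ rfl; rfl)
    | single i n =>
      rw [prod_single_index (by simp), weight_single]
      exact E_pow (hy i) n
  rw [aeval_monomial]
  exact E_mul (E_algebraMap (A := {0}) c rfl) (key d) (by rintro _ rfl _ rfl; simpa using hd)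

variable (hj : Function.Injective j)
include hj

theorem E_disj (ha : z ∈ E w j A) (hb : z ∈ E w j B) (H : ∀ δ ∈ A, δ ∉ B) : z = 0 := by
  obtain ⟨δ, g1, g2, h0, h2, h1, h⟩ := ha
  obtain ⟨δ', g1', g2', h0', h2', h1', h'⟩ := hb
  have e1 : g1 * g2' = g1' * g2 := hj (by simp only [map_mul, ← h, ← h']; ring)
  have a1 : g1 * g2' ∈ Pd k w {ε | ε - (δ + δ') ∈ A} :=
    Pd_mul h1 h2' (by rintro a ha _ rfl; simpa using ha)
  have a2 : g1' * g2 ∈ Pd k w {ε | ε - (δ + δ') ∈ B} :=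
    Pd_mul h1' h2 (by
      rintro a ha b rfl
      have : a + b - (b + δ') = a - δ' := by abel
      simpa [this] using ha)
  rw [← e1] at a2
  have := (mul_eq_zero.mp (Pd_disj a1 a2 fun ε h h' => H _ h h')).resolve_right h0'
  rw [this, map_zero] at h
  exact (mul_eq_zero.mp h).resolve_right ((map_ne_zero_iff _ hj).mpr h0)

theorem E_split (B : Set Λ) (hz : z ∈ E w j A) :
    ∃ z1 ∈ E w j (A ∩ B), ∃ z2 ∈ E w j (A \ B), z = z1 + z2 := by
  obtain ⟨δ, g1, g2, h0, h2, h1, h⟩ := hz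
  have hne : j g2 ≠ 0 := (map_ne_zero_iff _ hj).mpr h0
  obtain ⟨a, ha, b, hb, rfl⟩ := Pd_split {ε | ε - δ ∈ B} h1
  refine ⟨j a / j g2, ⟨δ, a, g2, h0, h2, ha, div_mul_cancel₀ _ hne⟩, j b / j g2,
    ⟨δ, b, g2, h0, h2, hb, div_mul_cancel₀ _ hne⟩, ?_⟩
  rw [← add_div, ← map_add, ← h, mul_div_cancel_right₀ _ hne]

theorem E_inter (ha : z ∈ E w j A) (hb : z ∈ E w j B) : z ∈ E w j (A ∩ B) := by
  obtain ⟨z1, h1, z2, h2, rfl⟩ := E_split hj B ha
  have h3 : z2 ∈ E w j B := by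
    simpa using sub_mem hb (E_mono (fun δ h => h.2) h1)
  rw [E_disj hj h2 h3 fun δ h => h.2, add_zero]
  exact h1

theorem E_inv {δ : Λ} (hz : z ∈ E w j {δ}) : z⁻¹ ∈ E w j {-δ} := by
  by_cases h0 : z = 0
  · simp [h0]
  obtain ⟨δ', g1, g2, h0', h2, h1, h⟩ := hz
  have hne : j g2 ≠ 0 := (map_ne_zero_iff _ hj).mpr h0'
  refine ⟨δ + δ', g2, g1, ?_, Pd_mono (fun ε hε => ?_) h1, Pd_mono ?_ h2, ?_⟩
  · rintro rfl
    rw [map_zero] at h
    exact mul_ne_zero h0 hne h
  · simpa [sub_eq_iff_eq_add] using hε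
  · rintro _ rfl; simp
  · rw [← h, inv_mul_cancel_left₀ h0]

theorem E_cancel {δ : Λ} (h0 : z ≠ 0) (hz : z ∈ E w j {δ}) (h : z * z' ∈ E w j A) :
    z' ∈ E w j {ε | δ + ε ∈ A} := by
  have := E_mul (E_inv hj hz) h (C := {ε | δ + ε ∈ A}) (by rintro _ rfl b hb; simpa using hb)
  rwa [inv_mul_cancel_left₀ h0] at this

omit hj in
theorem E_finite (hz : z ∈ E w j A) : ∃ s : Finset Λ, (∀ δ ∈ s, δ ∈ A) ∧ z ∈ E w j s := by
  classical
  obtain ⟨δ, g1, g2, h0, h2, h1, h⟩ := hz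
  refine ⟨g1.support.image fun d => weight w d - δ, ?_, δ, g1, g2, h0, h2, fun d hd => ?_, h⟩
  · intro ε hε
    obtain ⟨d, hd, rfl⟩ := Finset.mem_image.mp hε
    exact h1 d (MvPolynomial.mem_support_iff.mp hd)
  · exact Finset.mem_coe.mpr (Finset.mem_image_of_mem _ (MvPolynomial.mem_support_iff.mpr hd))

theorem E_lift {ι' : Type} {w' : ι' → Λ} {y : ι' → K} (hy : ∀ i, y i ∈ E w j {w' i})
    {g : MvPolynomial ι' k} (hg : aeval y g ∈ E w j A) :
    ∃ g' ∈ Pd k w' A, aeval y g' = aeval y g := by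
  obtain ⟨g1, h1, g2, h2, rfl⟩ := Pd_split A (Pd_univ (w := w') g)
  have a1 := E_aeval hy h1
  have a2 := E_aeval hy h2
  have a3 : aeval y g2 ∈ E w j A := by
    simpa using sub_mem hg (E_mono (fun δ h => h.2) a1)
  exact ⟨g1, Pd_mono (fun δ h => h.2) h1, by
    rw [map_add, E_disj hj a2 a3 fun δ h => h.2, add_zero]⟩

/-- integral elements respect the lower bound of a degree function -/
theorem E_integral (l : Λ →+ ℤ) (hz : z ∈ E w j Set.univ) (f : Polynomial K) (hf : f.Monic)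
    (hc : ∀ i, f.coeff i ∈ E w j {δ | 0 ≤ l δ}) (h0 : f.eval z = 0) : z ∈ E w j {δ | 0 ≤ l δ} := by
  have hpow : ∀ (r : ℤ) (y : K), y ∈ E w j {δ | r ≤ l δ} → ∀ n : ℕ, y ^ n ∈ E w j {δ | n * r ≤ l δ} := by
    intro r y hy n
    induction n with
    | zero => simpa using E_one (w := w) (j := j) (A := {δ | 0 ≤ l δ}) (by simp)
    | succ n ih =>
      rw [pow_succ]
      refine E_mul ih hy fun a ha b hb => ?_
      simp only [Set.mem_ofPred_eq, map_add] at *
      push_cast; linarith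
  have step : ∀ r : ℤ, r < 0 → z ∈ E w j {δ | r ≤ l δ} → z ∈ E w j {δ | r + 1 ≤ l δ} := by
    intro r hr h
    obtain ⟨z1, h1, z0, h2, hz⟩ := E_split hj {δ | r + 1 ≤ l δ} h
    have h1' : z1 ∈ E w j {δ | r + 1 ≤ l δ} := E_mono (fun δ h => h.2) h1
    have h2' : z0 ∈ E w j {δ | r ≤ l δ} := E_mono (fun δ h => h.1) h2
    have a1 : ∀ n : ℕ, z0 ^ n ∈ E w j {δ | l δ = n * r} := by
      intro n
      induction n with
      | zero => simpa using E_one (w := w) (j := j) (A := {δ | l δ = 0}) (by simp)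
      | succ n ih =>
        rw [pow_succ]
        refine E_mul ih h2 fun a ha b hb => ?_
        simp only [Set.mem_ofPred_eq, map_add, Set.mem_sdiff] at *
        push_cast; linarith [hb.1, hb.2]
    have a2 : ∀ n : ℕ, z ^ n - z0 ^ n ∈ E w j {δ | n * r + 1 ≤ l δ} := by
      intro n
      induction n with
      | zero => simp
      | succ n ih =>
        have : z ^ (n + 1) - z0 ^ (n + 1) = (z ^ n - z0 ^ n) * z0 + z ^ n * z1 := by
          rw [pow_succ, pow_succ]; nth_rw 2 [hz]; ring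
        rw [this]
        refine add_mem (E_mul ih h2' fun a ha b hb => ?_)
          (E_mul (hpow r z h n) h1' fun a ha b hb => ?_) <;>
        · simp only [Set.mem_ofPred_eq, map_add] at *
          push_cast; linarith
    have a3 : z ^ f.natDegree ∈ E w j {δ | f.natDegree * r + 1 ≤ l δ} := by
      rw [Polynomial.eval_eq_sum_range, Finset.sum_range_succ, hf.coeff_natDegree, one_mul,
        add_comm, add_eq_zero_iff_eq_neg] at h0
      rw [h0]
      refine neg_mem (Submodule.sum_mem _ fun i hi => E_mul (hc i) (hpow r z h i)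
        fun a ha b hb => ?_)
      simp only [Set.mem_ofPred_eq, map_add, Finset.mem_range] at *
      have : (i : ℤ) + 1 ≤ f.natDegree := by exact_mod_cast hi
      nlinarith
    have a4 : z0 ^ f.natDegree = 0 := by
      refine E_disj hj (a1 _) (by simpa using sub_mem a3 (a2 f.natDegree)) fun δ h h' => ?_
      simp only [Set.mem_ofPred_eq] at *
      linarith
    rw [hz, pow_eq_zero_iff' .. |>.mp a4 |>.1, add_zero]
    exact h1'
  obtain ⟨s, -, hs⟩ := E_finite hz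
  obtain ⟨n, hn⟩ : ∃ n : ℕ, z ∈ E w j {δ | -(n : ℤ) ≤ l δ} := by
    refine ⟨s.sup fun δ => (l δ).natAbs, E_mono (fun δ hδ => ?_) hs⟩
    have := Finset.le_sup (f := fun δ => (l δ).natAbs) (Finset.mem_coe.mp hδ)
    simp only [Set.mem_ofPred_eq] at *
    omega
  induction n with
  | zero => simpa using hn
  | succ n ih =>
    apply ih
    have := step _ (by push_cast; omega) hn
    simpa using this

end E

end Pool.Agent.Lib.MP_010de0_ag
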