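import Pool.Agent.Lib.MP_010de0_ag.Vanish

/-! The graded ring `R0`: finitely generated, normal, of dimension at most 18. -/

set_option autoImplicit false

namespace Pool.Agent.Lib.MP_010de0_ag

open MvPolynomial

variable {p : ℕ} [Fact p.Prime]

def cone : Set Λ := {δ | 0 ≤ δ.2.1 ∧ 0 ≤ δ.2.2.1 ∧ 0 ≤ δ.2.2.2 ∧ δ.2.2.2 ≤ δ.1}

instance : DecidablePred (· ∈ cone) := fun δ => inferInstanceAs
  (Decidable (0 ≤ δ.2.1 ∧ 0 ≤ δ.2.2.1 ∧ 0 ≤ δ.2.2.2 ∧ δ.2.2.2 ≤ δ.1))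

theorem mem_cone {δ : Λ} : δ ∈ cone ↔ 0 ≤ δ.2.1 ∧ 0 ≤ δ.2.2.1 ∧ 0 ≤ δ.2.2.2 ∧ δ.2.2.2 ≤ δ.1 :=
  Iff.rfl

theorem cone_add : ∀ a ∈ cone, ∀ b ∈ cone, a + b ∈ cone := fun a ha b hb => by
  simp only [mem_cone, Prod.fst_add, Prod.snd_add] at *
  omega

/-- the sections with degree in the cone -/
noncomputable def R0 (p : ℕ) [Fact p.Prime] : Subalgebra (ZMod p) (K p) where
  carrier := {f | f ∈ T p ∧ f ∈ EE p cone}
  mul_mem' := fun ha hb => ⟨mul_mem ha.1 hb.1, EE_mul ha.2 hb.2 cone_add⟩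
  add_mem' := fun ha hb => ⟨add_mem ha.1 hb.1, add_mem ha.2 hb.2⟩
  algebraMap_mem' := fun c => ⟨Subalgebra.algebraMap_mem _ c, EE_algebraMap c (by decide)⟩

theorem mem_R0 {f : K p} : f ∈ R0 p ↔ f ∈ T p ∧ f ∈ EE p cone := Iff.rfl

theorem ξ_R0 {i : V} (h : wt i ∈ cone) : ξ p i ∈ R0 p :=
  ⟨ξ_T i, EE_mono (by rintro _ rfl; exact h) (ξ_EE i)⟩

theorem ξξ_R0 {i j : V} (h : wt i + wt j ∈ cone) : ξ p i * ξ p j ∈ R0 p :=
  ⟨mul_mem (ξ_T i) (ξ_T j), EE_mono (by rintro _ rfl; exact h) (EE_mul1 (ξ_EE i) (ξ_EE j))⟩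

theorem pow_mul_ev {t : V} (ht : wt t = (1, 0, 0, 0)) (g : P p) :
    ∃ N : ℕ, ξ p t ^ N * ev p g ∈ R0 p := by
  have h0 : ξ p t ∈ R0 p := ξ_R0 (by rw [ht]; decide)
  induction g using MvPolynomial.induction_on with
  | C c => exact ⟨0, by simp⟩
  | add a b ha hb =>
    obtain ⟨N, h⟩ := ha
    obtain ⟨M, h'⟩ := hb
    refine ⟨N + M, ?_⟩
    convert add_mem (mul_mem (pow_mem h0 M) h) (mul_mem (pow_mem h0 N) h') using 1
    rw [map_add]; ring
  | mul_X a i ha =>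
    obtain ⟨N, h⟩ := ha
    have : ∀ i, (1, 0, 0, 0) + wt i ∈ cone := by decide
    refine ⟨N + 1, ?_⟩
    convert mul_mem h (ξξ_R0 (i := t) (j := i) (by rw [ht]; exact this i)) using 1
    rw [map_mul, ev_X]; ring

instance : IsFractionRing (R0 p) (K p) := by
  refine IsFractionRing.of_field _ _ fun z => ?_
  obtain ⟨a, b, hb, h⟩ := K_frac' z
  obtain ⟨N, ha'⟩ := pow_mul_ev (t := s02) rfl a
  obtain ⟨M, hb'⟩ := pow_mul_ev (t := s02) rfl b
  have h0 : ξ p s02 ∈ R0 p := ξ_R0 (by decide)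
  refine ⟨⟨_, mul_mem (pow_mem h0 M) ha'⟩, ⟨_, mul_mem (pow_mem h0 N) hb'⟩, ?_⟩
  have := ξ_ne (p := p) (.inl 0)
  simp only [Subalgebra.algebraMap_def, Algebra.algebraMap_self, RingHom.id_apply, ← h]
  field_simp

noncomputable def A0 (p : ℕ) [Fact p.Prime] : Subalgebra (ZMod p) (K p) :=
  Algebra.adjoin (ZMod p) ((ξ p '' {i | wt i ∈ cone}) ∪
    ((fun q : V × V => ξ p q.1 * ξ p q.2) '' {q | wt q.1 + wt q.2 ∈ cone}))

theorem A0_le : A0 p ≤ R0 p := by
  refine Algebra.adjoin_le ?_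
  rintro _ (⟨i, hi, rfl⟩ | ⟨q, hq, rfl⟩)
  · exact ξ_R0 hi
  · exact ξξ_R0 hq

theorem ξ_A0 {i : V} (h : wt i ∈ cone) : ξ p i ∈ A0 p :=
  Algebra.subset_adjoin (Or.inl ⟨i, h, rfl⟩)

theorem monomial_A0 (n : ℕ) : ∀ d : V →₀ ℕ, (Finsupp.weight wt d).2.2.2 = n →
    n ≤ (Finsupp.weight wt d).1 → ev p (monomial d 1) ∈ A0 p := by
  induction n with
  | zero =>
    intro d h _
    rw [ev, aeval_monomial, map_one, one_mul]
    refine (A0 p).prod_mem fun i hi => (A0 p).pow_mem (ξ_A0 ?_) _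
    rw [weight_wt] at h
    have h1 : ∀ j, d (yy j) = 0 := fun j =>
      Finset.sum_eq_zero_iff.mp (Nat.cast_injective (R := ℤ) h) j (Finset.mem_univ j)
    have h2 : ∀ i : V, wt i ∈ cone ∨ ∃ j, i = yy j := by decide
    rcases h2 i with h | ⟨j, rfl⟩
    · exact h
    · exact absurd (h1 j) (Finsupp.mem_support_iff.mp hi)
  | succ n ih =>
    intro d h h'
    obtain ⟨i, hi⟩ : ∃ i, d (yy i) ≠ 0 := by
      by_contra! H
      simp [weight_wt, H] at h
      omega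
    obtain ⟨s, hs, hs'⟩ : ∃ s, wt s = (1, 0, 0, 0) ∧ d s ≠ 0 := by
      by_contra! H
      simp [weight_wt, H s00 rfl, H s02 rfl, H s20 rfl, H s22 rfl, H s11 rfl] at h'
      omega
    have hne : yy i ≠ s := by rintro rfl; simp [wt] at hs
    have h1 : (d - Finsupp.single (yy i) 1 : V →₀ ℕ) s ≠ 0 := by simpa [hne] using hs'
    have e1 := Finsupp.weight_sub_single_add (w := wt) hi
    have e2 := Finsupp.weight_sub_single_add (w := wt) h1
    rw [← e2, hs, show wt (yy i) = (0, 0, 0, 1) from rfl] at e1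
    rw [← Finsupp.sub_add_single_one_cancel hi, ← Finsupp.sub_add_single_one_cancel h1,
      monomial_add_single, monomial_add_single, mul_assoc, map_mul]
    rw [← e1] at h h'
    simp only [Prod.fst_add, Prod.snd_add] at h h'
    refine mul_mem (ih _ (by omega) (by omega))
      (Algebra.subset_adjoin (Set.mem_union_right _ ⟨(s, yy i), ?_, by simp [ev_X]⟩))
    simp only [Set.mem_ofPred_eq, hs]
    exact (by decide : ((1, 0, 0, 0) + (0, 0, 0, 1) : Λ) ∈ cone)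

theorem x0_mul_mem {r : K p} (hr : r ∈ R0 p) : ev p (x0 p) * r ∈ A0 p := by
  have h1 : ev p (x0 p) * r ∈ EE p {δ | (1 ≤ δ.2.1 ∧ 1 ≤ δ.2.2.1) ∧ δ.2.2.2 ≤ δ.1} :=
    EE_mul (ev_EE x0_Pd) hr.2 (by
      rintro _ rfl b hb
      simp [mem_cone] at hb ⊢
      omega)
  obtain ⟨g, hg⟩ := struct (mul_mem (ev_T _) hr.1) (EE_mono (fun δ h => Or.inl h.1) h1)
  rw [hg] at h1 ⊢
  obtain ⟨g', h2, h3⟩ := ev_lift h1
  rw [← h3]
  refine Pd_ind (P := fun g => ev p g ∈ A0 p) h2 (by simp)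
    (fun a b ha hb => by rw [map_add]; exact add_mem ha hb) fun d c hd => ?_
  have := monomial_A0 (p := p) (∑ i, d (yy i)) d (by rw [weight_wt]) (by
    have := hd.2
    rw [weight_wt] at this ⊢
    exact this)
  rw [← mul_one c, ← smul_eq_mul, ← smul_monomial, map_smul]
  exact Subalgebra.smul_mem _ this c

instance : Algebra.FiniteType (ZMod p) (R0 p) := by
  have h1 : Algebra.FiniteType (ZMod p) (A0 p) :=
    (Subalgebra.fg_iff_finiteType _).mp (Subalgebra.fg_def.mpr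
      ⟨_, ((Set.toFinite _).image _).union ((Set.toFinite _).image _), rfl⟩)
  have h2 : IsNoetherianRing (A0 p) := Algebra.FiniteType.isNoetherianRing (ZMod p) _
  let : Algebra (A0 p) (R0 p) := (Subalgebra.inclusion A0_le).toRingHom.toAlgebra
  have : IsScalarTower (ZMod p) (A0 p) (R0 p) := IsScalarTower.of_algebraMap_eq fun _ => rfl
  let f : R0 p →ₗ[A0 p] A0 p :=
    { toFun := fun r => ⟨_, x0_mul_mem r.2⟩
      map_add' := fun a b => Subtype.ext (mul_add _ _ _)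
      map_smul' := fun a b => Subtype.ext (mul_left_comm _ _ _) }
  have h3 : Module.Finite (A0 p) (R0 p) := Module.Finite.of_injective f fun a b h =>
    Subtype.ext (mul_left_cancel₀ ev_x0_ne (congrArg Subtype.val h))
  exact h1.trans inferInstance

instance : IsNoetherianRing (R0 p) := Algebra.FiniteType.isNoetherianRing (ZMod p) _

theorem L_int (σ : K p →+* K p) (h : ∀ s : R0 p, σ s ∈ Loc (x0 p)) {z : K p}
    (hz : IsIntegral (R0 p) z) : σ z ∈ Loc (x0 p) := by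
  let x : P' p := X (.inl 4) * X (.inl 6)
  have hx : ev p (x0 p) = ι p x := by simp [ev_x0, x, ξ_some]
  have hx0 : Submonoid.powers x ≤ nonZeroDivisors (P' p) :=
    powers_le_nonZeroDivisors_of_noZeroDivisors (mul_ne_zero (X_ne_zero _) (X_ne_zero _))
  let L := Localization.subalgebra.ofField (K p) _ hx0
  have h1 : ∀ s : R0 p, σ s ∈ L := fun s => by
    obtain ⟨N, r, H⟩ := mem_L.mp (h s)
    refine ⟨r, x ^ N, ⟨N, rfl⟩, ?_⟩
    rw [← ι_apply, ← ι_apply, ← H, map_pow, ← hx]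
    field_simp [ev_x0_ne]
  have h2 : IsIntegral L (σ z) := hz.map_of_comp_eq
    ((σ.comp (R0 p).val.toRingHom).codRestrict L h1) σ (by ext; rfl)
  obtain ⟨⟨_, n, rfl⟩, hm⟩ := h2.exists_multiple_integral_of_isLocalization (Submonoid.powers x) _
  obtain ⟨y, hy⟩ := IsIntegrallyClosed.isIntegral_iff.mp hm
  refine mem_L.mpr ⟨n, y, ?_⟩
  rw [ι_apply, hy, hx, Submonoid.smul_def, Algebra.smul_def, map_pow, ι_apply]

instance : IsIntegrallyClosed (R0 p) := by
  refine (isIntegrallyClosed_iff (K p)).mpr fun {z} hz => ?_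
  have h1 : z ∈ T p := ⟨L_int (RingHom.id _) (fun s => s.2.1.1) hz, by
    have := ρ_L0 (L_int (ρ p).toRingHom (fun s => ρ_L1 s.2.1.2) hz)
    rwa [show (ρ p).toRingHom z = ρ p z from rfl, ρ_ρ] at this⟩
  obtain ⟨f, hf, hf0⟩ := hz
  have key : ∀ l : Λ →+ ℤ, (∀ δ ∈ cone, 0 ≤ l δ) → z ∈ EE p {δ | 0 ≤ l δ} := fun l hl =>
    EE_integral l (EE_mono (fun _ _ => trivial) (L_pos h1.1)) (f.map (algebraMap _ _)) (hf.map _)
      (fun i => by rw [Polynomial.coeff_map]; exact EE_mono hl (f.coeff i).2.2)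
      (by rw [Polynomial.eval_map, hf0])
  have a1 := key (AddMonoidHom.mk' (fun δ => δ.2.1) fun _ _ => rfl) fun δ h => h.1
  have a2 := key (AddMonoidHom.mk' (fun δ => δ.2.2.1) fun _ _ => rfl) fun δ h => h.2.1
  have a3 := key (AddMonoidHom.mk' (fun δ => δ.1 - δ.2.2.2) fun _ _ => by simp; ring)
    fun δ h => sub_nonneg.mpr h.2.2.2
  exact ⟨⟨z, h1, EE_mono (fun δ h => ⟨h.1.1.1, h.1.1.2, h.2.2, sub_nonneg.mp h.1.2⟩)
    (EE_inter (EE_inter (EE_inter a1 a2) a3) (L_pos h1.1))⟩, rfl⟩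

/-- the homogeneous maximal ideal -/
def mm (p : ℕ) [Fact p.Prime] : Ideal (R0 p) where
  carrier := {r | r.1 ∈ EE p (cone \ {0})}
  add_mem' := fun ha hb => (EE p _).add_mem ha hb
  zero_mem' := zero_mem (EE p _)
  smul_mem' := fun c x hx => EE_mul c.2.2 hx fun a ha b hb => ⟨cone_add a ha b hb.1, fun h => hb.2 (by
    have := hb.1
    simp only [mem_cone, Set.mem_singleton_iff, Prod.ext_iff, Prod.fst_add, Prod.snd_add,
      Prod.fst_zero, Prod.snd_zero] at *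
    omega)⟩

theorem mem_mm {r : R0 p} : r ∈ mm p ↔ r.1 ∈ EE p (cone \ {0}) := Iff.rfl

theorem R0_decomp (r : R0 p) : ∃ c : ZMod p, r - algebraMap _ _ c ∈ mm p := by
  obtain ⟨f1, f2, h1, h2, h3, h4, e⟩ := T_split {0} r.2.1 r.2.2
  obtain ⟨g, rfl⟩ := struct h1 (EE_mono (fun δ h => Or.inr (by rw [h.2]; rfl)) h2)
  obtain ⟨g', h5, h6⟩ := ev_lift h2
  refine ⟨coeff 0 g', ?_⟩
  have h7 : g' = C (coeff 0 g') := by
    ext d
    rw [coeff_C]
    split_ifs with h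
    · rw [← h]
    · by_contra H
      have h8 := (h5 d H).2
      rw [weight_wt] at h8
      simp only [Set.mem_singleton_iff, Prod.ext_iff, Prod.fst_zero, Prod.snd_zero,
        Nat.cast_eq_zero, Finset.sum_eq_zero_iff] at h8
      refine h (Finsupp.ext ?_)
      apply V_cases <;> simp only [Finsupp.coe_zero, Pi.zero_apply]
      any_goals omega
      exact fun i => (h8.2.2.2 i (Finset.mem_univ i)).symm
  rw [mem_mm, Subalgebra.coe_sub, e, ← h6, h7]
  simpa using h4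

theorem one_not_mem_mm : (1 : R0 p) ∉ mm p := fun h =>
  one_ne_zero (EE_disj h (EE_one (A := {0}) rfl) fun δ h => h.2)

instance : (mm p).IsMaximal := by
  refine Ideal.isMaximal_iff.mpr ⟨one_not_mem_mm, fun J r hJ hr hrJ => ?_⟩
  obtain ⟨c, hc⟩ := R0_decomp r
  have h0 : c ≠ 0 := by rintro rfl; simp [hr] at hc
  have := J.mul_mem_left (algebraMap _ _ c⁻¹) (sub_mem hrJ (hJ hc))
  rwa [sub_sub_cancel, ← map_mul, inv_mul_cancel₀ h0, map_one] at this

theorem dim_R0 : ringKrullDim (R0 p) ≤ 18 := by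
  obtain ⟨s, g, hg, hg'⟩ := exists_integral_inj_algHom_of_fg (ZMod p) (R0 p)
  have h1 : ringKrullDim (R0 p) ≤ ringKrullDim (MvPolynomial (Fin s) (ZMod p)) := by
    let := g.toRingHom.toAlgebra
    refine Order.krullDim_le_of_strictMono (PrimeSpectrum.comap g.toRingHom) fun I J h => ?_
    obtain ⟨h1, x, h2, h3⟩ := SetLike.lt_iff_le_and_exists.mp (show I.asIdeal < J.asIdeal from h)
    exact Ideal.comap_lt_comap_of_integral_mem_sdiff h1 ⟨h2, h3⟩ (hg' x)
  have h2 : AlgebraicIndependent (ZMod p) fun i : Fin s => ((g (X i) : R0 p) : K p) := by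
    have : (aeval fun i : Fin s => ((g (X i) : R0 p) : K p)) = (R0 p).val.comp g := by
      ext i; simp
    rw [algebraicIndependent_iff_injective_aeval, this]
    exact Subtype.val_injective.comp hg
  have h3 := h2.cardinalMk_le_trdeg
  rw [trdeg_K, Cardinal.mk_fin] at h3
  have h4 : s ≤ 18 := by exact_mod_cast h3
  rw [MvPolynomial.ringKrullDim_of_isNoetherianRing, ringKrullDim_eq_zero_of_field, zero_add,
    Nat.card_fin] at h1
  exact h1.trans (by exact_mod_cast h4)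

end Pool.Agent.Lib.MP_010de0_ag
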