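import Pool.Agent.Lib.MP_010de0_ag.Root

/-! Counting generators after localising at a rational point. -/

set_option autoImplicit false

namespace Pool.Agent.Lib.MP_010de0_ag

theorem spanFinrank_loc {k A R M M' G : Type} [Field k] [CommRing A] [Algebra k A] [CommRing R]
    [Algebra A R] (m : Ideal A) [m.IsPrime] [IsLocalization.AtPrime R m] [AddCommGroup M]
    [Module A M] [AddCommGroup M'] [Module A M'] [Module R M'] [IsScalarTower A R M']
    (f : M →ₗ[A] M') [IsLocalizedModule m.primeCompl f] [Fintype G] [DecidableEq G]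
    (ε : A →+* k) (hε : ∀ c, ε (algebraMap k A c) = c) (hm : ∀ a, a ∈ m ↔ ε a = 0)
    (φ : G → M) (hφ : Submodule.span A (Set.range φ) = ⊤) (l : G → M →+ k)
    (hl : ∀ u a x, l u (a • x) = ε a * l u x) (hl' : ∀ u u', l u (φ u') = if u = u' then 1 else 0) :
    (⊤ : Submodule R M').spanFinrank = Fintype.card G := by
  have h1 := span_eq_top_of_isLocalizedModule R m.primeCompl f hφ
  have hfin : (f '' Set.range φ).Finite := (Set.finite_range φ).image f
  have : Module.Finite R M' := ⟨Submodule.fg_def.mpr ⟨_, hfin, h1⟩⟩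
  refine le_antisymm ?_ ?_
  · rw [← h1, ← Set.range_comp]
    refine (Submodule.spanFinrank_span_le_ncard_of_finite (Set.finite_range _)).trans ?_
    rw [← Set.image_univ, ← Nat.card_eq_fintype_card, ← Set.ncard_univ]
    exact Set.ncard_image_le
  let : Module A (G → k) := Module.compHom _ ε
  have hs : ∀ (a : A) (y : G → k), a • y = ε a • y := fun _ _ => rfl
  let g : M →ₗ[A] (G → k) :=
    { toFun := fun x u => l u x
      map_add' := fun x y => by ext u; simp
      map_smul' := fun a x => by ext u; simp [hs, hl] }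
  let L := IsLocalizedModule.lift m.primeCompl f g fun t => by
    have ht : ε t ≠ 0 := fun h => t.2 ((hm _).mpr h)
    refine (Module.End.isUnit_iff _).mpr ⟨fun x y h => smul_right_injective _ ht h, fun y => ?_⟩
    exact ⟨(ε t)⁻¹ • y, smul_inv_smul₀ ht y⟩
  have hL : ∀ x, L (f x) = g x := IsLocalizedModule.lift_apply _ _ _ _
  refine card_le_spanFinrank ((algebraMap A R).comp (algebraMap k A)) L.toAddMonoidHom.ker
    (fun c x hx => ?_) (fun r => ?_) (fun u => f (φ u)) fun a ha u => ?_
  · have : L x = 0 := hx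
    change L _ = 0
    rw [RingHom.comp_apply, algebraMap_smul, map_smul, this, smul_zero]
  · obtain ⟨⟨a, t⟩, h⟩ := IsLocalization.surj m.primeCompl r
    have ht : ε t ≠ 0 := fun h => t.2 ((hm _).mpr h)
    refine ⟨ε a / ε t, fun x => smul_right_injective _ ht ?_⟩
    change (t : A) • L _ = ε t • 0
    rw [← map_smul, ← algebraMap_smul R, ← mul_smul, mul_sub, mul_comm, h, RingHom.comp_apply,
      ← map_mul, ← map_sub, algebraMap_smul, map_smul, hs, map_sub, map_mul, hε,
      mul_div_cancel₀ _ ht, sub_self, zero_smul, smul_zero]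
  · have h2 : L _ = 0 := ha
    have h3 := congrFun h2 u
    simp only [map_sum, RingHom.comp_apply, algebraMap_smul, map_smul, hL, hs, hε] at h3
    simpa [g, hl'] using h3

/-- the ring viewed as a module over itself through an iterated Frobenius -/
def Fr (A : Type) (_p _e : ℕ) : Type := A

variable {A : Type} [CommRing A] {p e : ℕ}

instance : AddCommGroup (Fr A p e) := inferInstanceAs (AddCommGroup A)

instance [ExpChar A p] : Module A (Fr A p e) := Module.compHom A (iterateFrobenius A p e)

/-- the identity map -/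
def toFr (p e : ℕ) : A ≃+ Fr A p e := AddEquiv.refl A

theorem smul_toFr [ExpChar A p] (a x : A) : a • toFr p e x = toFr p e (a ^ p ^ e * x) := rfl

theorem exists_j (R : Type) [CommRing R] [IsDomain R] [Fact p.Prime] [CharP A p] [CharP R p]
    [Algebra A R] (m : Ideal A) [m.IsPrime] [IsLocalization.AtPrime R m] :
    ∃ j : Fr A p e →ₗ[A] rootAlg R (p ^ e), IsLocalizedModule m.primeCompl j := by
  obtain ⟨F, hF⟩ := exists_root R p e
  obtain ⟨n, hn⟩ : ∃ n, p ^ e = n + 1 :=
    Nat.exists_eq_succ_of_ne_zero (pow_pos (Fact.out : p.Prime).pos e).ne'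
  have hs : ∀ (a : A) (z : rootAlg R (p ^ e)), F (a • z) = algebraMap A R a ^ p ^ e * F z :=
    fun a z => by rw [← algebraMap_smul R, Algebra.smul_def, map_mul, hF]
  let j : Fr A p e →ₗ[A] rootAlg R (p ^ e) :=
    { toFun := fun x => F.symm (algebraMap A R ((toFr p e).symm x))
      map_add' := fun x y => by simp
      map_smul' := fun a x => F.injective (by
        obtain ⟨x, rfl⟩ := (toFr p e).surjective x
        simp [hs, smul_toFr]) }
  have hj : ∀ x, F (j (toFr p e x)) = algebraMap A R x := fun x => by simp [j]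
  refine ⟨j, ?_⟩
  refine ⟨fun t => ?_, fun z => ?_, fun {x y} h => ?_⟩
  · have := (IsLocalization.map_units R t).map (algebraMap R (Module.End R (rootAlg R (p ^ e))))
    rw [Module.End.isUnit_iff] at this ⊢
    convert this using 1
    ext z; simp
  · obtain ⟨⟨a, t⟩, h⟩ := IsLocalization.surj m.primeCompl (F z)
    refine ⟨(toFr p e (t ^ n * a), t), F.injective ?_⟩
    dsimp only at h ⊢
    rw [Submonoid.smul_def, hs, hj, map_mul, ← h, map_pow]
    simp only [hn]; ring
  · obtain ⟨x, rfl⟩ := (toFr p e).surjective x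
    obtain ⟨y, rfl⟩ := (toFr p e).surjective y
    have h1 := congrArg F h
    rw [hj, hj] at h1
    obtain ⟨t, ht⟩ := (IsLocalization.eq_iff_exists m.primeCompl R).mp h1
    refine ⟨t, ?_⟩
    simp only [Submonoid.smul_def, smul_toFr, hn, pow_succ, mul_assoc, ht]

theorem mu_loc {k R G : Type} [Field k] [Algebra k A] [CommRing R] [IsDomain R] [Fact p.Prime]
    [CharP A p] [CharP R p] [Algebra A R] (m : Ideal A) [m.IsPrime] [IsLocalization.AtPrime R m]
    [IsNoetherianRing A] [Module.Finite A (Fr A p e)] [Fintype G] [DecidableEq G]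
    (ε : A →+* k) (hε : ∀ c, ε (algebraMap k A c) = c) (hm : ∀ a, a ∈ m ↔ ε a = 0)
    (φ : G → Fr A p e →ₗ[A] A) (hφ : Submodule.span A (Set.range φ) = ⊤)
    (l : G → (Fr A p e →ₗ[A] A) →+ k) (hl : ∀ u a x, l u (a • x) = ε a * l u x)
    (hl' : ∀ u u', l u (φ u') = if u = u' then 1 else 0) : mu R (p ^ e) = Fintype.card G := by
  obtain ⟨j, hj⟩ := exists_j (p := p) (e := e) R m
  have := Module.finitePresentation_of_finite A (Fr A p e)
  exact spanFinrank_loc m (IsLocalizedModule.mapExtendScalars m.primeCompl j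
    (Algebra.linearMap A R) R) ε hε hm φ hφ l hl hl'

end Pool.Agent.Lib.MP_010de0_ag
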