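import Pool.Agent.Lib.MP_010de0_ag.TComb
import Pool.Agent.Lib.MP_010de0_ag.TLoc

/-! Cartier maps of a normal affine semigroup ring. -/

set_option autoImplicit false
set_option linter.unusedSectionVars false

namespace Pool.Agent.Lib.MP_010de0_ag

open AddMonoidAlgebra

variable {k τ ι : Type} [Field k] [Fintype τ] {v : ι → τ → ℤ} {p e : ℕ}

/-- the semigroup ring -/
abbrev SR (k : Type) [Field k] (v : ι → τ → ℤ) : Type := AddMonoidAlgebra k (coneS v)

instance [CharP k p] : CharP (SR k v) p :=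
  charP_of_injective_algebraMap (algebraMap k (SR k v)).injective p

/-- the embedding in the Laurent ring -/
noncomputable def emb (k : Type) [Field k] (v : ι → τ → ℤ) :
    SR k v →ₐ[k] AddMonoidAlgebra k (τ → ℤ) := mapDomainAlgHom k k (coneS v).subtype

theorem emb_single (g : coneS v) (b : k) : emb k v (single g b) = single g.1 b := by simp [emb]

theorem emb_inj : Function.Injective (emb k v) := mapDomain_injective Subtype.val_injective

instance : IsDomain (SR k v) := emb_inj.isDomain (emb k v).toRingHom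

/-- coefficients at arbitrary lattice points -/
noncomputable def co (w : τ → ℤ) : SR k v →+ k :=
  AddMonoidHom.mk' (fun x => (emb k v x).coeff w) fun x y => by simp

theorem co_single [DecidableEq τ] (g : coneS v) (b : k) (w : τ → ℤ) :
    co w (single g b) = if g.1 = w then b else 0 := by
  simp [co, emb_single, Finsupp.single_apply]

theorem co_single_mul (g : coneS v) (b : k) (x : SR k v) (w : τ → ℤ) :
    co (g.1 + w) (single g b * x) = b * co w x := by simp [co, emb_single]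

theorem co_ext {x y : SR k v} (h : ∀ w, co w x = co w y) : x = y :=
  emb_inj (coeff_injective (Finsupp.ext h))

theorem co_mem {x : SR k v} {w : τ → ℤ} (h : co w x ≠ 0) : w ∈ coneS v := by
  classical
  by_contra hw
  refine h ?_
  clear h
  induction x using AddMonoidAlgebra.induction_linear with
  | zero => simp
  | add x y hx hy => simp [hx, hy]
  | single g b => rw [co_single, if_neg]; rintro rfl; exact hw g.2

theorem co_fin (x : SR k v) : {w | co w x ≠ 0}.Finite := (emb k v x).coeff.hasFiniteSupport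

open Classical in
/-- the monomial with exponent `z / q`, or zero -/
noncomputable def dv (k : Type) [Field k] (v : ι → τ → ℤ) (q : ℕ) (z : τ → ℤ) : SR k v :=
  if h : ∃ w : coneS v, z = q • w.1 then single h.choose 1 else 0

theorem dv_smul {q : ℕ} (hq : 0 < q) (w : coneS v) : dv k v q (q • w.1) = single w 1 := by
  have h : ∃ w' : coneS v, q • w.1 = q • w'.1 := ⟨w, rfl⟩
  rw [dv, dif_pos h, ← Subtype.ext (nsmul_right_injective hq.ne' h.choose_spec)]

theorem dv_add {q : ℕ} (hq : 0 < q) (g : coneS v) {z : τ → ℤ}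
    (hz : ∀ w, z = q • w → w ∈ coneS v) : dv k v q (q • g.1 + z) = single g 1 * dv k v q z := by
  by_cases h : ∃ w : coneS v, z = q • w.1
  · obtain ⟨w, rfl⟩ := h
    rw [← smul_add, ← AddSubmonoid.coe_add, dv_smul hq, dv_smul hq, single_mul_single, one_mul]
  · rw [dv, dv, dif_neg h, dif_neg, mul_zero]
    rintro ⟨w, hw⟩
    have : z = q • (w.1 - g.1) := by rw [smul_sub, ← hw]; simp
    exact h ⟨⟨_, hz _ this⟩, this⟩

theorem co_dv [DecidableEq τ] {q : ℕ} (hq : 0 < q) {z : τ → ℤ}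
    (hz : ∀ w, z = q • w → w ∈ coneS v) (w : τ → ℤ) :
    co w (dv k v q z) = if z = q • w then 1 else 0 := by
  by_cases h : ∃ w : coneS v, z = q • w.1
  · obtain ⟨w', rfl⟩ := h
    rw [dv_smul hq, co_single]
    simp only [(nsmul_right_injective hq.ne').eq_iff]
  · rw [dv, dif_neg h, map_zero, if_neg fun h' => h ⟨⟨w, hz w h'⟩, h'⟩]

theorem pl_div {q : ℕ} (hq : 0 < q) {u : τ → ℤ} (hu : u ∈ pl v (Set.Ioi (-1)) q) (s : coneS v)
    (w : τ → ℤ) (h : s.1 + u = q • w) : w ∈ coneS v := fun i => by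
  have h1 := (mem_pl_Ioi hq).mp hu i
  have h2 := congrArg (· ⬝ᵥ v i) h
  simp only [add_dotProduct, smul_dotProduct] at h2
  rw [nsmul_eq_mul] at h2
  have h3 := s.2 i
  by_contra h4
  have : (q : ℤ) * (w ⬝ᵥ v i) ≤ q * (-1) := mul_le_mul_of_nonneg_left (by omega) (by positivity)
  omega

variable [Fact p.Prime] [CharP k p] [PerfectField k]

theorem qpos : 0 < p ^ e := pow_pos (Fact.out : p.Prime).pos e

/-- the monomial Cartier map with shift `u` -/
noncomputable def cart (k : Type) [Field k] [CharP k p] [PerfectField k]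
    (u : pl v (Set.Ioi (-1)) (p ^ e)) : Fr (SR k v) p e →ₗ[SR k v] SR k v where
  toFun x := liftNC ((algebraMap k (SR k v)).comp
    (iterateFrobeniusEquiv k p e).symm.toRingHom).toAddMonoidHom
    (fun s => dv k v (p ^ e) (s.toAdd.1 + u.1)) ((toFr p e).symm x)
  map_add' x y := by simp
  map_smul' r x := by
    obtain ⟨x, rfl⟩ := (toFr p e).surjective x
    simp only [smul_toFr, AddEquiv.symm_apply_apply, RingHom.id_apply, smul_eq_mul]
    induction r using AddMonoidAlgebra.induction_linear with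
    | zero => rw [zero_pow qpos.ne', zero_mul, map_zero, zero_mul]
    | add a b ha hb => rw [add_pow_char_pow, add_mul, map_add, ha, hb, add_mul]
    | single g b =>
      induction x using AddMonoidAlgebra.induction_linear with
      | zero => simp
      | add x y hx hy => rw [mul_add, map_add, hx, hy, map_add, mul_add]
      | single s c =>
        have h1 : (iterateFrobeniusEquiv k p e).symm (b ^ p ^ e) = b :=
          (iterateFrobeniusEquiv k p e).symm_apply_apply b
        simp only [single_pow, single_mul_single, liftNC_single, toAdd_ofAdd,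
          AddSubmonoid.coe_add, add_assoc, AddSubmonoidClass.coe_nsmul]
        rw [dv_add qpos g (pl_div qpos u.2 s)]
        simp [h1, ← mul_assoc, single_mul_single]

/-- a monomial in the Frobenius twist -/
noncomputable def mon (k : Type) [Field k] (p e : ℕ) (s : coneS v) : Fr (SR k v) p e :=
  toFr p e (single s 1)

theorem cart_mon (u : pl v (Set.Ioi (-1)) (p ^ e)) (s : coneS v) :
    cart k u (mon k p e s) = dv k v (p ^ e) (s.1 + u.1) := by
  simp [cart, mon, ← one_def]

theorem smul_mon (g s : coneS v) (b : k) :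
    (single g b : SR k v) • mon k p e s = toFr p e (single (p ^ e • g + s) (b ^ p ^ e)) := by
  simp [mon, smul_toFr, single_pow, single_mul_single]

variable [Fintype ι]

theorem span_mon (hp : ∀ g : τ → ℤ, (∀ i, g ⬝ᵥ v i = 0) → g = 0) :
    Submodule.span (SR k v) (mon k p e '' {s : coneS v | s.1 ∈ lat v (Set.Ici 0) (p ^ e)}) = ⊤ := by
  refine eq_top_iff.mpr fun x _ => ?_
  obtain ⟨x, rfl⟩ := (toFr p e).surjective x
  induction x using AddMonoidAlgebra.induction_linear with
  | zero => simp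
  | add x y hx hy => rw [map_add]; exact add_mem (hx trivial) (hy trivial)
  | single s c =>
    obtain ⟨u, h1, g, h2, h3⟩ := gen_lat hp (Q := Set.Ici 0)
      (fun t ht => le_trans (by norm_num) ht) (qpos (p := p) (e := e)) ((mem_pl_Ici qpos).mpr s.2)
    obtain ⟨b, rfl⟩ := (iterateFrobeniusEquiv k p e).surjective c
    let u' : coneS v := ⟨u, (mem_pl_Ici qpos).mp ((mem_lat qpos).mp h1).1⟩
    have : s = p ^ e • (⟨g, h2⟩ : coneS v) + u' := Subtype.ext (h3.trans (add_comm _ _))
    rw [this, iterateFrobeniusEquiv_def, ← smul_mon]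
    exact Submodule.smul_mem _ _ (Submodule.subset_span ⟨u', h1, rfl⟩)

theorem fin_mon : {s : coneS v | s.1 ∈ lat v (Set.Ici 0) (p ^ e)}.Finite :=
  (finite_lat (fun t ht => le_trans (by norm_num) ht) (fun _ ht => ht) qpos).preimage
    Subtype.val_injective.injOn

theorem finite_Fr (hp : ∀ g : τ → ℤ, (∀ i, g ⬝ᵥ v i = 0) → g = 0) :
    Module.Finite (SR k v) (Fr (SR k v) p e) :=
  ⟨Submodule.fg_def.mpr ⟨_, fin_mon.image _, span_mon hp⟩⟩

theorem co_shift (h : Facets v) (φ : Fr (SR k v) p e →ₗ[SR k v] SR k v) {s s' : coneS v}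
    {u w w' : τ → ℤ} (h1 : s.1 + u = p ^ e • w) (h2 : s'.1 + u = p ^ e • w') :
    co w (φ (mon k p e s)) = co w' (φ (mon k p e s')) := by
  have key : ∀ (s g : coneS v) (w : τ → ℤ),
      co (g.1 + w) (φ (mon k p e (p ^ e • g + s))) = co w (φ (mon k p e s)) := fun s g w => by
    have := smul_mon (p := p) (e := e) g s (1 : k)
    rw [one_pow] at this
    rw [mon, ← this, map_smul, smul_eq_mul, co_single_mul, one_mul]
  obtain ⟨g, h3, h4⟩ := h.full (w' - w)
  rw [← key s ⟨_, h4⟩, ← key s' ⟨g, h3⟩]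
  have h5 : p ^ e • (⟨_, h4⟩ : coneS v) + s = p ^ e • ⟨g, h3⟩ + s' := by
    refine Subtype.ext ?_
    simp only [AddSubmonoid.coe_add, AddSubmonoidClass.coe_nsmul, smul_add, smul_sub, ← h1, ← h2]
    abel
  rw [h5]
  congr 2
  simp only; abel

theorem co_pl (h : Facets v) (φ : Fr (SR k v) p e →ₗ[SR k v] SR k v) {s : coneS v}
    {u w : τ → ℤ} (h1 : s.1 + u = p ^ e • w) (h2 : co w (φ (mon k p e s)) ≠ 0) :
    u ∈ pl v (Set.Ioi (-1)) (p ^ e) := by
  refine (mem_pl_Ioi qpos).mpr fun i => ?_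
  obtain ⟨s', h3, w', h4, h5⟩ := h.small (qpos (p := p) (e := e)) u i
  rw [co_shift h φ (s' := ⟨s', h3⟩) h1 h4] at h2
  have h6 := mul_nonneg (Int.natCast_nonneg (p ^ e)) (co_mem h2 i)
  have h7 := congrArg (· ⬝ᵥ v i) h4
  simp only [add_dotProduct, smul_dotProduct] at h7
  rw [nsmul_eq_mul] at h7
  omega

theorem Facets.rep (h : Facets v) (q : ℕ) (hq : 0 < q) (u : τ → ℤ) :
    ∃ x : coneS v × (τ → ℤ), x.1.1 + u = q • x.2 := by
  obtain ⟨g, h1, h2⟩ := h.full (-u)
  obtain ⟨n, rfl⟩ := Nat.exists_eq_succ_of_ne_zero hq.ne'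
  exact ⟨(⟨_, h2⟩ + n • ⟨g, h1⟩, g), by
    simp only [AddSubmonoid.coe_add, AddSubmonoidClass.coe_nsmul, succ_nsmul]; abel⟩

/-- the coefficient of a Cartier map at the shift `u` -/
noncomputable def cf (h : Facets v) (u : τ → ℤ) : (Fr (SR k v) p e →ₗ[SR k v] SR k v) →+ k :=
  AddMonoidHom.mk' (fun φ => co (h.rep _ (qpos (p := p) (e := e)) u).choose.2
    (φ (mon k p e (h.rep _ (qpos (p := p) (e := e)) u).choose.1))) fun x y => by simp

theorem cf_eq (h : Facets v) (φ : Fr (SR k v) p e →ₗ[SR k v] SR k v) {s : coneS v}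
    {u w : τ → ℤ} (h1 : s.1 + u = p ^ e • w) : cf h u φ = co w (φ (mon k p e s)) :=
  co_shift h φ (h.rep _ qpos u).choose_spec h1

theorem cf_cart [DecidableEq τ] (h : Facets v) (u : τ → ℤ) (u' : pl v (Set.Ioi (-1)) (p ^ e)) :
    cf h u (cart k u') = if u = u'.1 then 1 else 0 := by
  obtain ⟨⟨s, w⟩, h1⟩ := h.rep _ (qpos (p := p) (e := e)) u
  rw [cf_eq h _ h1, cart_mon, co_dv qpos (pl_div qpos u'.2 s), ← h1]
  simp [eq_comm]

theorem cf_smul (h : Facets v) (u : τ → ℤ) (g : coneS v) (b : k)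
    (φ : Fr (SR k v) p e →ₗ[SR k v] SR k v) :
    cf h u ((single g b : SR k v) • φ) = b * cf h (u - p ^ e • g.1) φ := by
  obtain ⟨⟨s, w⟩, h1⟩ := h.rep _ (qpos (p := p) (e := e)) (u - p ^ e • g.1)
  rw [cf_eq h _ h1, cf_eq h _ (s := s) (w := g.1 + w) (by rw [smul_add, ← h1]; abel),
    LinearMap.smul_apply, smul_eq_mul, co_single_mul]

theorem cf_ext (h : Facets v) (hp : ∀ g : τ → ℤ, (∀ i, g ⬝ᵥ v i = 0) → g = 0)
    {φ ψ : Fr (SR k v) p e →ₗ[SR k v] SR k v} (h1 : ∀ u, cf h u φ = cf h u ψ) : φ = ψ := by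
  refine LinearMap.ext_on (span_mon hp) ?_
  rintro _ ⟨s, -, rfl⟩
  refine co_ext fun w => ?_
  rw [← cf_eq h φ (u := p ^ e • w - s.1) (by abel), ← cf_eq h ψ (u := p ^ e • w - s.1) (by abel), h1]

theorem cf_fin (h : Facets v) (hp : ∀ g : τ → ℤ, (∀ i, g ⬝ᵥ v i = 0) → g = 0)
    (φ : Fr (SR k v) p e →ₗ[SR k v] SR k v) : {u | cf h u φ ≠ 0}.Finite := by
  refine ((fin_mon (v := v) (p := p) (e := e)).biUnion fun s _ =>
    (co_fin (φ (mon k p e s))).image fun w => p ^ e • w - s.1).subset fun u hu => ?_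
  obtain ⟨⟨s, w⟩, h0⟩ := h.rep _ (qpos (p := p) (e := e)) u
  obtain ⟨u0, h1, g, h2, h3⟩ := gen_lat hp (Q := Set.Ici 0)
    (fun t ht => le_trans (by norm_num) ht) (qpos (p := p) (e := e)) ((mem_pl_Ici qpos).mpr s.2)
  let s' : coneS v := ⟨u0, (mem_pl_Ici qpos).mp ((mem_lat qpos).mp h1).1⟩
  have h4 : s'.1 + u = p ^ e • (w - g) := by rw [smul_sub, ← h0, h3]; simp only [s']; abel
  exact Set.mem_biUnion (x := s') h1 ⟨w - g, fun h5 => hu ((cf_eq h φ h4).trans h5),
    sub_eq_of_eq_add' h4.symm⟩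

theorem span_cart (h : Facets v) (hp : ∀ g : τ → ℤ, (∀ i, g ⬝ᵥ v i = 0) → g = 0) :
    Submodule.span (SR k v) (Set.range fun u : lat v (Set.Ioi (-1)) (p ^ e) =>
      cart k ⟨u.1, ((mem_lat qpos).mp u.2).1⟩) = ⊤ := by
  classical
  refine eq_top_iff.mpr fun φ _ => ?_
  have h1 : ∀ u : (cf_fin h hp φ).toFinset, u.1 ∈ pl v (Set.Ioi (-1)) (p ^ e) := fun u =>
    co_pl h φ (h.rep _ qpos u.1).choose_spec ((cf_fin h hp φ).mem_toFinset.mp u.2)
  have h2 : φ = ∑ u : (cf_fin h hp φ).toFinset,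
      (single 0 (cf h u.1 φ) : SR k v) • cart k ⟨u.1, h1 u⟩ := cf_ext h hp fun u => by
    simp only [map_sum, cf_smul, cf_cart, ZeroMemClass.coe_zero, smul_zero, sub_zero]
    rw [Finset.sum_coe_sort _ fun u' => cf h u' φ * if u = u' then 1 else 0]
    simp only [mul_ite, mul_one, mul_zero, Finset.sum_ite_eq, Set.Finite.mem_toFinset,
      Set.mem_ofPred_eq]
    split_ifs with h3
    · rfl
    · exact not_not.mp h3
  rw [h2]
  refine Submodule.sum_mem _ fun u _ => Submodule.smul_mem _ _ ?_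
  obtain ⟨u0, h3, g, h4, h5⟩ := gen_lat hp (fun t ht => le_of_lt ht) qpos (h1 u)
  have : cart k ⟨u.1, h1 u⟩ = (single ⟨g, h4⟩ 1 : SR k v) • cart k ⟨u0, ((mem_lat qpos).mp h3).1⟩ :=
    cf_ext h hp fun w => by simp only [cf_smul, cf_cart, one_mul, h5, sub_eq_iff_eq_add]
  rw [this]
  exact Submodule.smul_mem _ _ (Submodule.subset_span ⟨⟨u0, h3⟩, rfl⟩)

end Pool.Agent.Lib.MP_010de0_ag
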