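import Pool.Agent.Lib.MP_010de0_ag.TGeo

/-! Lattice combinatorics of the cone. -/

set_option autoImplicit false

namespace Pool.Agent.Lib.MP_010de0_ag

variable {τ ι : Type} [Fintype τ] {v : ι → τ → ℤ} {Q : Set ℝ} {n : ℕ}

/-- lattice points of the dilated polyhedron -/
def pl (v : ι → τ → ℤ) (Q : Set ℝ) (n : ℕ) : Set (τ → ℤ) :=
  {u | ∀ i, ((u ⬝ᵥ v i : ℤ) : ℝ) / n ∈ Q}

theorem div_mem_poly {u : τ → ℤ} : (fun j => (u j : ℝ) / n) ∈ poly v Q ↔ u ∈ pl v Q n := by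
  refine forall_congr' fun i => ?_
  rw [← cast_dot]
  simp only [dotProduct, Finset.sum_div, div_mul_eq_mul_div]

theorem mem_lat (hn : 0 < n) {u : τ → ℤ} :
    u ∈ lat v Q n ↔ u ∈ pl v Q n ∧ ∀ g ∈ coneS v, g ≠ 0 → u - n • g ∉ pl v Q n := by
  have hn' : (n : ℝ) ≠ 0 := by positivity
  refine and_congr div_mem_poly (forall₃_congr fun g _ _ => not_congr ?_)
  rw [← div_mem_poly]
  congr! 1
  ext j
  simp [sub_div, hn']

theorem mem_pl_Ioi (hn : 0 < n) {u : τ → ℤ} :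
    u ∈ pl v (Set.Ioi (-1)) n ↔ ∀ i, -(n : ℤ) < u ⬝ᵥ v i := by
  refine forall_congr' fun i => ?_
  rw [Set.mem_Ioi, lt_div_iff₀ (by positivity), neg_one_mul]
  exact_mod_cast Iff.rfl

theorem mem_pl_Ici (hn : 0 < n) {u : τ → ℤ} : u ∈ pl v (Set.Ici 0) n ↔ u ∈ coneS v := by
  refine forall_congr' fun i => ?_
  rw [Set.mem_Ici, le_div_iff₀ (by positivity), zero_mul]
  exact_mod_cast Iff.rfl

variable [Fintype ι]

theorem deg_pos (hp : ∀ g : τ → ℤ, (∀ i, g ⬝ᵥ v i = 0) → g = 0) {g : τ → ℤ} (hg : g ∈ coneS v)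
    (h0 : g ≠ 0) : 0 < ∑ i, g ⬝ᵥ v i := by
  refine (Finset.sum_nonneg fun i _ => hg i).lt_of_ne fun h => h0 (hp g fun i => ?_)
  exact (Finset.sum_eq_zero_iff_of_nonneg fun i _ => hg i).mp h.symm i (Finset.mem_univ i)

theorem gen_lat (hp : ∀ g : τ → ℤ, (∀ i, g ⬝ᵥ v i = 0) → g = 0) (h1 : ∀ t ∈ Q, -1 ≤ t)
    (hn : 0 < n) {u : τ → ℤ} (hu : u ∈ pl v Q n) :
    ∃ u0 ∈ lat v Q n, ∃ g ∈ coneS v, u = u0 + n • g := by
  have hb : ∀ u ∈ pl v Q n, 0 ≤ ∑ i, (u ⬝ᵥ v i + n) := fun u hu => Finset.sum_nonneg fun i _ => by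
    have := h1 _ (hu i)
    rw [le_div_iff₀ (by positivity), neg_one_mul] at this
    have : -(n : ℤ) ≤ u ⬝ᵥ v i := by exact_mod_cast this
    omega
  obtain ⟨N, hN⟩ := Int.eq_ofNat_of_zero_le (hb u hu)
  induction N using Nat.strong_induction_on generalizing u with
  | _ N ih =>
    by_cases h : u ∈ lat v Q n
    · exact ⟨u, h, 0, zero_mem _, by simp⟩
    · rw [mem_lat hn] at h
      push Not at h
      obtain ⟨g, hg, hg0, h⟩ := h hu
      obtain ⟨M, hM⟩ := Int.eq_ofNat_of_zero_le (hb _ h)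
      have h2 : ∑ i, ((u - n • g) ⬝ᵥ v i + n) = ∑ i, (u ⬝ᵥ v i + n) - n * ∑ i, g ⬝ᵥ v i := by
        rw [Finset.mul_sum, ← Finset.sum_sub_distrib]
        refine Finset.sum_congr rfl fun i _ => ?_
        rw [sub_dotProduct, smul_dotProduct, nsmul_eq_mul]; ring
      have h3 := mul_pos (Int.natCast_pos.mpr hn) (deg_pos hp hg hg0)
      obtain ⟨u0, h4, g', h5, h6⟩ := ih M (by omega) h hM
      exact ⟨u0, h4, g' + g, add_mem h5 hg, by rw [smul_add, ← add_assoc, ← h6]; simp⟩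

theorem fg_coneS (hp : ∀ g : τ → ℤ, (∀ i, g ⬝ᵥ v i = 0) → g = 0) : AddMonoid.FG (coneS v) := by
  have hf := finite_lat (v := v) (Q := Set.Ici 0) (fun t ht => le_trans (by norm_num) ht)
    (fun t ht => ht) two_pos
  refine (AddMonoid.fg_iff_addSubmonoid_fg _).mpr
    ((AddSubmonoid.fg_iff _).mpr ⟨_, le_antisymm ?_ fun s hs => ?_, hf⟩)
  · exact AddSubmonoid.closure_le.mpr fun u hu =>
      (mem_pl_Ici two_pos).mp ((mem_lat two_pos).mp hu).1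
  obtain ⟨N, hN⟩ := Int.eq_ofNat_of_zero_le
    (Finset.sum_nonneg fun i _ => hs i : 0 ≤ ∑ i, s ⬝ᵥ v i)
  induction N using Nat.strong_induction_on generalizing s with
  | _ N ih =>
    obtain ⟨u0, h1, g, h2, rfl⟩ := gen_lat hp (Q := Set.Ici 0)
      (fun t ht => le_trans (by norm_num) ht) two_pos ((mem_pl_Ici two_pos).mpr hs)
    refine add_mem (AddSubmonoid.subset_closure h1) (nsmul_mem ?_ 2)
    by_cases h0 : g = 0
    · rw [h0]; exact zero_mem _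
    have h3 := deg_pos hp h2 h0
    obtain ⟨M, hM⟩ := Int.eq_ofNat_of_zero_le h3.le
    have h4 : 0 ≤ ∑ i, u0 ⬝ᵥ v i := Finset.sum_nonneg fun i _ =>
      (mem_pl_Ici two_pos).mp ((mem_lat two_pos).mp h1).1 i
    simp only [two_nsmul, add_dotProduct, Finset.sum_add_distrib] at hN
    exact ih M (by omega) g h2 hM

theorem shift {g z : τ → ℤ} (hg : g ∈ coneS v) (hz : ∀ j, g ⬝ᵥ v j = 0 → 0 ≤ z ⬝ᵥ v j) :
    ∃ N : ℕ, ∀ M, N ≤ M → z + M • g ∈ coneS v := by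
  refine ⟨∑ j, (z ⬝ᵥ v j).natAbs, fun M hM j => ?_⟩
  have h1 := (Finset.single_le_sum (f := fun j => (z ⬝ᵥ v j).natAbs) (fun _ _ => Nat.zero_le _)
    (Finset.mem_univ j)).trans hM
  rw [add_dotProduct, smul_dotProduct, nsmul_eq_mul]
  rcases (hg j).eq_or_lt with h | h
  · rw [← h, mul_zero, add_zero]; exact hz j h.symm
  · have : (M : ℤ) * 1 ≤ M * g ⬝ᵥ v j := mul_le_mul_of_nonneg_left h (by positivity)
    omega

/-- the `v i` are the primitive inner normals of the facets of the cone -/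
def Facets (v : ι → τ → ℤ) : Prop :=
  ∀ i, (∃ w : τ → ℤ, w ⬝ᵥ v i = 1) ∧ ∃ g : τ → ℤ, g ⬝ᵥ v i = 0 ∧ ∀ j, j ≠ i → 0 < g ⬝ᵥ v j

theorem Facets.small (h : Facets v) (hn : 0 < n) (u : τ → ℤ) (i : ι) :
    ∃ s ∈ coneS v, ∃ w : τ → ℤ, s + u = n • w ∧ s ⬝ᵥ v i < n := by
  obtain ⟨⟨w, hw⟩, g, hg, hg'⟩ := h i
  have hn' : (0 : ℤ) < n := Int.natCast_pos.mpr hn
  have h1 : (n • (-((-(u ⬝ᵥ v i)) / n)) • w - u) ⬝ᵥ v i = (-(u ⬝ᵥ v i)) % n := by
    rw [sub_dotProduct, smul_dotProduct, smul_dotProduct, hw, Int.emod_def]; simp; ring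
  obtain ⟨N, hN⟩ := shift (v := v) (g := g) (z := n • (-((-(u ⬝ᵥ v i)) / n)) • w - u)
    (fun j => by by_cases hj : j = i; exacts [hj ▸ hg.ge, (hg' j hj).le]) fun j hj => by
      by_cases hj' : j = i
      · rw [hj', h1]; exact Int.emod_nonneg _ hn'.ne'
      · exact absurd hj (hg' j hj').ne'
  refine ⟨_, hN (n * N) (Nat.le_mul_of_pos_left _ hn), (-((-(u ⬝ᵥ v i)) / n)) • w + N • g, ?_, ?_⟩
  · rw [smul_add, mul_smul]; abel
  · rw [add_dotProduct, h1, smul_dotProduct, hg, smul_zero, add_zero]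
    exact Int.emod_lt_of_pos _ hn'

theorem Facets.interior (h : Facets v) : ∃ g0 : τ → ℤ, ∀ j, 0 < g0 ⬝ᵥ v j := by
  rcases isEmpty_or_nonempty ι with hι | ⟨⟨i⟩⟩
  · exact ⟨0, fun j => hι.elim j⟩
  obtain ⟨⟨w, hw⟩, g, hg, hg'⟩ := h i
  obtain ⟨N, hN⟩ := shift (v := v) (g := g) (z := w)
    (fun j => by by_cases hj : j = i; exacts [hj ▸ hg.ge, (hg' j hj).le]) fun j hj => by
      by_cases hj' : j = i
      · rw [hj', hw]; exact zero_le_one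
      · exact absurd hj (hg' j hj').ne'
  refine ⟨w + N • g + g, fun j => ?_⟩
  by_cases hj : j = i
  · rw [hj, add_dotProduct, add_dotProduct, smul_dotProduct, hw, hg]; simp
  · rw [add_dotProduct]; exact add_pos_of_nonneg_of_pos (hN N le_rfl j) (hg' j hj)

theorem Facets.full (h : Facets v) (z : τ → ℤ) : ∃ g ∈ coneS v, z + g ∈ coneS v := by
  obtain ⟨g0, hg0⟩ := h.interior
  obtain ⟨N, hN⟩ := shift (v := v) (g := g0) (z := z) (fun j => (hg0 j).le)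
    fun j hj => absurd hj (hg0 j).ne'
  exact ⟨_, nsmul_mem (mem_coneS.mpr fun j => (hg0 j).le) N, hN N le_rfl⟩

theorem Facets.ne_zero (h : Facets v) (i : ι) : v i ≠ 0 := fun h0 => by
  obtain ⟨⟨w, hw⟩, -⟩ := h i
  simp [h0] at hw

end Pool.Agent.Lib.MP_010de0_ag
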