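import Mathlib

set_option autoImplicit false

namespace Pool.Agent.Lib.MP_010de0_ag

variable {τ ι : Type} [Fintype τ]

/-- the lattice points of the cone cut out by the integer vectors `v i` -/
def coneS (v : ι → τ → ℤ) : AddSubmonoid (τ → ℤ) where
  carrier := {u | ∀ i, 0 ≤ u ⬝ᵥ v i}
  zero_mem' := fun i => by simp
  add_mem' := fun ha hb i => by rw [add_dotProduct]; exact add_nonneg (ha i) (hb i)

/-- the real points whose pairing with every `v i` lies in `Q` -/
def poly (v : ι → τ → ℤ) (Q : Set ℝ) : Set (τ → ℝ) :=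
  {x | ∀ i, x ⬝ᵥ (fun j => (v i j : ℝ)) ∈ Q}

/-- the points of `poly v Q` outside all its translates by nonzero lattice points of the cone -/
def corner (v : ι → τ → ℤ) (Q : Set ℝ) : Set (τ → ℝ) :=
  {x | x ∈ poly v Q ∧ ∀ g ∈ coneS v, g ≠ 0 → (x - fun j => (g j : ℝ)) ∉ poly v Q}

/-- the length of `R / m^[q]` -/
noncomputable def hkLen (R : Type) [CommRing R] [IsLocalRing R] (q : ℕ) : ℕ∞ :=
  Module.length R (R ⧸ Ideal.span ((· ^ q) '' (IsLocalRing.maximalIdeal R : Set R)))

end Pool.Agent.Lib.MP_010de0_ag
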