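import Pool.Agent.Lib.MP_010de0_ag.TRing

/-! Cones over a product of a projective space and a line. -/

set_option autoImplicit false
set_option linter.unusedSectionVars false

namespace Pool.Agent.Lib.MP_010de0_ag

open Filter Topology MeasureTheory

theorem exists_ring {τ ι : Type} [Fintype τ] [Fintype ι] {v : ι → τ → ℤ} (p : ℕ) (hp : p.Prime)
    (hv : Facets v) (h0 : ∀ g : τ → ℤ, (∀ i, g ⬝ᵥ v i = 0) → g = 0) :
    ∃ (R : Type) (_ : CommRing R) (_ : IsDomain R) (_ : IsLocalRing R),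
      (IsNoetherianRing R ∧ IsIntegrallyClosed R ∧ CharP R p ∧ ringKrullDim R = Fintype.card τ ∧
      PerfectField (IsLocalRing.ResidueField R) ∧ ∀ e : ℕ, Module.Finite R (rootAlg R (p ^ e))) ∧
      Tendsto (fun e : ℕ => (mu R (p ^ e) : ℝ) / (p : ℝ) ^ (e * Fintype.card τ)) atTop
        (𝓝 (volume.real (corner v (Set.Ioi (-1))))) ∧
      Tendsto (fun e : ℕ => ((hkLen R (p ^ e)).toNat : ℝ) / (p : ℝ) ^ (e * Fintype.card τ)) atTop
        (𝓝 (volume.real (corner v (Set.Ici 0)))) := by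
  have : Fact p.Prime := ⟨hp⟩
  let m : Ideal (SR (ZMod p) v) := RingHom.ker (aug (ZMod p) h0)
  have : m.IsPrime := RingHom.ker_isPrime _
  have hm : ∀ g, g ≠ 0 → AddMonoidAlgebra.single g 1 ∈ m := fun g hg => by
    simp [m, RingHom.mem_ker, aug_single, hg]
  exact ⟨Localization.AtPrime m, inferInstance, inferInstance, inferInstance,
    vertex_ring p hv m hm _, tendsto_mu hv m hm _, tendsto_hk hv.ne_zero m hm _⟩

variable {κ : Type} [Fintype κ] [DecidableEq κ] {b : ℕ} {Q : Set ℝ}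

/-- the facet normals -/
def fam (κ : Type) [DecidableEq κ] (b : ℕ) : Option (κ ⊕ Bool) → κ ⊕ Bool → ℤ
  | some j => Pi.single j 1
  | none => Sum.elim (fun _ => -1) fun _ => b

theorem dot_some (g : κ ⊕ Bool → ℤ) (j : κ ⊕ Bool) : g ⬝ᵥ fam κ b (some j) = g j := by simp [fam]

theorem dot_none (g : κ ⊕ Bool → ℤ) :
    g ⬝ᵥ fam κ b none = b * (g (.inr true) + g (.inr false)) - ∑ i, g (.inl i) := by
  simp [fam, dotProduct]; ring

theorem mem_fam {g : κ ⊕ Bool → ℤ} : g ∈ coneS (fam κ b) ↔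
    0 ≤ b * (g (.inr true) + g (.inr false)) - ∑ i, g (.inl i) ∧ ∀ j, 0 ≤ g j := by
  simp only [mem_coneS, Option.forall, dot_some, dot_none]

theorem poly_fam {x : κ ⊕ Bool → ℝ} : x ∈ poly (fam κ b) Q ↔
    b * (x (.inr true) + x (.inr false)) - ∑ i, x (.inl i) ∈ Q ∧ ∀ j, x j ∈ Q := by
  simp only [poly, Set.mem_ofPred_eq, Option.forall]
  refine and_congr ?_ (forall_congr' fun j => ?_) <;> congr! 1
  · simp [fam, dotProduct]; ring
  · simp [fam, dotProduct, Pi.single_apply]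

theorem fam_pointed (g : κ ⊕ Bool → ℤ) (h : ∀ i, g ⬝ᵥ fam κ b i = 0) : g = 0 :=
  funext fun j => (dot_some g j).symm.trans (h _)

theorem fam_facets [Nonempty κ] (hb : 0 < b) : Facets (fam κ b) := by
  have hb' : (1 : ℤ) ≤ b := by exact_mod_cast hb
  have hκ : (1 : ℤ) ≤ Fintype.card κ := by exact_mod_cast Fintype.card_pos
  rintro (_ | j)
  · obtain ⟨i⟩ := ‹Nonempty κ›
    refine ⟨⟨Pi.single (.inl i) (-1), by simp [fam]⟩,
      Sum.elim (fun _ => 2 * b) fun _ => Fintype.card κ, by simp [dot_none]; ring, ?_⟩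
    rintro (_ | j | j) hj
    exacts [absurd rfl hj, by simp [dot_some, hb], by simp [dot_some, Fintype.card_pos]]
  · let g : κ ⊕ Bool → ℤ := Function.update (Sum.elim (fun _ => 1) fun _ => Fintype.card κ + 1) j 0
    refine ⟨⟨Pi.single j 1, by simp [fam]⟩, g, by simp [dot_some, g], ?_⟩
    rintro (_ | j') hj
    · have h1 : ∑ i, g (.inl i) ≤ Fintype.card κ := by
        refine (Finset.sum_le_card_nsmul _ _ 1 fun i _ => ?_).trans (by simp)
        simp only [g, Function.update_apply]; split_ifs <;> simp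
      have h2 : (Fintype.card κ + 1 : ℤ) ≤ g (.inr true) + g (.inr false) := by
        simp only [g, Function.update_apply, Sum.elim_inr]
        split_ifs with h h' <;> first | omega | (rw [← h] at h'; simp at h')
      rw [dot_none]; nlinarith
    · rw [dot_some, show g j' = _ from Function.update_of_ne (fun h => hj (congrArg _ h)) _ _]
      rcases j' with j' | j' <;> simp

theorem fam_zero {g : κ ⊕ Bool → ℤ} (hg : g ∈ coneS (fam κ b)) (h0 : g ≠ 0) :
    ∃ j, (1 : ℝ) ≤ g (.inr j) := by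
  rw [mem_fam] at hg
  by_contra h
  have h1 : ∀ j, g (.inr j) = 0 := fun j => by
    have : ¬(1 : ℤ) ≤ g (.inr j) := fun h' => h ⟨j, by exact_mod_cast h'⟩
    have := hg.2 (.inr j)
    omega
  have h2 := hg.1
  rw [h1, h1] at h2
  refine h0 (funext fun j => j.rec (fun i => ?_) h1)
  exact (Finset.sum_eq_zero_iff_of_nonneg fun i _ => hg.2 (.inl i)).mp
    (le_antisymm (by simpa using h2) (Finset.sum_nonneg fun i _ => hg.2 _)) i (Finset.mem_univ i)

theorem corner_fam {x : κ ⊕ Bool → ℝ} (hx : x ∈ poly (fam κ b) Q)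
    (h : ∀ j t, 1 ≤ t → x (.inr j) - t ∉ Q) : x ∈ corner (fam κ b) Q := ⟨hx, fun g hg h0 h1 => by
  obtain ⟨j, hj⟩ := fam_zero hg h0
  exact h j _ hj ((poly_fam.mp h1).2 (.inr j))⟩

theorem step {x : κ ⊕ Bool → ℝ} (hx : x ∈ corner (fam κ b) Q) (γ : κ → ℕ) (hγ : ∑ i, γ i ≤ b)
    (j : Bool) (h1 : x (.inr j) - 1 ∈ Q) (h2 : ∀ i, x (.inl i) - γ i ∈ Q) :
    b * (x (.inr true) + x (.inr false)) - ∑ i, x (.inl i) - (b - ∑ i, (γ i : ℝ)) ∉ Q := fun h => by
  refine hx.2 (Sum.elim (fun i => γ i) (Pi.single j 1)) (mem_fam.mpr ⟨?_, ?_⟩)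
    (fun h => by simpa using congrFun h (.inr j)) (poly_fam.mpr ⟨?_, ?_⟩)
  · have : ((∑ i, γ i : ℕ) : ℤ) ≤ b := by exact_mod_cast hγ
    cases j <;> simpa using this
  · rintro (i | i) <;> simp [Pi.single_apply]; split_ifs <;> simp
  · convert h using 1
    cases j <;> simp <;> ring
  · rintro (i | i)
    · exact h2 i
    · by_cases hi : i = j
      · simpa [hi] using h1
      · simpa [hi] using (poly_fam.mp hx.1).2 (.inr i)

/-- a scaled and shifted simplex times a square -/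
def sx (κ : Type) [Fintype κ] (r s c c' : ℝ) : Set (κ ⊕ Bool → ℝ) :=
  {x | (∀ i, c < x (.inl i)) ∧ ∑ i, (x (.inl i) - c) < r ∧ ∀ j, c' < x (.inr j) ∧ x (.inr j) < c' + s}

theorem vol_sx {r s : ℝ} (hr : 0 < r) (hs : 0 < s) (c c' : ℝ) :
    volume.real (sx κ r s c c') = r ^ Fintype.card κ * s ^ 2 * volume.real (sx κ 1 1 0 0) := by
  let D : κ ⊕ Bool → ℝ := Sum.elim (fun _ => r⁻¹) fun _ => s⁻¹
  have h1 : sx κ r s c c' = (fun x => x + Sum.elim (fun _ => -c) fun _ => -c') ⁻¹'
      (Matrix.toLin' (Matrix.diagonal D) ⁻¹' sx κ 1 1 0 0) := by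
    ext x
    simp only [sx, D, Set.mem_ofPred_eq, Set.mem_preimage, Matrix.toLin'_apply,
      Matrix.mulVec_diagonal, Pi.add_apply, Sum.elim_inl, Sum.elim_inr, sub_zero, zero_add,
      ← Finset.mul_sum, inv_mul_lt_iff₀ hr, inv_mul_lt_iff₀ hs, mul_one, ← sub_eq_add_neg,
      mul_pos_iff_of_pos_left (inv_pos.mpr hr), mul_pos_iff_of_pos_left (inv_pos.mpr hs), sub_pos,
      sub_lt_iff_lt_add']
  have h2 : LinearMap.det (Matrix.toLin' (Matrix.diagonal D)) = (r ^ Fintype.card κ * s ^ 2)⁻¹ := by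
    simp [D, Matrix.det_diagonal]; ring
  rw [h1, measureReal_def, measure_preimage_add_right,
    Measure.addHaar_preimage_linearMap _ (by rw [h2]; positivity), h2, inv_inv,
    abs_of_pos (by positivity), ENNReal.toReal_mul, ENNReal.toReal_ofReal (by positivity)]
  rfl

theorem sx_fin (r s c c' : ℝ) : volume (sx κ r s c c') ≠ ⊤ := by
  refine ((isCompact_Icc (a := Sum.elim (fun _ => c) fun _ => c')
    (b := Sum.elim (fun _ => c + r) fun _ => c' + s)).measure_lt_top.trans_le' (measure_mono ?_)).ne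
  rintro x ⟨h1, h2, h3⟩
  refine ⟨fun j => j.rec (fun i => (h1 i).le) fun j => (h3 j).1.le,
    fun j => j.rec (fun i => ?_) fun j => (h3 j).2.le⟩
  have := Finset.single_le_sum (f := fun i => x (.inl i) - c) (fun i _ => sub_nonneg.mpr (h1 i).le)
    (Finset.mem_univ i)
  simp only [Sum.elim_inl]; linarith

theorem below_T (hb : 0 < b) :
    corner (fam κ b) (Set.Ioi (-1)) ⊆ sx κ (b + Fintype.card κ) 3 (-1) (-1) := fun x hx => by
  obtain ⟨h1, h2⟩ := poly_fam.mp hx.1
  have hb' : (1 : ℝ) ≤ b := by exact_mod_cast hb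
  simp only [Set.mem_Ioi] at h1 h2
  have a1 := h2 (.inr true)
  have a2 := h2 (.inr false)
  suffices h : ∑ i, x (.inl i) < b ∧ x (.inr true) + x (.inr false) < 1 by
    refine ⟨fun i => h2 _, by simp [Finset.sum_add_distrib, h.1], fun j => ⟨h2 _, ?_⟩⟩
    cases j <;> linarith
  by_cases h : ∃ j, 0 < x (.inr j)
  · obtain ⟨j, hj⟩ := h
    let a : κ → ℕ := fun i => ⌈x (.inl i)⌉₊
    have ha : ∀ i, (a i : ℝ) < x (.inl i) + 1 := fun i => by
      rcases le_total 0 (x (.inl i)) with h | h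
      · exact Nat.ceil_lt_add_one h
      · simp only [a, Nat.ceil_eq_zero.mpr h, Nat.cast_zero]; linarith [h2 (.inl i)]
    have h3 : ∑ i, x (.inl i) ≤ ∑ i, (a i : ℝ) := Finset.sum_le_sum fun i _ => Nat.le_ceil _
    have h4 : ∑ i, a i < b := not_le.mp fun h => by
      obtain ⟨γ, h5, h6⟩ := (Finsupp.equivFunOnFinite.symm a).exists_le_degree_eq b
        (by simpa [Finsupp.degree_eq_sum] using h)
      rw [Finsupp.degree_eq_sum] at h6
      refine step hx γ h6.le j (by simp; linarith) (fun i => ?_) (by simpa [← h6] using h1)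
      have : (γ i : ℝ) ≤ a i := by exact_mod_cast h5 i
      simp only [Set.mem_Ioi]; linarith [ha i]
    have h5 := step hx a h4.le j (by simp; linarith) fun i => by
      simp only [Set.mem_Ioi]; linarith [ha i]
    have h6 : ∑ i, (a i : ℝ) < b := by exact_mod_cast h4
    simp only [Set.mem_Ioi, not_lt] at h5
    exact ⟨by linarith, by nlinarith⟩
  · push Not at h
    have := h true
    have := h false
    exact ⟨by nlinarith, by linarith⟩

theorem below_T0 : sx κ (3 * b / 2) (1 / 4) 0 (3 / 4) ⊆ corner (fam κ b) (Set.Ici 0) := by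
  rintro x ⟨h1, h2, h3⟩
  refine corner_fam (poly_fam.mpr ⟨?_, fun j => j.rec (fun i => (h1 i).le) fun j => ?_⟩)
    fun j t ht => ?_ <;> simp only [Set.mem_Ici, sub_zero] at *
  · nlinarith [(h3 true).1, (h3 false).1, (Nat.cast_nonneg b : (0 : ℝ) ≤ b)]
  · linarith [(h3 j).2]
  · linarith [(h3 j).1]

theorem corner_fin {τ ι : Type} [Fintype τ] [Fintype ι] {v : ι → τ → ℤ} :
    volume (corner v (Set.Ioi (-1))) ≠ ⊤ ∧ volume (corner v (Set.Ici 0)) ≠ ⊤ :=
  ⟨(bounded_corner (fun _ ht => le_of_lt ht)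
    fun _ ht => lt_of_lt_of_le (by norm_num) ht).measure_lt_top.ne,
    (bounded_corner (fun _ ht => le_trans (by norm_num) ht) fun _ ht => ht).measure_lt_top.ne⟩

theorem below {ε : ℝ} (hε : 0 < ε) : ∃ m : ℕ, volume.real (corner (fam (Fin (m + 1)) (4 * (m + 1)))
    (Set.Ioi (-1))) < ε * volume.real (corner (fam (Fin (m + 1)) (4 * (m + 1))) (Set.Ici 0)) := by
  obtain ⟨m, hm⟩ := exists_pow_lt_of_lt_one (div_pos hε (by norm_num : (0 : ℝ) < 200))
    (by norm_num : (5 / 6 : ℝ) < 1)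
  refine ⟨m, ?_⟩
  have h0 := vol_pos (fam_facets (κ := Fin (m + 1)) (by omega : 0 < 4 * (m + 1))) fam_pointed
  have h1 := measureReal_mono (below_T (κ := Fin (m + 1)) (by omega : 0 < 4 * (m + 1)))
    (sx_fin _ _ _ _)
  have h2 := measureReal_mono (below_T0 (κ := Fin (m + 1)) (b := 4 * (m + 1))) corner_fin.2
  rw [vol_sx (by positivity) (by positivity)] at h1 h2
  simp only [Fintype.card_fin] at h1 h2
  have h3 : (((4 * (m + 1) : ℕ) : ℝ) + (m + 1 : ℕ)) ^ (m + 1) =
      (5 / 6) ^ m * (5 / 6) * (3 * ((4 * (m + 1) : ℕ) : ℝ) / 2) ^ (m + 1) := by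
    rw [← pow_succ, ← mul_pow]; congr 1; push_cast; ring
  rw [h3] at h1
  have h4 : (0 : ℝ) ≤ (5 / 6) ^ m := by positivity
  nlinarith [mul_le_mul_of_nonneg_left h2 h4, mul_pos hε h0]

theorem above_T0 [Nonempty κ] : corner (fam κ 1) (Set.Ici 0) ⊆ ⋃ i : κ, Set.Icc 0
    (Sum.elim (fun i' => if i' = i then (2 : ℝ) else 1) fun _ => (Fintype.card κ + 1 : ℝ)) := by
  intro x hx
  obtain ⟨h1, h2⟩ := poly_fam.mp hx.1
  simp only [Set.mem_Ici, Nat.cast_one, one_mul] at h1 h2
  have a1 := h2 (.inr true)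
  have a2 := h2 (.inr false)
  have hκ : (0 : ℝ) ≤ Fintype.card κ := by positivity
  by_cases h : ∃ j, 1 ≤ x (.inr j)
  · obtain ⟨j, hj⟩ := h
    have h3 : ∀ i, x (.inl i) ≤ 1 := fun i => not_lt.mp fun h =>
      step hx (Pi.single i 1) (by simp) j (by simpa using hj) (fun i' => by
        by_cases hi : i' = i
        · simpa [hi] using h.le
        · simpa [hi] using h2 _) (by simpa [Pi.single_apply] using h1)
    have h4 := step hx 0 (by simp) j (by simpa using hj) fun i => by simpa using h2 _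
    have h5 : ∑ i, x (.inl i) ≤ Fintype.card κ :=
      (Finset.sum_le_card_nsmul _ _ 1 fun i _ => h3 i).trans (by simp)
    simp only [Nat.cast_one, one_mul, Pi.zero_apply, Nat.cast_zero, Finset.sum_const_zero,
      Set.mem_Ici, not_le] at h4
    obtain ⟨i⟩ := ‹Nonempty κ›
    refine Set.mem_iUnion.mpr ⟨i, h2, fun j => j.rec (fun i' => ?_) fun j => ?_⟩
    · simp only [Sum.elim_inl]; split_ifs <;> linarith [h3 i']
    · simp only [Sum.elim_inr]; cases j <;> linarith
  · push Not at h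
    obtain ⟨i, -, hi⟩ := Finset.exists_max_image Finset.univ (fun i => x (.inl i))
      Finset.univ_nonempty
    refine Set.mem_iUnion.mpr ⟨i, h2, fun j => j.rec (fun i' => ?_) fun j => ?_⟩
    · simp only [Sum.elim_inl]
      split_ifs with h3
      · linarith [Finset.single_le_sum (f := fun i => x (.inl i)) (fun i _ => h2 _)
          (Finset.mem_univ i'), h true, h false]
      · linarith [Finset.add_le_sum (f := fun i => x (.inl i)) (fun i _ => h2 _)
          (Finset.mem_univ i') (Finset.mem_univ i) h3, h true, h false, hi i' (Finset.mem_univ _)]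
    · simp only [Sum.elim_inr]; linarith [h j]

theorem above_vol0 [Nonempty κ] : volume.real (corner (fam κ 1) (Set.Ici 0)) ≤
    Fintype.card κ * (2 * (Fintype.card κ + 1) ^ 2) := by
  refine (measureReal_mono above_T0 (isCompact_iUnion fun _ => isCompact_Icc).measure_lt_top.ne).trans
    ((measureReal_iUnion_fintype_le _).trans ?_)
  refine (Finset.sum_le_card_nsmul _ _ _ fun i _ => le_of_eq ?_).trans (nsmul_eq_mul _ _).le
  rw [measureReal_def, Real.volume_Icc_pi_toReal fun j => j.rec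
    (fun i' => by simp only [Sum.elim_inl, Pi.zero_apply]; split_ifs <;> norm_num)
    fun j => by simp only [Sum.elim_inr, Pi.zero_apply]; positivity]
  simp [sq]

/-- the boxes inside the anticanonical corner -/
def bx {r : ℕ} (c : ℝ) (f : Fin 4 → Fin r) : Set ((Fin 4 × Fin r) ⊕ Bool → ℝ) :=
  Set.univ.pi fun j => Set.Ioo
    (Sum.elim (fun i => if f i.1 = i.2 then c - 1 else -1) (fun _ => -1) j)
    (Sum.elim (fun i => if f i.1 = i.2 then c else c - 1) (fun _ => 0) j)

theorem bx_sub {r : ℕ} {c : ℝ} (hc : 0 < c) (h : r * c ≤ r - 2) (f : Fin 4 → Fin r) :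
    bx c f ⊆ corner (fam (Fin 4 × Fin r) 1) (Set.Ioi (-1)) := fun x hx => by
  have h1 := fun i => hx (.inl i) trivial
  have h2 := fun j => hx (.inr j) trivial
  simp only [Sum.elim_inl, Sum.elim_inr, Set.mem_Ioo] at h1 h2
  refine corner_fam (poly_fam.mpr ⟨?_, fun j => j.rec (fun i => ?_) fun j => (h2 j).1⟩)
    fun j t ht => ?_ <;> simp only [Set.mem_Ioi]
  · have h3 : ∑ i, x (.inl i) ≤ ∑ i : Fin 4 × Fin r, (c - 1 + if f i.1 = i.2 then 1 else 0) :=
      Finset.sum_le_sum fun i _ => by have := (h1 i).2; split_ifs at * <;> linarith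
    simp only [Finset.sum_add_distrib, Fintype.sum_prod_type, Finset.sum_ite_eq, Finset.mem_univ,
      if_true, Finset.sum_const, Finset.card_univ, Fintype.card_prod, Fintype.card_fin,
      nsmul_eq_mul] at h3
    simp only [Fintype.sum_prod_type]
    push_cast at h3 ⊢
    linarith [(h2 true).1, (h2 false).1]
  · linarith [(h2 j).2]
  · have := (h1 i).1; split_ifs at * <;> linarith

theorem bx_vol {r : ℕ} {c : ℝ} (hc : 0 < c) (h : c ≤ 1) (f : Fin 4 → Fin r) :
    c ^ (4 * r) ≤ volume.real (bx c f) := by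
  rw [measureReal_def, bx, Real.volume_pi_Ioo_toReal fun j => j.rec
    (fun i' => by simp only [Sum.elim_inl]; split_ifs <;> linarith) fun j => by simp]
  simp only [Fintype.prod_sum_type, Sum.elim_inl, Sum.elim_inr, sub_neg_eq_add, zero_add,
    Finset.prod_const_one, mul_one]
  refine le_trans (by simp) (Finset.prod_le_prod (f := fun _ => c) (fun _ _ => hc.le) fun i _ => ?_)
  split_ifs <;> linarith

theorem above_vol {r : ℕ} {c : ℝ} (hc : 0 < c) (h1 : c ≤ 1) (h : r * c ≤ r - 2) :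
    r ^ 4 * c ^ (4 * r) ≤ volume.real (corner (fam (Fin 4 × Fin r) 1) (Set.Ioi (-1))) := by
  refine le_trans ?_ (measureReal_mono (Set.iUnion_subset (bx_sub hc h)) corner_fin.1)
  rw [measureReal_iUnion_fintype (f := bx c) _ (fun f => MeasurableSet.univ_pi fun _ => measurableSet_Ioo)
    fun f => ((measure_mono (bx_sub hc h f)).trans_lt corner_fin.1.lt_top).ne]
  · refine le_trans (by simp) (Finset.card_nsmul_le_sum _ _ _ fun f _ => bx_vol hc h1 f)
  · intro f f' hf
    obtain ⟨s, hs⟩ := Function.ne_iff.mp hf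
    refine Set.disjoint_left.mpr fun x hx hx' => ?_
    have a1 := (hx (.inl (s, f s)) trivial).1
    have a2 := (hx' (.inl (s, f s)) trivial).2
    simp only [Sum.elim_inl, if_true, if_neg hs.symm] at a1 a2
    linarith

theorem above (C : ℝ) : ∃ r : ℕ, C * volume.real (corner (fam (Fin 4 × Fin (r + 1)) 1) (Set.Ici 0)) <
    volume.real (corner (fam (Fin 4 × Fin (r + 1)) 1) (Set.Ioi (-1))) := by
  obtain ⟨s, hs⟩ := exists_nat_gt (max C 0 * 2 ^ 16 * 200)
  refine ⟨4 * s + 3, ?_⟩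
  have h0 : (0 : ℝ) ≤ s := by positivity
  have h1 := above_vol (r := 4 * s + 3 + 1) (c := 1 - 1 / (2 * (s + 1)))
    (by rw [sub_pos, div_lt_one (by positivity)]; linarith) (by simp; positivity)
    (by push_cast; field_simp; linarith)
  have h2 := above_vol0 (κ := Fin 4 × Fin (4 * s + 3 + 1))
  have h3 : (1 / 2 : ℝ) ≤ (1 - 1 / (2 * (s + 1))) ^ (s + 1) := by
    refine le_trans (le_of_eq ?_) (one_add_mul_le_pow (a := -(1 / (2 * (s + 1)) : ℝ)) ?_ (s + 1))
    · push_cast; field_simp; ring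
    · have : (1 : ℝ) / (2 * (s + 1)) ≤ 1 := by rw [div_le_one (by positivity)]; linarith
      linarith
  have h4 := pow_le_pow_left₀ (by norm_num) h3 16
  rw [← pow_mul, show (s + 1) * 16 = 4 * (4 * s + 3 + 1) by ring] at h4
  simp only [Fintype.card_prod, Fintype.card_fin] at h2
  set t : ℝ := ((4 * s + 3 + 1 : ℕ) : ℝ) with ht
  have h5 : (s : ℝ) + 1 ≤ t := by rw [ht]; push_cast; linarith
  rw [Nat.cast_mul, ← ht] at h2
  have h6 : 0 < t ^ 3 := by have : 0 < t := by linarith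
                            positivity
  calc _ ≤ max C 0 * _ := mul_le_mul_of_nonneg_right (le_max_left _ _) measureReal_nonneg
    _ ≤ max C 0 * (200 * t ^ 3) := mul_le_mul_of_nonneg_left (h2.trans (by
        push_cast; nlinarith [mul_nonneg (by linarith : 0 ≤ t) (by linarith : 0 ≤ t - 1)]))
        (le_max_right _ _)
    _ < t ^ 4 * (1 / 2) ^ 16 := by nlinarith
    _ ≤ _ := (mul_le_mul_of_nonneg_left h4 (by positivity)).trans h1

end Pool.Agent.Lib.MP_010de0_ag
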