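import Pool.Agent.Lib.MP_010de0_ag.TDefs

/-! The corner region is bounded with null frontier; lattice points in it are counted by volume. -/

set_option autoImplicit false

namespace Pool.Agent.Lib.MP_010de0_ag

open Filter Topology MeasureTheory

variable {τ ι : Type} [Fintype τ] {v : ι → τ → ℤ} {Q : Set ℝ}

theorem mem_coneS {u : τ → ℤ} : u ∈ coneS v ↔ ∀ i, 0 ≤ u ⬝ᵥ v i := Iff.rfl

theorem cast_dot (g w : τ → ℤ) :
    (fun j => (g j : ℝ)) ⬝ᵥ (fun j => (w j : ℝ)) = ((g ⬝ᵥ w : ℤ) : ℝ) := by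
  simp [dotProduct]

theorem abs_dot_le (x w : τ → ℝ) : |x ⬝ᵥ w| ≤ ‖x‖ * ∑ j, |w j| := by
  rw [dotProduct, Finset.mul_sum]
  refine (Finset.abs_sum_le_sum_abs _ _).trans (Finset.sum_le_sum fun j _ => ?_)
  rw [abs_mul]
  exact mul_le_mul_of_nonneg_right (norm_le_pi_norm x j) (abs_nonneg _)

theorem dirichlet (y : τ → ℝ) {ε : ℝ} (hε : 0 < ε) :
    ∃ (N : ℕ) (g : τ → ℤ), 1 ≤ N ∧ ‖(N : ℝ) • y - fun j => (g j : ℝ)‖ < ε := by
  let f : ℕ → τ → ℝ := fun n j => Int.fract (n * y j)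
  have hf : ∀ n, f n ∈ Set.Icc (0 : τ → ℝ) 1 := fun n =>
    ⟨fun j => Int.fract_nonneg _, fun j => (Int.fract_lt_one _).le⟩
  obtain ⟨a, -, φ, hφ, h⟩ := isCompact_Icc.tendsto_subseq hf
  obtain ⟨M, hM⟩ := Metric.cauchySeq_iff'.mp h.cauchySeq ε hε
  have h1 := hM (M + 1) (Nat.le_succ M)
  have h2 : φ M < φ (M + 1) := hφ (Nat.lt_succ_self M)
  refine ⟨φ (M + 1) - φ M, fun j => ⌊φ (M + 1) * y j⌋ - ⌊φ M * y j⌋, by omega, ?_⟩
  rw [dist_eq_norm] at h1
  refine lt_of_eq_of_lt (congrArg norm (funext fun j => ?_)) h1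
  simp only [f, Pi.sub_apply, Pi.smul_apply, smul_eq_mul, Function.comp, Int.fract,
    Nat.cast_sub h2.le, Int.cast_sub]
  ring

variable [Fintype ι]

theorem exists_lattice {y : τ → ℝ} (hy : y ≠ 0) (h : ∀ i, 0 ≤ y ⬝ᵥ fun j => (v i j : ℝ)) :
    ∃ g ∈ coneS v, g ≠ 0 ∧ ∀ i, y ⬝ᵥ (fun j => (v i j : ℝ)) = 0 → g ⬝ᵥ v i = 0 := by
  let C : ℝ := 1 + ∑ i, ∑ j, |(v i j : ℝ)|
  have hC : ∀ i, ∑ j, |(v i j : ℝ)| < C := fun i => by
    have := Finset.single_le_sum (f := fun i => ∑ j, |(v i j : ℝ)|)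
      (fun i _ => by positivity) (Finset.mem_univ i)
    simp only [C]; linarith
  have hC0 : 0 < C := by positivity
  obtain ⟨N, g, hN, hg⟩ := dirichlet y (lt_min (norm_pos_iff.mpr hy) (inv_pos.mpr hC0))
  have hN' : (1 : ℝ) ≤ N := by exact_mod_cast hN
  have key : ∀ i, |N * (y ⬝ᵥ fun j => (v i j : ℝ)) - ((g ⬝ᵥ v i : ℤ) : ℝ)| < 1 := fun i => by
    rw [← cast_dot, ← smul_eq_mul, ← smul_dotProduct, ← sub_dotProduct]
    refine (abs_dot_le _ _).trans_lt ?_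
    calc _ ≤ C⁻¹ * ∑ j, |(v i j : ℝ)| :=
          mul_le_mul_of_nonneg_right (hg.le.trans (min_le_right _ _)) (by positivity)
      _ < C⁻¹ * C := mul_lt_mul_of_pos_left (hC i) (inv_pos.mpr hC0)
      _ = 1 := inv_mul_cancel₀ hC0.ne'
  refine ⟨g, fun i => ?_, ?_, fun i hi => ?_⟩
  · have h1 := (abs_lt.mp (key i)).2
    have h2 : 0 ≤ (N : ℝ) * (y ⬝ᵥ fun j => (v i j : ℝ)) := mul_nonneg (by positivity) (h i)
    have : ((-1 : ℤ) : ℝ) < ((g ⬝ᵥ v i : ℤ) : ℝ) := by push_cast at *; linarith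
    have := Int.cast_lt.mp this
    omega
  · rintro rfl
    have h1 : (fun j => (((0 : τ → ℤ) j : ℤ) : ℝ)) = 0 := by ext; simp
    rw [h1, sub_zero, norm_smul, Real.norm_natCast] at hg
    have := hg.trans_le (min_le_left _ _)
    nlinarith [norm_nonneg y]
  · have h1 := key i
    rw [hi, mul_zero, zero_sub, abs_neg, ← Int.cast_abs, ← Int.cast_one, Int.cast_lt] at h1
    exact Int.abs_lt_one_iff.mp h1

theorem bounded_corner (h1 : ∀ t ∈ Q, -1 ≤ t) (h2 : ∀ t, 0 ≤ t → t ∈ Q) :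
    Bornology.IsBounded (corner v Q) := by
  by_contra hb
  rw [isBounded_iff_forall_norm_le] at hb
  push Not at hb
  choose x hx hx' using fun n : ℕ => hb (n + 1)
  have hpos : ∀ n, 0 < ‖x n‖ := fun n => lt_trans (by positivity) (hx' n)
  let z : ℕ → τ → ℝ := fun n => ‖x n‖⁻¹ • x n
  have hz : ∀ n, z n ∈ Metric.sphere (0 : τ → ℝ) 1 := fun n => by
    simp [z, norm_smul, (hpos n).ne']
  obtain ⟨y, hy, φ, hφ, h⟩ := (isCompact_sphere _ _).tendsto_subseq hz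
  have hy0 : y ≠ 0 := by rintro rfl; simp at hy
  have hinf : Tendsto (fun n => ‖x (φ n)‖) atTop atTop :=
    tendsto_atTop_mono (fun n => by
      have : (n : ℝ) ≤ φ n := by exact_mod_cast hφ.id_le n
      linarith [hx' (φ n)]) tendsto_natCast_atTop_atTop
  have hdot : ∀ i, Tendsto (fun n => z (φ n) ⬝ᵥ fun j => (v i j : ℝ)) atTop
      (𝓝 (y ⬝ᵥ fun j => (v i j : ℝ))) := fun i =>
    ((continuous_id.dotProduct continuous_const).tendsto y).comp h
  have hy1 : ∀ i, 0 ≤ y ⬝ᵥ fun j => (v i j : ℝ) := fun i => by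
    have h3 := hinf.inv_tendsto_atTop.neg
    rw [neg_zero] at h3
    refine le_of_tendsto_of_tendsto' h3 (hdot i) fun n => ?_
    have := mul_le_mul_of_nonneg_left (h1 _ ((hx (φ n)).1 i)) (inv_pos.mpr (hpos (φ n))).le
    simpa [z] using this
  obtain ⟨g, hg, hg0, hg1⟩ := exists_lattice hy0 hy1
  have : ∀ᶠ n in atTop, ∀ i, (x (φ n) - fun j => (g j : ℝ)) ⬝ᵥ (fun j => (v i j : ℝ)) ∈ Q := by
    refine eventually_all.mpr fun i => ?_
    simp only [sub_dotProduct, cast_dot]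
    rcases (hy1 i).eq_or_lt with h0 | h0
    · refine Eventually.of_forall fun n => ?_
      rw [hg1 i h0.symm, Int.cast_zero, sub_zero]
      exact (hx (φ n)).1 i
    · filter_upwards [(hinf.atTop_mul_pos h0 (hdot i)).eventually_ge_atTop
        ((g ⬝ᵥ v i : ℤ) : ℝ)] with n hn
      refine h2 _ (sub_nonneg.mpr ?_)
      simpa [z, (hpos (φ n)).ne'] using hn
  obtain ⟨n, hn⟩ := this.exists
  exact (hx (φ n)).2 g hg hg0 hn

theorem measurable_poly (hQ : MeasurableSet Q) : MeasurableSet (poly v Q) := by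
  have : poly v Q = ⋂ i, (fun x : τ → ℝ => x ⬝ᵥ fun j => (v i j : ℝ)) ⁻¹' Q := by
    ext; simp [poly]
  rw [this]
  exact MeasurableSet.iInter fun i =>
    (continuous_id.dotProduct continuous_const).measurable hQ

theorem measurable_corner (hQ : MeasurableSet Q) : MeasurableSet (corner v Q) := by
  have : corner v Q = poly v Q ∩ ⋂ g : τ → ℤ, ⋂ (_ : g ∈ coneS v), ⋂ (_ : g ≠ 0),
      ((fun x : τ → ℝ => x - fun j => (g j : ℝ)) ⁻¹' poly v Q)ᶜ := by
    ext; simp [corner]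
  rw [this]
  exact (measurable_poly hQ).inter (.iInter fun g => .iInter fun _ => .iInter fun _ =>
    ((measurable_id.sub measurable_const) (measurable_poly hQ)).compl)

omit [Fintype ι] in
theorem null_plane {w : τ → ℝ} (hw : w ≠ 0) (c : ℝ) : volume {x : τ → ℝ | x ⬝ᵥ w = c} = 0 := by
  classical
  let l : (τ → ℝ) →ₗ[ℝ] ℝ := (dotProductBilin ℝ ℝ).flip w
  refine Measure.addHaar_affineSubspace volume
    (AffineSubspace.comap l.toAffineMap (AffineSubspace.mk' c ⊥)) (fun h => hw ?_) ▸ ?_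
  · have h1 : ∀ x : τ → ℝ, x ⬝ᵥ w = c := fun x => by
      have : x ∈ AffineSubspace.comap l.toAffineMap (AffineSubspace.mk' c ⊥) := h ▸ trivial
      simpa [l, AffineSubspace.mem_mk', sub_eq_zero] using this
    have h2 := h1 w
    rw [← h1 0, zero_dotProduct] at h2
    exact dotProduct_self_eq_zero.mp h2
  · congr 1
    ext x
    simp [l, AffineSubspace.mem_mk', sub_eq_zero]

theorem null_frontier (hv : ∀ i, v i ≠ 0)
    (h3 : ∀ s t : ℝ, ⌊s⌋ = ⌊t⌋ → ⌈s⌉ = ⌈t⌉ → s ∈ Q → t ∈ Q) :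
    volume (frontier (corner v Q)) = 0 := by
  refine measure_mono_null (t := ⋃ i, ⋃ c : ℤ, {x : τ → ℝ | x ⬝ᵥ (fun j => (v i j : ℝ)) = c})
    (fun x hx => ?_) (measure_iUnion_null fun i => measure_iUnion_null fun c =>
      null_plane (fun h => hv i (funext fun j => by simpa using congrFun h j)) _)
  by_contra hn
  simp only [Set.mem_iUnion, Set.mem_ofPred_eq, not_exists] at hn
  have h4 : ∀ᶠ y in 𝓝 x, ∀ i, ⌊y ⬝ᵥ (fun j => (v i j : ℝ))⌋ = ⌊x ⬝ᵥ (fun j => (v i j : ℝ))⌋ ∧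
      ⌈y ⬝ᵥ (fun j => (v i j : ℝ))⌉ = ⌈x ⬝ᵥ (fun j => (v i j : ℝ))⌉ := by
    refine eventually_all.mpr fun i => ?_
    have hc : Continuous fun y : τ → ℝ => y ⬝ᵥ fun j => (v i j : ℝ) :=
      continuous_id.dotProduct continuous_const
    have a1 := lt_of_le_of_ne (Int.floor_le _) (Ne.symm (hn i _))
    have a2 := lt_of_le_of_ne (Int.le_ceil _) (hn i _)
    filter_upwards [hc.continuousAt.eventually (Ioo_mem_nhds a1 (Int.lt_floor_add_one _)),
      hc.continuousAt.eventually (Ioo_mem_nhds (sub_lt_iff_lt_add.mpr (Int.ceil_lt_add_one _)) a2)]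
      with y b1 b2
    exact ⟨Int.floor_eq_iff.mpr ⟨b1.1.le, b1.2⟩, Int.ceil_eq_iff.mpr ⟨b2.1, b2.2.le⟩⟩
  have h5 : ∀ᶠ y in 𝓝 x, (y ∈ corner v Q ↔ x ∈ corner v Q) := by
    filter_upwards [h4] with y hy
    have a : ∀ g : τ → ℤ, (y - fun j => (g j : ℝ)) ∈ poly v Q ↔
        (x - fun j => (g j : ℝ)) ∈ poly v Q := fun g => by
      refine forall_congr' fun i => ?_
      simp only [sub_dotProduct, cast_dot]
      constructor <;> apply h3 <;> simp only [Int.floor_sub_intCast, Int.ceil_sub_intCast, hy i]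
    have a0 := a 0
    have h1 : (fun j => (((0 : τ → ℤ) j : ℤ) : ℝ)) = 0 := by ext; simp
    rw [h1, sub_zero, sub_zero] at a0
    simp only [corner, Set.mem_ofPred_eq, a, a0]
  by_cases hx' : x ∈ corner v Q
  · exact hx.2 (mem_interior_iff_mem_nhds.mpr (h5.mono fun y hy => hy.mpr hx'))
  · rw [← frontier_compl] at hx
    exact hx.2 (mem_interior_iff_mem_nhds.mpr (h5.mono fun y hy h => hx' (hy.mp h)))

/-- the lattice points of the dilated corner -/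
def lat (v : ι → τ → ℤ) (Q : Set ℝ) (n : ℕ) : Set (τ → ℤ) :=
  {u | (fun j => (u j : ℝ) / n) ∈ corner v Q}

theorem tendsto_lat (hv : ∀ i, v i ≠ 0) (hQ : MeasurableSet Q) (h1 : ∀ t ∈ Q, -1 ≤ t)
    (h2 : ∀ t, 0 ≤ t → t ∈ Q) (h3 : ∀ s t : ℝ, ⌊s⌋ = ⌊t⌋ → ⌈s⌉ = ⌈t⌉ → s ∈ Q → t ∈ Q) :
    Tendsto (fun n : ℕ => (Nat.card (lat v Q n) : ℝ) / n ^ Fintype.card τ) atTop
      (𝓝 (volume.real (corner v Q))) := by
  refine (tendsto_card_div_pow_atTop_volume _ (bounded_corner h1 h2) (measurable_corner hQ)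
    (null_frontier hv h3)).congr' ?_
  filter_upwards [eventually_gt_atTop 0] with n hn
  have hn' : (n : ℝ) ≠ 0 := by positivity
  congr 2
  refine (Nat.card_congr (Equiv.ofBijective (fun u : lat v Q n => ⟨fun j => (u.1 j : ℝ) / n, u.2,
    ⟨fun j => (u.1 j : ℝ),
      ((Pi.basisFun ℝ τ).mem_span_iff_repr_mem ℤ _).mpr fun j => ⟨u.1 j, by simp⟩,
      by ext j; simp [div_eq_inv_mul]⟩⟩) ⟨fun a b h => ?_, ?_⟩)).symm
  · refine Subtype.ext (funext fun j => ?_)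
    have := congrFun (congrArg Subtype.val h) j
    simpa [hn'] using this
  · rintro ⟨x, hx, y, hy, rfl⟩
    choose u hu using ((Pi.basisFun ℝ τ).mem_span_iff_repr_mem ℤ _).mp hy
    have : (fun j => (u j : ℝ) / n) = (n : ℝ)⁻¹ • y := by
      ext j
      have := hu j
      simp only [eq_intCast, Pi.basisFun_repr] at this
      simp [this, div_eq_inv_mul]
    exact ⟨⟨u, by rw [lat, Set.mem_ofPred_eq, this]; exact hx⟩, Subtype.ext this⟩

theorem finite_lat (h1 : ∀ t ∈ Q, -1 ≤ t) (h2 : ∀ t, 0 ≤ t → t ∈ Q) {n : ℕ} (hn : 0 < n) :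
    (lat v Q n).Finite := by
  classical
  obtain ⟨C, hC⟩ := isBounded_iff_forall_norm_le.mp (bounded_corner (v := v) h1 h2)
  refine (Set.finite_Icc (fun _ => -⌈C * n⌉) (fun _ => ⌈C * n⌉)).subset fun u hu => ?_
  have : ∀ j, |u j| ≤ ⌈C * n⌉ := fun j => by
    have h := (norm_le_pi_norm _ j).trans (hC _ hu)
    rw [Real.norm_eq_abs, abs_div, Nat.abs_cast, div_le_iff₀ (by positivity)] at h
    exact_mod_cast h.trans (Int.le_ceil _)
  exact ⟨fun j => (abs_le.mp (this j)).1, fun j => (abs_le.mp (this j)).2⟩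

end Pool.Agent.Lib.MP_010de0_ag
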