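import Pool.Agent.Lib.MP_010de0_ag.TMain

/-! The Hilbert-Kunz function of the vertex ring. -/

set_option autoImplicit false
set_option linter.unusedSectionVars false

namespace Pool.Agent.Lib.MP_010de0_ag

open AddMonoidAlgebra Filter Topology MeasureTheory IsLocalRing

variable {k τ ι : Type} [Field k] [Fintype τ] {v : ι → τ → ℤ} {p e : ℕ}

theorem residue_surj (m : Ideal (SR k v)) [m.IsPrime] (h : ∀ g, g ≠ 0 → single g 1 ∈ m)
    (R : Type) [CommRing R] [IsLocalRing R] [Algebra (SR k v) R] [IsLocalization.AtPrime R m]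
    (r : R) : ∃ c : k, r - algebraMap (SR k v) R (algebraMap k _ c) ∈ maximalIdeal R := by
  obtain ⟨⟨a, t⟩, h1⟩ := IsLocalization.surj m.primeCompl r
  have ht : aug k (pointed h) t ≠ 0 := fun h0 => t.2 ((mem_iff_aug h _).mpr h0)
  refine ⟨aug k (pointed h) a / aug k (pointed h) t, ?_⟩
  refine ((maximalIdeal.isMaximal R).isPrime.mem_or_mem (y := algebraMap (SR k v) R t) ?_).resolve_right
    fun h2 => t.2 ((IsLocalization.AtPrime.to_map_mem_maximal_iff R m _).mp h2)
  dsimp only at h1
  rw [sub_mul, h1, ← map_mul, ← map_sub, IsLocalization.AtPrime.to_map_mem_maximal_iff R m,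
    mem_iff_aug h, map_sub, map_mul, AlgHom.commutes]
  simp [ht]

variable [Fintype ι] [Fact p.Prime] [CharP k p]

theorem co_pow_mul (hp : ∀ g : τ → ℤ, (∀ i, g ⬝ᵥ v i = 0) → g = 0) {u : τ → ℤ}
    (hu : u ∈ lat v (Set.Ici 0) (p ^ e)) (a y : SR k v) :
    co u (a ^ p ^ e * y) = aug k hp a ^ p ^ e * co u y := by
  induction a using AddMonoidAlgebra.induction_linear with
  | zero => simp [zero_pow (qpos (p := p) (e := e)).ne']
  | add a b ha hb => rw [add_pow_char_pow, add_mul, map_add, ha, hb, map_add, add_pow_char_pow, add_mul]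
  | single g b =>
    have h1 := co_single_mul (p ^ e • g) (b ^ p ^ e) y (u - p ^ e • g.1)
    rw [AddSubmonoidClass.coe_nsmul, add_sub_cancel] at h1
    rw [single_pow, h1, aug_single]
    split_ifs with h0
    · simp [h0]
    · rw [zero_pow qpos.ne', zero_mul, mul_eq_zero]
      exact Or.inr (not_not.mp fun h2 => ((mem_lat qpos).mp hu).2 g g.2
        (fun h => h0 (Subtype.ext h)) ((mem_pl_Ici qpos).mpr (co_mem h2)))

theorem hkLen_eq (m : Ideal (SR k v)) [m.IsPrime] (h : ∀ g, g ≠ 0 → single g 1 ∈ m)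
    (R : Type) [CommRing R] [IsLocalRing R] [Algebra (SR k v) R] [IsLocalization.AtPrime R m] :
    hkLen R (p ^ e) = Nat.card (lat v (Set.Ici 0) (p ^ e)) := by
  classical
  have hp := pointed h
  have : CharP R p := charP_of_injective_algebraMap
    (IsLocalization.injective R m.primeCompl_le_nonZeroDivisors) p
  have := (finite_lat (v := v) (Q := Set.Ici 0) (fun t ht => le_trans (by norm_num) ht)
    (fun t ht => ht) (qpos (p := p) (e := e))).fintype
  obtain ⟨n, hn⟩ := Nat.exists_eq_succ_of_ne_zero (qpos (p := p) (e := e)).ne'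
  let : Algebra k R := ((algebraMap (SR k v) R).comp (algebraMap k _)).toAlgebra
  have : IsScalarTower k (SR k v) R := IsScalarTower.of_algebraMap_eq fun _ => rfl
  set J := Ideal.span ((· ^ p ^ e) '' (maximalIdeal R : Set R)) with hJ
  let J0 : Ideal (SR k v) := Ideal.span ((· ^ p ^ e) '' (m : Set (SR k v)))
  have hJ0 : J = J0.map (algebraMap _ R) := by
    refine le_antisymm (Ideal.span_le.mpr ?_) (Ideal.map_le_iff_le_comap.mpr (Ideal.span_le.mpr ?_))
    · rintro _ ⟨x, hx, rfl⟩
      obtain ⟨⟨a, t⟩, rfl⟩ := IsLocalization.mk'_surjective m.primeCompl x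
      have ha := (IsLocalization.AtPrime.mk'_mem_maximal_iff R m a t).mp hx
      simp only [IsLocalization.mk'_eq_mul_mk'_one a t, mul_pow, ← map_pow]
      exact Ideal.mul_mem_right _ _ (Ideal.mem_map_of_mem _ (Ideal.subset_span ⟨a, ha, rfl⟩))
    · rintro _ ⟨a, ha, rfl⟩
      exact Ideal.subset_span ⟨_, (IsLocalization.AtPrime.to_map_mem_maximal_iff R m a).mpr ha,
        (map_pow _ _ _).symm⟩
  let b : lat v (Set.Ici 0) (p ^ e) → SR k v := fun u =>
    single ⟨u.1, (mem_pl_Ici qpos).mp ((mem_lat qpos).mp u.2).1⟩ 1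
  let π : SR k v →ₐ[k] R ⧸ J := (Ideal.Quotient.mkₐ k J).comp (IsScalarTower.toAlgHom k _ R)
  have hπ : ∀ y, π y = 0 ↔ algebraMap _ R y ∈ J := fun y => Ideal.Quotient.eq_zero_iff_mem
  have h1 : LinearIndependent k fun u => π (b u) := by
    refine Fintype.linearIndependent_iff.mpr fun a ha u => ?_
    simp only [← map_smul, ← map_sum, hπ, hJ0] at ha
    obtain ⟨t, ht, ha⟩ := (IsLocalization.algebraMap_mem_map_algebraMap_iff m.primeCompl R _ _).mp ha
    have key : ∀ z ∈ J0, ∀ y, co u.1 (z * y) = 0 := fun z hz => by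
      induction hz using Submodule.span_induction with
      | mem x hx =>
        obtain ⟨x, hx, rfl⟩ := hx
        intro y
        rw [co_pow_mul hp u.2, (mem_iff_aug h x).mp hx, zero_pow qpos.ne', zero_mul]
      | zero => simp
      | add x x' _ _ hx hx' => intro y; rw [add_mul, map_add, hx, hx', add_zero]
      | smul c x _ hx => intro y; rw [smul_eq_mul, mul_comm c, mul_assoc, hx]
    have h2 := key _ ha (t ^ n)
    rw [mul_right_comm, ← pow_succ', ← Nat.succ_eq_add_one, ← hn, co_pow_mul hp u.2, mul_eq_zero] at h2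
    have h3 := h2.resolve_left (pow_ne_zero _ fun h0 => ht ((mem_iff_aug h _).mpr h0))
    simpa [b, co_single, ← Subtype.ext_iff] using h3
  have h2 : ∀ y, π y ∈ Submodule.span k (Set.range fun u => π (b u)) := fun y => by
    induction y using AddMonoidAlgebra.induction_linear with
    | zero => simp
    | add x y hx hy => rw [map_add]; exact add_mem hx hy
    | single s c =>
      obtain ⟨u, h1, g, h2, h3⟩ := gen_lat hp (Q := Set.Ici 0)
        (fun t ht => le_trans (by norm_num) ht) (qpos (p := p) (e := e)) ((mem_pl_Ici qpos).mpr s.2)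
      have h4 : (single s c : SR k v) = c • (single ⟨g, h2⟩ 1 ^ p ^ e * b ⟨u, h1⟩) := by
        simp only [b, single_pow, single_mul_single, one_pow, mul_one, smul_single, smul_eq_mul]
        congr 1
        exact Subtype.ext (h3.trans (add_comm _ _))
      rw [h4, map_smul]
      refine Submodule.smul_mem _ _ ?_
      by_cases h0 : (⟨g, h2⟩ : coneS v) = 0
      · rw [h0, ← one_def, one_pow, one_mul]
        exact Submodule.subset_span ⟨_, rfl⟩
      · rw [(hπ _).mpr (hJ0 ▸ Ideal.mem_map_of_mem _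
          (J0.mul_mem_right _ (Ideal.subset_span ⟨_, h _ h0, rfl⟩)))]
        exact zero_mem _
  have h3 : ⊤ ≤ Submodule.span k (Set.range fun u => π (b u)) := fun z _ => by
    obtain ⟨r, rfl⟩ := Ideal.Quotient.mk_surjective z
    obtain ⟨⟨a, t⟩, h1⟩ := IsLocalization.surj m.primeCompl r
    have ht : aug k hp t ≠ 0 := fun h0 => t.2 ((mem_iff_aug h _).mpr h0)
    have h4 : π (t ^ p ^ e) = algebraMap k _ (aug k hp t ^ p ^ e) := by
      rw [← π.commutes, ← sub_eq_zero, ← map_sub, map_pow, ← sub_pow_char_pow, hπ, hJ0]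
      exact Ideal.mem_map_of_mem _ (Ideal.subset_span ⟨_, sub_aug_mem h _, rfl⟩)
    have h5 : π a = Ideal.Quotient.mk J r * π t := congrArg (Ideal.Quotient.mk J) h1.symm
    refine (Submodule.smul_mem_iff _ (pow_ne_zero (p ^ e) ht)).mp ?_
    rw [Algebra.smul_def, ← h4, (congrArg (t.1 ^ ·) hn :), pow_succ, map_mul, mul_assoc, mul_comm (π t), ← h5, ← map_mul]
    exact h2 _
  have h4 := Module.finrank_eq_card_basis (Module.Basis.mk h1 h3)
  have := Module.Finite.of_basis (Module.Basis.mk h1 h3)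
  have h5 := IsLocalRing.length_restrictScalars k R (R ⧸ J)
  have h6 : Module.length (ResidueField k) (ResidueField R) = 1 := by
    have : Function.Surjective (algebraMap (ResidueField k) (ResidueField R)) := fun z => by
      obtain ⟨r, rfl⟩ := residue_surjective z
      obtain ⟨c, hc⟩ := residue_surj m h R r
      exact ⟨residue _ c, (Ideal.Quotient.eq.mpr hc).symm⟩
    rw [Module.length_eq_of_surjective this, Module.length_eq_one]
  rw [h6, mul_one, Module.length_eq_finrank, h4] at h5
  rw [Nat.card_eq_fintype_card, h5, hkLen]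

theorem tendsto_hk (hv : ∀ i, v i ≠ 0) (m : Ideal (SR k v)) [m.IsPrime]
    (h : ∀ g, g ≠ 0 → single g 1 ∈ m) (R : Type) [CommRing R] [IsLocalRing R] [Algebra (SR k v) R]
    [IsLocalization.AtPrime R m] :
    Tendsto (fun e : ℕ => ((hkLen R (p ^ e)).toNat : ℝ) / (p : ℝ) ^ (e * Fintype.card τ)) atTop
      (𝓝 (volume.real (corner v (Set.Ici 0)))) := by
  simp only [hkLen_eq m h R, ENat.toNat_natCast]
  refine tendsto_q (tendsto_lat hv measurableSet_Ici (fun t ht => le_trans (by norm_num) ht)
    (fun t ht => ht) fun s t h2 _ h3 => ?_)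
  rw [Set.mem_Ici, ← Int.floor_nonneg] at h3 ⊢
  exact h2 ▸ h3

end Pool.Agent.Lib.MP_010de0_ag
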