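import Pool.Agent.Lib.MP_010de0_ag.TAlg

/-! The number of generators and the Hilbert-Kunz function as lattice point counts. -/

set_option autoImplicit false
set_option linter.unusedSectionVars false

namespace Pool.Agent.Lib.MP_010de0_ag

open AddMonoidAlgebra Filter Topology MeasureTheory

variable {k τ ι : Type} [Field k] [Fintype τ] {v : ι → τ → ℤ} {p e : ℕ}

open Classical in
/-- the augmentation -/
noncomputable def aug (k : Type) [Field k] (hp : ∀ g : τ → ℤ, (∀ i, g ⬝ᵥ v i = 0) → g = 0) :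
    SR k v →ₐ[k] k :=
  lift k k (coneS v)
    { toFun := fun s => if s.toAdd = 0 then 1 else 0
      map_one' := by simp
      map_mul' := fun a b => by
        have : a.toAdd + b.toAdd = 0 ↔ a.toAdd = 0 ∧ b.toAdd = 0 := by
          refine ⟨fun h => ?_, fun h => by simp [h]⟩
          have h1 : ∀ i, a.toAdd.1 ⬝ᵥ v i + b.toAdd.1 ⬝ᵥ v i = 0 := fun i => by
            rw [← add_dotProduct, ← AddSubmonoid.coe_add, h]; simp
          exact ⟨Subtype.ext (hp _ fun i => by linarith [h1 i, a.toAdd.2 i, b.toAdd.2 i]),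
            Subtype.ext (hp _ fun i => by linarith [h1 i, a.toAdd.2 i, b.toAdd.2 i])⟩
        simp only [toAdd_mul, this]
        by_cases h1 : a.toAdd = 0 <;> by_cases h2 : b.toAdd = 0 <;> simp [h1, h2] }

open Classical in
theorem aug_single (hp : ∀ g : τ → ℤ, (∀ i, g ⬝ᵥ v i = 0) → g = 0) (g : coneS v) (b : k) :
    aug k hp (single g b) = if g = 0 then b else 0 := by simp [aug]

theorem pointed {m : Ideal (SR k v)} [hm : m.IsPrime] (h : ∀ g, g ≠ 0 → single g 1 ∈ m)
    (g : τ → ℤ) (hg : ∀ i, g ⬝ᵥ v i = 0) : g = 0 := by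
  by_contra h0
  have := m.mul_mem_left (single ⟨-g, fun i => by simp [hg]⟩ 1)
    (h ⟨g, fun i => (hg i).ge⟩ fun h => h0 (congrArg Subtype.val h))
  rw [single_mul_single, one_mul] at this
  refine hm.ne_top ((Ideal.eq_top_iff_one _).mpr ?_)
  convert this
  rw [one_def]
  congr 1
  exact Subtype.ext (by simp)

theorem sub_aug_mem {m : Ideal (SR k v)} [m.IsPrime] (h : ∀ g, g ≠ 0 → single g 1 ∈ m)
    (a : SR k v) : a - algebraMap k _ (aug k (pointed h) a) ∈ m := by
  induction a using AddMonoidAlgebra.induction_linear with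
  | zero => simp
  | add a b ha hb => convert add_mem ha hb using 1; simp only [map_add]; abel
  | single g b =>
    rw [aug_single]
    split_ifs with h0
    · simp [h0]
    · simpa [single_mul_single] using m.mul_mem_left (single 0 b) (h g h0)

theorem mem_iff_aug {m : Ideal (SR k v)} [hm : m.IsPrime] (h : ∀ g, g ≠ 0 → single g 1 ∈ m)
    (a : SR k v) : a ∈ m ↔ aug k (pointed h) a = 0 := by
  have h1 := sub_aug_mem h a
  refine ⟨fun ha => ?_, fun ha => by simpa [ha] using h1⟩
  by_contra h0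
  have h2 := sub_mem ha h1
  rw [sub_sub_cancel] at h2
  exact hm.ne_top (Ideal.eq_top_of_isUnit_mem _ h2 ((Ne.isUnit h0).map _))

variable [Fintype ι] [Fact p.Prime] [CharP k p] [PerfectField k]

theorem mu_eq_lat (hv : Facets v) (m : Ideal (SR k v)) [m.IsPrime]
    (h : ∀ g, g ≠ 0 → single g 1 ∈ m) (R : Type) [CommRing R] [IsDomain R] [Algebra (SR k v) R]
    [IsLocalization.AtPrime R m] : mu R (p ^ e) = Nat.card (lat v (Set.Ioi (-1)) (p ^ e)) := by
  classical
  have hp := pointed h
  have := fg_coneS hp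
  have : IsNoetherianRing (SR k v) := Algebra.FiniteType.isNoetherianRing k _
  have := finite_Fr (k := k) (p := p) (e := e) hp
  have : CharP R p := charP_of_injective_algebraMap
    (IsLocalization.injective R m.primeCompl_le_nonZeroDivisors) p
  have := (finite_lat (v := v) (Q := Set.Ioi (-1)) (fun t ht => le_of_lt ht)
    (fun t ht => lt_of_lt_of_le (by norm_num) ht) (qpos (p := p) (e := e))).fintype
  rw [Nat.card_eq_fintype_card]
  refine mu_loc m (aug k hp).toRingHom (fun c => (aug k hp).commutes c) (mem_iff_aug h) _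
    (span_cart hv hp) (fun u => cf hv u.1) (fun u a x => ?_) fun u u' => by
      simp only [cf_cart, Subtype.ext_iff]
  induction a using AddMonoidAlgebra.induction_linear with
  | zero => simp
  | add a b ha hb => rw [add_smul, map_add, ha, hb, map_add, add_mul]
  | single g b =>
    rw [cf_smul, AlgHom.toRingHom_eq_coe, RingHom.coe_coe, aug_single]
    split_ifs with h0
    · simp [h0]
    · rw [zero_mul, mul_eq_zero]
      refine Or.inr (not_not.mp fun h1 => ((mem_lat qpos).mp u.2).2 g g.2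
        (fun h => h0 (Subtype.ext h)) ?_)
      exact co_pl hv x (hv.rep _ qpos _).choose_spec h1

theorem tendsto_q {f : ℕ → ℝ} {d : ℕ} {c : ℝ}
    (h : Tendsto (fun n : ℕ => f n / n ^ d) atTop (𝓝 c)) :
    Tendsto (fun e : ℕ => f (p ^ e) / (p : ℝ) ^ (e * d)) atTop (𝓝 c) := by
  refine (h.comp (tendsto_pow_atTop_atTop_of_one_lt (Fact.out : p.Prime).one_lt)).congr fun e => ?_
  simp [pow_mul]

theorem tendsto_mu (hv : Facets v) (m : Ideal (SR k v)) [m.IsPrime]
    (h : ∀ g, g ≠ 0 → single g 1 ∈ m) (R : Type) [CommRing R] [IsDomain R] [Algebra (SR k v) R]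
    [IsLocalization.AtPrime R m] :
    Tendsto (fun e : ℕ => (mu R (p ^ e) : ℝ) / (p : ℝ) ^ (e * Fintype.card τ)) atTop
      (𝓝 (volume.real (corner v (Set.Ioi (-1))))) := by
  simp only [mu_eq_lat hv m h R]
  refine tendsto_q (tendsto_lat hv.ne_zero measurableSet_Ioi (fun t ht => le_of_lt ht)
    (fun t ht => lt_of_lt_of_le (by norm_num) ht) fun s t _ h2 h3 => ?_)
  have : ∀ x : ℝ, x ∈ Set.Ioi (-1 : ℝ) ↔ -1 < ⌈x⌉ := fun x => by rw [Int.lt_ceil]; simp
  rw [this] at h3 ⊢
  exact h2 ▸ h3

end Pool.Agent.Lib.MP_010de0_ag
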