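import Pool.Agent.Lib.MP_010de0_ag.THK

/-! The vertex ring is a normal F-finite local domain of the expected dimension. -/

set_option autoImplicit false
set_option linter.unusedSectionVars false

namespace Pool.Agent.Lib.MP_010de0_ag

open AddMonoidAlgebra Filter Topology MeasureTheory IsLocalRing

theorem normal_of_retract {A B : Type} [CommRing A] [CommRing B] [IsDomain A] [IsDomain B]
    [IsIntegrallyClosed B] (f : A →+* B) (hf : Function.Injective f) (ρ : B → A)
    (h : ∀ a y, ρ (f a * y) = a * ρ y) (h1 : ρ 1 = 1) : IsIntegrallyClosed A := by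
  refine (isIntegrallyClosed_iff (FractionRing A)).mpr fun {z} hz => ?_
  let φ : FractionRing A →+* FractionRing B := IsFractionRing.map hf
  have hφ : ∀ a, φ (algebraMap A _ a) = algebraMap B _ (f a) := fun a => IsLocalization.map_eq _ a
  obtain ⟨y, hy⟩ := IsIntegrallyClosed.isIntegral_iff.mp
    (hz.map_of_comp_eq f φ (RingHom.ext fun a => (hφ a).symm))
  obtain ⟨⟨a, b⟩, hb⟩ := IsLocalization.surj (nonZeroDivisors A) z
  have h2 : f b * y = f a * 1 := IsFractionRing.injective B (FractionRing B) (by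
    rw [map_mul, hy, mul_one, ← hφ, ← hφ, ← map_mul, mul_comm, hb])
  have h3 := congrArg ρ h2
  rw [h, h, h1, mul_one] at h3
  refine ⟨ρ y, mul_right_cancel₀ (IsFractionRing.to_map_ne_zero_of_mem_nonZeroDivisors b.2) ?_⟩
  rw [hb, ← map_mul, mul_comm, h3]

theorem length_pow {R : Type} [CommRing R] (I : Ideal R) (x : R) (n : ℕ) :
    Module.length R (R ⧸ (I ⊔ Ideal.span {x ^ n})) ≤ n * Module.length R (R ⧸ (I ⊔ Ideal.span {x})) := by
  induction n with
  | zero =>
    rw [pow_zero, Ideal.span_singleton_one, sup_top_eq]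
    simp
  | succ n ih =>
    have hle : I ⊔ Ideal.span {x ^ (n + 1)} ≤ I ⊔ Ideal.span {x ^ n} :=
      sup_le_sup_left (Ideal.span_singleton_le_span_singleton.mpr (pow_dvd_pow x n.le_succ)) _
    let g := Submodule.factor hle
    let f : (R ⧸ (I ⊔ Ideal.span {x})) →ₗ[R] R ⧸ (I ⊔ Ideal.span {x ^ (n + 1)}) :=
      Submodule.mapQ _ _ (LinearMap.toSpanSingleton R R (x ^ n)) (sup_le
        (fun a ha => Ideal.mem_sup_left (I.mul_mem_right _ ha)) (Ideal.span_le.mpr fun a ha => by
          rw [ha]; exact Ideal.mem_sup_right (Ideal.subset_span (pow_succ' x n).symm)))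
    have h1 : LinearMap.ker g ≤ LinearMap.range f := fun z hz => by
      obtain ⟨r, rfl⟩ := Submodule.mkQ_surjective _ z
      obtain ⟨a, ha, b, hb, rfl⟩ := Submodule.mem_sup.mp ((Submodule.Quotient.mk_eq_zero _).mp hz)
      obtain ⟨c, rfl⟩ := Ideal.mem_span_singleton'.mp hb
      exact ⟨Submodule.mkQ _ c, (Submodule.Quotient.eq _).mpr (by
        simpa using Ideal.mem_sup_left ha)⟩
    rw [Module.length_eq_add_of_exact (LinearMap.ker g).subtype g (Submodule.subtype_injective _)
      (Submodule.factor_surjective hle) (LinearMap.exact_subtype_ker_map g), Nat.cast_succ,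
      add_one_mul, add_comm]
    exact add_le_add ih ((Module.length_le_of_injective _ (Submodule.inclusion_injective h1)).trans
      (Module.length_le_of_surjective _ f.surjective_rangeRestrict))

theorem length_pow_finset {R : Type} [CommRing R] (s : Finset R) (n : ℕ) (I : Ideal R) :
    Module.length R (R ⧸ (I ⊔ Ideal.span ((· ^ n) '' (s : Set R)))) ≤
      n ^ s.card * Module.length R (R ⧸ (I ⊔ Ideal.span (s : Set R))) := by
  classical
  induction s using Finset.induction_on generalizing I with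
  | empty => rw [Finset.coe_empty, Set.image_empty]; simp
  | insert x s hx ih =>
    rw [Finset.coe_insert, Set.image_insert_eq, Ideal.span_insert, Ideal.span_insert,
      Finset.card_insert_of_notMem hx, ← sup_assoc, ← sup_assoc, pow_succ, mul_assoc]
    refine (ih _).trans (mul_le_mul_right ?_ _)
    rw [sup_right_comm I (Ideal.span {x ^ n}), sup_right_comm I (Ideal.span {x})]
    exact length_pow _ _ _

theorem length_anti {R : Type} [CommRing R] {I J : Ideal R} (h : I ≤ J) :
    Module.length R (R ⧸ J) ≤ Module.length R (R ⧸ I) :=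
  Module.length_le_of_surjective _ (Submodule.factor_surjective h)

theorem hk_le {R : Type} [CommRing R] [IsLocalRing R] [IsNoetherianRing R] {r : ℕ}
    (hr : ringKrullDim R = r) : ∃ N : ℕ, ∀ N' ≥ N, ∀ n, 0 < n → hkLen R n ≤ n ^ r * hkLen R N' := by
  obtain ⟨s, h1, h2⟩ := (maximalIdeal R).exists_finset_card_eq_height_of_isNoetherianRing
  rw [← maximalIdeal_height_eq_ringKrullDim, ← h2] at hr
  have h3 : s.card = r := by exact_mod_cast hr
  have h4 : maximalIdeal R ≤ (Ideal.span (s : Set R)).radical := by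
    rw [← Ideal.sInf_minimalPrimes]
    exact le_sInf fun P hP => h1.2 hP.1 (le_maximalIdeal hP.1.1.ne_top)
  obtain ⟨N, hN⟩ := Ideal.exists_pow_le_of_le_radical_of_fg h4 (IsNoetherian.noetherian _)
  refine ⟨N, fun N' hN' n _ => ?_⟩
  have h5 := length_pow_finset s n ⊥
  rw [bot_sup_eq, bot_sup_eq, h3] at h5
  refine (length_anti (Ideal.span_mono (Set.image_mono fun x hx => ?_))).trans
    (h5.trans (mul_le_mul_right (length_anti (Ideal.span_le.mpr ?_)) _))
  · exact h1.1.2 (Ideal.subset_span hx)
  · rintro _ ⟨x, hx, rfl⟩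
    exact hN (Ideal.pow_le_pow_right hN' (Ideal.pow_mem_pow hx N'))

variable {k τ ι : Type} [Field k] [Fintype τ] {v : ι → τ → ℤ} {p e : ℕ} [Fintype ι]

theorem normal_SR (hp : ∀ g : τ → ℤ, (∀ i, g ⬝ᵥ v i = 0) → g = 0) : IsIntegrallyClosed (SR k v) := by
  let c : coneS v →+ (ι →₀ ℕ) :=
    { toFun := fun s => Finsupp.equivFunOnFinite.symm fun i => (s.1 ⬝ᵥ v i).toNat
      map_zero' := by ext; simp
      map_add' := fun a b => by ext i; simp [Int.toNat_add (a.2 i) (b.2 i)] }
  have hc : ∀ s i, (c s i : ℤ) = s.1 ⬝ᵥ v i := fun s i => Int.toNat_of_nonneg (s.2 i)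
  have hi : Function.Injective c := fun a b h => Subtype.ext (sub_eq_zero.mp (hp _ fun i => by
    rw [sub_dotProduct, ← hc, ← hc, h, sub_self]))
  have h0 : ∀ t (b : k), t ∉ Set.range c → comapDomain c hi (single t b) = 0 := fun t b h => by
    ext; simp [h]
  refine normal_of_retract (B := MvPolynomial ι k) (mapDomainRingHom k c) (mapDomain_injective hi)
    (comapDomain c hi) (fun a y => ?_) (by rw [one_def, ← map_zero c, comapDomain_single_map]; rfl)
  induction a using AddMonoidAlgebra.induction_linear with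
  | zero => simp
  | add a b ha hb => rw [map_add, add_mul, comapDomain_add, ha, hb, add_mul]
  | single s b =>
    induction y using AddMonoidAlgebra.induction_linear with
    | zero => simp
    | add x y hx hy => rw [mul_add, comapDomain_add, hx, hy, comapDomain_add, mul_add]
    | single t b' =>
      rw [mapDomainRingHom_apply, mapDomain_single, single_mul_single]
      by_cases ht : t ∈ Set.range c
      · obtain ⟨s', rfl⟩ := ht
        rw [← map_add, comapDomain_single_map, comapDomain_single_map, single_mul_single]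
      · rw [h0 t _ ht, h0, mul_zero]
        rintro ⟨s', hs⟩
        have h1 : ∀ i, (s'.1 - s.1) ⬝ᵥ v i = t i := fun i => by
          rw [sub_dotProduct, ← hc, ← hc, hs]; simp
        exact ht ⟨⟨s'.1 - s.1, fun i => h1 i ▸ Int.natCast_nonneg _⟩, Finsupp.ext fun i =>
          Int.ofNat_injective ((hc _ i).trans (h1 i))⟩

theorem trdeg_laurent : Algebra.trdeg k (AddMonoidAlgebra k (τ → ℤ)) ≤ Fintype.card τ := by
  classical
  let x : τ → AddMonoidAlgebra k (τ → ℤ) := fun j => single (Pi.single j 1) 1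
  let B := Algebra.adjoin k (Set.range x)
  have h1 : ∀ u : τ → ℤ, single u 1 ∈ Subalgebra.algebraicClosure B (AddMonoidAlgebra k (τ → ℤ)) := by
    intro u
    induction u using Pi.single_induction with
    | zero => exact one_mem _
    | add a b ha hb => simpa [single_mul_single] using mul_mem ha hb
    | single j n =>
      have h2 : IsAlgebraic B (x j) := isAlgebraic_algebraMap (⟨x j, Algebra.subset_adjoin ⟨j, rfl⟩⟩ : B)
      obtain ⟨n, rfl | rfl⟩ := n.eq_nat_or_neg
      · simpa [x, single_pow, ← Pi.single_smul, Subalgebra.mem_algebraicClosure] using h2.pow n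
      · let : Invertible (x j) := ⟨single (-Pi.single j 1) 1, by simp [x, single_mul_single, one_def],
          by simp [x, single_mul_single, one_def]⟩
        have h3 : IsAlgebraic B (single (-Pi.single j 1) 1 : AddMonoidAlgebra k (τ → ℤ)) := h2.invOf
        simpa [single_pow, ← Pi.single_smul, Pi.single_neg, Subalgebra.mem_algebraicClosure]
          using h3.pow n
  have : Algebra.IsAlgebraic B (AddMonoidAlgebra k (τ → ℤ)) := ⟨fun y => by
    induction y using AddMonoidAlgebra.induction_linear with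
    | zero => exact isAlgebraic_zero
    | add a b ha hb => exact ha.add hb
    | single u b =>
      have := (isAlgebraic_algebraMap (algebraMap k B b)).mul (h1 u)
      simpa [single_mul_single] using this⟩
  exact (Algebra.IsAlgebraic.trdeg_le_cardinalMk k (Set.range x)).trans
    (Cardinal.mk_range_le.trans (Cardinal.mk_fintype τ).le)

theorem dim_SR_le (hp : ∀ g : τ → ℤ, (∀ i, g ⬝ᵥ v i = 0) → g = 0) :
    ringKrullDim (SR k v) ≤ Fintype.card τ := by
  have := fg_coneS hp
  obtain ⟨s, g, hg, hg'⟩ := exists_integral_inj_algHom_of_fg k (SR k v)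
  have h1 : ringKrullDim (SR k v) ≤ ringKrullDim (MvPolynomial (Fin s) k) := by
    let := g.toRingHom.toAlgebra
    refine Order.krullDim_le_of_strictMono (PrimeSpectrum.comap g.toRingHom) fun I J h => ?_
    obtain ⟨h1, x, h2, h3⟩ := SetLike.lt_iff_le_and_exists.mp (show I.asIdeal < J.asIdeal from h)
    exact Ideal.comap_lt_comap_of_integral_mem_sdiff h1 ⟨h2, h3⟩ (hg' x)
  have h3 := (trdeg_le_of_injective ((emb k v).comp g) (emb_inj.comp hg)).trans trdeg_laurent
  rw [MvPolynomial.trdeg_of_isDomain, Cardinal.mk_fin, Cardinal.lift_natCast] at h3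
  have h4 : s ≤ Fintype.card τ := by exact_mod_cast h3
  rw [MvPolynomial.ringKrullDim_of_isNoetherianRing, ringKrullDim_eq_zero_of_field, zero_add,
    Nat.card_fin] at h1
  exact h1.trans (by exact_mod_cast h4)

theorem vol_pos (hv : Facets v) (hp : ∀ g : τ → ℤ, (∀ i, g ⬝ᵥ v i = 0) → g = 0) :
    0 < volume.real (corner v (Set.Ici 0)) := by
  obtain ⟨g0, hg0⟩ := hv.interior
  have hc : ∀ i, Continuous fun x : τ → ℝ => x ⬝ᵥ fun j => (v i j : ℝ) := fun i =>
    continuous_id.dotProduct continuous_const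
  let U : Set (τ → ℝ) := (⋂ i, {x | 0 < x ⬝ᵥ fun j => (v i j : ℝ)}) ∩
    {x | ∑ i, (x ⬝ᵥ fun j => (v i j : ℝ)) < 1}
  have h1 : IsOpen U := (isOpen_iInter_of_finite fun i => isOpen_lt continuous_const (hc i)).inter
    (isOpen_lt (continuous_finsetSum _ fun i _ => hc i) continuous_const)
  have h2 : U ⊆ corner v (Set.Ici 0) := fun x hx =>
    ⟨fun i => Set.mem_Ici.mpr (le_of_lt (Set.mem_iInter.mp hx.1 i :)), fun g hg h0 h => by
      have h3 : (0 : ℝ) ≤ _ := Finset.sum_nonneg fun i (_ : i ∈ Finset.univ) => h i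
      have h4 : ((1 : ℤ) : ℝ) ≤ ((∑ i, g ⬝ᵥ v i : ℤ) : ℝ) := Int.cast_le.mpr (deg_pos hp hg h0)
      have h5 : ∑ i, (x ⬝ᵥ fun j => (v i j : ℝ)) < 1 := hx.2
      simp only [sub_dotProduct, cast_dot, Finset.sum_sub_distrib] at h3
      push_cast at h4
      linarith⟩
  have h3 : U.Nonempty := by
    let D : ℝ := ∑ i, ((g0 ⬝ᵥ v i : ℤ) : ℝ)
    have hD : 0 ≤ D := Finset.sum_nonneg fun i _ => by exact_mod_cast (hg0 i).le
    refine ⟨(D + 1)⁻¹ • fun j => (g0 j : ℝ), Set.mem_iInter.mpr fun i => ?_, ?_⟩
    · simp only [Set.mem_ofPred_eq, smul_dotProduct, cast_dot]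
      exact mul_pos (by positivity) (by exact_mod_cast hg0 i)
    · simp only [Set.mem_ofPred_eq, smul_dotProduct, cast_dot, smul_eq_mul, ← Finset.mul_sum]
      rw [inv_mul_lt_iff₀ (by positivity)]
      linarith
  exact ENNReal.toReal_pos ((h1.measure_pos _ h3).trans_le (measure_mono h2)).ne'
    (bounded_corner (fun t ht => le_trans (by norm_num) ht) fun t ht => ht).measure_lt_top.ne

variable [Fact p.Prime] [CharP k p]

theorem dim_eq (p : ℕ) [Fact p.Prime] [CharP k p] (hv : Facets v) (m : Ideal (SR k v)) [m.IsPrime]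
    (h : ∀ g, g ≠ 0 → single g 1 ∈ m) (R : Type) [CommRing R] [IsLocalRing R] [IsNoetherianRing R]
    [Algebra (SR k v) R] [IsLocalization.AtPrime R m] : ringKrullDim R = Fintype.card τ := by
  have hp := pointed h
  have h1 : ringKrullDim R ≤ Fintype.card τ := by
    rw [IsLocalization.AtPrime.ringKrullDim_eq_height m R]
    exact Ideal.height_le_ringKrullDim_of_isPrime.trans (dim_SR_le hp)
  rw [IsLocalization.AtPrime.ringKrullDim_eq_height m R] at h1
  have h2 : m.height ≤ (Fintype.card τ : ℕ) := WithBot.coe_le_coe.mp h1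
  obtain ⟨r, hr⟩ := ENat.ne_top_iff_exists.mp (ne_top_of_le_ne_top (ENat.natCast_ne_top _) h2)
  have h3 : ringKrullDim R = r := by
    rw [IsLocalization.AtPrime.ringKrullDim_eq_height m R, ← hr]; rfl
  rw [← hr] at h2
  rw [h3]
  congr 1
  refine le_antisymm (by exact_mod_cast h2) (not_lt.mp fun hlt => ?_)
  obtain ⟨N, hN⟩ := hk_le h3
  have hp1 := (Fact.out : p.Prime).one_lt
  have hp2 : (1 : ℝ) < p := by exact_mod_cast hp1
  have h4 := tendsto_hk (p := p) hv.ne_zero m h R
  have h5 : Tendsto (fun e : ℕ => (Nat.card (lat v (Set.Ici 0) (p ^ N)) : ℝ) / (p : ℝ) ^ e) atTop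
      (𝓝 0) := (tendsto_pow_atTop_atTop_of_one_lt hp2).const_div_atTop _
  refine (vol_pos hv hp).not_ge (le_of_tendsto_of_tendsto' h4 h5 fun e => ?_)
  have h6 := hN (p ^ N) (Nat.lt_pow_self hp1).le (p ^ e) qpos
  rw [hkLen_eq m h R, hkLen_eq m h R] at h6
  have h7 : (Nat.card (lat v (Set.Ici 0) (p ^ e)) : ℝ) ≤
      ((p : ℝ) ^ e) ^ r * Nat.card (lat v (Set.Ici 0) (p ^ N)) := by exact_mod_cast h6
  rw [hkLen_eq m h R, ENat.toNat_natCast, div_le_div_iff₀ (by positivity) (by positivity), pow_mul]
  calc _ ≤ ((p : ℝ) ^ e) ^ r * Nat.card (lat v (Set.Ici 0) (p ^ N)) * p ^ e := by gcongr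
    _ = Nat.card (lat v (Set.Ici 0) (p ^ N)) * ((p : ℝ) ^ e) ^ (r + 1) := by ring
    _ ≤ _ := by gcongr; exacts [one_le_pow₀ hp2.le, hlt]

theorem vertex_ring (p : ℕ) [Fact p.Prime] [CharP k p] [PerfectField k] (hv : Facets v)
    (m : Ideal (SR k v)) [m.IsPrime] (h : ∀ g, g ≠ 0 → single g 1 ∈ m) (R : Type) [CommRing R]
    [IsDomain R] [IsLocalRing R] [Algebra (SR k v) R] [IsLocalization.AtPrime R m] :
    IsNoetherianRing R ∧ IsIntegrallyClosed R ∧ CharP R p ∧ ringKrullDim R = Fintype.card τ ∧
      PerfectField (ResidueField R) ∧ ∀ e : ℕ, Module.Finite R (rootAlg R (p ^ e)) := by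
  have hp := pointed h
  have := fg_coneS hp
  have : IsNoetherianRing (SR k v) := Algebra.FiniteType.isNoetherianRing k _
  have h1 : IsNoetherianRing R := IsLocalization.isNoetherianRing m.primeCompl R inferInstance
  have := normal_SR (k := k) hp
  have h2 : CharP R p := charP_of_injective_algebraMap
    (IsLocalization.injective R m.primeCompl_le_nonZeroDivisors) p
  refine ⟨h1, isIntegrallyClosed_of_isLocalization R _ m.primeCompl_le_nonZeroDivisors, h2,
    dim_eq p hv m h R, ?_, fun e => ?_⟩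
  · let f : k →+* ResidueField R :=
      (residue R).comp ((algebraMap (SR k v) R).comp (algebraMap k _))
    have hf : Function.Surjective f := fun z => by
      obtain ⟨r, rfl⟩ := residue_surjective z
      obtain ⟨c, hc⟩ := residue_surj m h R r
      exact ⟨c, (Ideal.Quotient.eq.mpr hc).symm⟩
    let := f.toAlgebra
    have : Algebra.IsAlgebraic k (ResidueField R) := ⟨fun z => by
      obtain ⟨c, rfl⟩ := hf z
      exact isAlgebraic_algebraMap c⟩
    exact Algebra.IsAlgebraic.perfectField k
  · obtain ⟨j, hj⟩ := exists_j (p := p) (e := e) R m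
    have := finite_Fr (k := k) (p := p) (e := e) hp
    exact Module.Finite.of_isLocalizedModule m.primeCompl j

end Pool.Agent.Lib.MP_010de0_ag
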