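import Pool.Agent.Lib.MP_010de0_ag.Cox

/-! Degrees in which the ring of sections vanishes, and degrees in which it is polynomial. -/

set_option autoImplicit false

namespace Pool.Agent.Lib.MP_010de0_ag

open MvPolynomial

variable {p : ℕ} [Fact p.Prime] {A B : Set Λ} {f : K p}

theorem x_pow_EE {x : P p} (hx : x ∈ Pd (ZMod p) wt {(0, 1, 1, 0)}) (N : ℕ) :
    ev p x ^ N ∈ EE p {(0, (N : ℤ), (N : ℤ), 0)} :=
  D_cast (EE_pow (ev_EE hx) N) (by simp)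

theorem Loc_comp {x : P p} (hx : x ∈ Pd (ZMod p) wt {(0, 1, 1, 0)}) {z1 z2 : K p}
    (h : z1 + z2 ∈ Loc x) (h1 : z1 ∈ EE p A) (h2 : z2 ∈ EE p Aᶜ) : z1 ∈ Loc x := by
  obtain ⟨N, g, H⟩ := h
  obtain ⟨g1, H1, g2, H2, rfl⟩ :=
    Pd_split {ε | ε - (0, (N : ℤ), (N : ℤ), 0) ∈ A} (Pd_univ (w := wt) g)
  refine ⟨N, g1, sub_eq_zero.mp (EE_disj (A := {ε | ε - (0, (N : ℤ), (N : ℤ), 0) ∈ A})
    (B := {ε | ε - (0, (N : ℤ), (N : ℤ), 0) ∉ A}) (sub_mem ?_ ?_) ?_ fun δ h h' => h' h)⟩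
  · exact EE_mul (x_pow_EE hx N) h1 (by rintro _ rfl b hb; simpa using hb)
  · exact ev_EE (Pd_mono (fun δ h => h.2) H1)
  · have : ev p x ^ N * z1 - ev p g1 = ev p g2 - ev p x ^ N * z2 := by
      rw [map_add] at H; linear_combination H
    rw [this]
    exact sub_mem (ev_EE (Pd_mono (fun δ h => h.2) H2))
      (EE_mul (x_pow_EE hx N) h2 (by rintro _ rfl b hb; simpa using hb))

theorem T_split (B : Set Λ) (hf : f ∈ T p) (hA : f ∈ EE p A) :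
    ∃ f1 f2, f1 ∈ T p ∧ f1 ∈ EE p (A ∩ B) ∧ f2 ∈ T p ∧ f2 ∈ EE p (A \ B) ∧ f = f1 + f2 := by
  obtain ⟨f1, h1, f2, h2, rfl⟩ := EE_split B hA
  have a1 : f1 ∈ EE p B := EE_mono (fun δ h => h.2) h1
  have a2 : f2 ∈ EE p Bᶜ := EE_mono (fun δ h => h.2) h2
  have a3 : f1 ∈ T p := ⟨Loc_comp x0_Pd hf.1 a1 a2, Loc_comp x1_Pd hf.2 a1 a2⟩
  exact ⟨f1, f2, a3, h1, by simpa using sub_mem hf a3, h2, rfl⟩

theorem L_pos (hf : f ∈ Loc (x0 p)) : f ∈ EE p {δ | 0 ≤ δ.1 ∧ 0 ≤ δ.2.2.2} := by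
  obtain ⟨N, g, H⟩ := hf
  refine EE_mono (fun δ h => ?_)
    (EE_cancel (pow_ne_zero N ev_x0_ne) (x_pow_EE x0_Pd N) (H ▸ ev_pos g))
  simp at h ⊢
  omega

theorem T_avoid (h : ∀ f ∈ T p, f ∈ EE p B → f = 0) (hf : f ∈ T p) : f ∈ EE p Bᶜ := by
  obtain ⟨f1, f2, h1, h2, h3, h4, rfl⟩ := T_split B hf (L_pos hf.1)
  rw [h f1 h1 (EE_mono (fun δ h => h.2) h2), zero_add]
  exact EE_mono (fun δ h => h.2) h4

theorem van1 (hf : f ∈ T p) (h : f ∈ EE p {δ | δ.2.1 + δ.2.2.1 ≤ 0 ∧ δ.2.1 < 0}) : f = 0 := by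
  obtain ⟨s, hs, hs'⟩ := EE_finite h
  obtain ⟨n, hn⟩ : ∃ n : ℕ, f ∈ EE p {δ | δ.2.1 + δ.2.2.1 ≤ 0 ∧ δ.2.1 < 0 ∧ δ.1 < n} := by
    refine ⟨(s.sup fun δ => δ.1.natAbs) + 1, EE_mono (fun δ hδ => ?_) hs'⟩
    have := Finset.le_sup (f := fun δ : Λ => δ.1.natAbs) (Finset.mem_coe.mp hδ)
    have h2 := hs δ hδ
    simp only [Set.mem_ofPred_eq] at *
    omega
  clear h hs hs'
  induction n generalizing f with
  | zero => exact EE_disj hn (L_pos hf.1) fun δ h h' => by simp at h h'; omega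
  | succ n ih =>
    exact (map_eq_zero (τ p)).mp (ih (τ_T hf) (τ_EE (fun δ h => by simp at h ⊢; omega) hn))

theorem van2 (n : ℕ) (hf : f ∈ T p)
    (h : f ∈ EE p {δ | δ.2.1 = -n ∧ δ.2.2.1 = n + 1 ∧ 2 * δ.1 < n * (n + 1)}) : f = 0 := by
  induction n generalizing f with
  | zero => exact EE_disj h (L_pos hf.1) fun δ h h' => by simp at h h'; omega
  | succ n ih =>
    refine (map_eq_zero (τ p)).mp (ih (τ_T hf) (τ_EE (fun δ h => ?_) h))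
    simp only [Set.mem_ofPred_eq] at h ⊢
    obtain ⟨h1, h2, h3⟩ := h
    rw [h1, h2]
    push_cast at h3 ⊢
    refine ⟨by ring, by ring, by linarith⟩

theorem T_eff (n : ℕ) (hf : f ∈ T p) : f ∈ EE p {δ | 0 ≤ δ.1 ∧
    (0 < δ.2.1 + δ.2.2.1 ∨ (δ.2.1 = 0 ∧ δ.2.2.1 = 0)) ∧
    (δ.2.1 = n + 1 → δ.2.2.1 = -n → n * (n + 1) ≤ 2 * δ.1)} := by
  have h1 := T_avoid (fun f hf h => van1 hf h) hf
  have h2 := T_avoid (B := {δ | δ.2.1 + δ.2.2.1 ≤ 0 ∧ δ.2.2.1 < 0}) (fun f hf h =>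
    (map_eq_zero (π p)).mp (van1 (π_T hf) (π_EE (fun δ h => by simp at h ⊢; omega) h))) hf
  have h3 := T_avoid (B := {δ | δ.2.2.1 = -n ∧ δ.2.1 = n + 1 ∧ 2 * δ.1 < n * (n + 1)})
    (fun f hf h => (map_eq_zero (π p)).mp (van2 n (π_T hf) (π_EE (fun δ h => h) h))) hf
  refine EE_mono (fun δ h => ?_) (EE_inter (EE_inter (EE_inter h1 h2) h3) (L_pos hf.1))
  simp only [Set.mem_inter_iff, Set.mem_compl_iff, Set.mem_ofPred_eq] at h ⊢
  generalize (n : ℤ) * (n + 1) = t at *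
  omega

theorem exists_sec (n : ℕ) : ∃ f ∈ T p, f ≠ 0 ∧ ∃ j : ℕ, 2 * j = n * (n + 1) ∧
    f ∈ EE p {((j : ℤ), (n : ℤ) + 1, -(n : ℤ), 0)} := by
  induction n with
  | zero => exact ⟨ξ p u0, ξ_T _, ξ_ne _, 0, rfl, ξ_EE u0⟩
  | succ n ih =>
    obtain ⟨f, h1, h2, j, h3, h4⟩ := ih
    refine ⟨τ p f, τ_T h1, (map_ne_zero _).mpr h2, j + (n + 1), by linarith, τ_EE ?_ h4⟩
    rintro _ rfl
    simp [Prod.ext_iff]
    ring

theorem nzd {a b : V} {c : V →₀ ℕ} (ha : c a = 0) (hb : c b = 0) {r s h : P p} {N : ℕ}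
    (hG : G p = monomial c 1 + (r * X a + s * X b))
    (H : G p * h ∈ Ideal.span {(X a : P p) ^ N, X b ^ N}) (d : V →₀ ℕ) (hd : coeff d h ≠ 0) :
    N ≤ d a ∨ N ≤ d b := by
  have h1 : (r * X a + s * X b) ^ (N + N) ∈ Ideal.span {(X a : P p) ^ N, X b ^ N} := by
    refine Ideal.add_pow_mem_of_pow_mem_of_le _ (m := N) (n := N) ?_ ?_ (by omega) <;> rw [mul_pow]
    · exact Ideal.mul_mem_left _ _ (Ideal.subset_span (by simp))
    · exact Ideal.mul_mem_left _ _ (Ideal.subset_span (by simp))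
  obtain ⟨t, ht⟩ := sub_dvd_pow_sub_pow (monomial c (1 : ZMod p)) (-(r * X a + s * X b)) (N + N)
  rw [sub_neg_eq_add, ← hG, Even.neg_pow ⟨N, rfl⟩, sub_eq_iff_eq_add] at ht
  have h2 : monomial c 1 ^ (N + N) * h ∈ Ideal.span {(X a : P p) ^ N, X b ^ N} := by
    rw [ht, add_mul, mul_right_comm]
    exact add_mem (Ideal.mul_mem_right _ _ H) (Ideal.mul_mem_right _ _ h1)
  rw [X_pow_eq_monomial, X_pow_eq_monomial, ← Set.image_pair (fun s => monomial s (1 : ZMod p)),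
    mem_ideal_span_monomial_image, monomial_pow, one_pow] at h2
  obtain ⟨e, he, h3⟩ := h2 ((N + N) • c + d) (by
    rw [mem_support_iff, coeff_monomial_mul, one_mul]; exact hd)
  rcases he with rfl | rfl
  · left; simpa [ha] using h3 a
  · right; simpa [hb] using h3 b

theorem struct (hf : f ∈ T p) (h : f ∈ EE p {δ | (1 ≤ δ.2.1 ∧ 1 ≤ δ.2.2.1) ∨ δ.1 ≤ 0}) :
    ∃ g, f = ev p g := by
  obtain ⟨⟨N0, a0, H0⟩, ⟨N1, a1, H1⟩⟩ := hf
  obtain ⟨N, hN⟩ : ∃ N, N = N0 + N1 := ⟨_, rfl⟩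
  let D : Set Λ := {δ | (N + 1 ≤ δ.2.1 ∧ N + 1 ≤ δ.2.2.1) ∨ δ.1 ≤ 0}
  have e0 : ev p (x0 p) ^ N * f = ev p (x0 p ^ N1 * a0) := by
    rw [map_mul, map_pow, ← H0, hN]; ring
  have e1 : ev p (x1 p) ^ N * f = ev p (x1 p ^ N0 * a1) := by
    rw [map_mul, map_pow, ← H1, hN]; ring
  have hD : ∀ a ∈ ({(0, (N : ℤ), (N : ℤ), 0)} : Set Λ),
      ∀ b ∈ {δ : Λ | (1 ≤ δ.2.1 ∧ 1 ≤ δ.2.2.1) ∨ δ.1 ≤ 0}, a + b ∈ D := by
    rintro _ rfl b hb
    simp [D] at hb ⊢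
    omega
  obtain ⟨g0, G0, E0⟩ := ev_lift (e0 ▸ EE_mul (x_pow_EE x0_Pd N) h hD)
  obtain ⟨g1, G1, E1⟩ := ev_lift (e1 ▸ EE_mul (x_pow_EE x1_Pd N) h hD)
  rw [← e0] at E0
  rw [← e1] at E1
  obtain ⟨t, ht⟩ := (ev_eq_zero (x1 p ^ N * g0 - x0 p ^ N * g1)).mp (by
    simp only [map_sub, map_mul, map_pow, E0, E1]; ring)
  have hD' : ∀ a ∈ ({N • (0, 1, 1, 0)} : Set Λ), ∀ b ∈ D,
      a + b ∈ {δ : Λ | (2 * N + 1 ≤ δ.2.1 ∧ 2 * N + 1 ≤ δ.2.2.1) ∨ δ.1 ≤ 0} := by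
    rintro _ rfl b hb
    simp [D] at hb ⊢
    omega
  have h1 := Pd_cancel G_ne G_Pd
    (ht ▸ sub_mem (Pd_mul (Pd_pow x1_Pd N) G0 hD') (Pd_mul (Pd_pow x0_Pd N) G1 hD'))
  have hm : ∀ a b c : V, monomial (Finsupp.single a 1 + Finsupp.single b 2 + Finsupp.single c 2)
      (1 : ZMod p) = X a ^ 1 * X b ^ 2 * X c ^ 2 := fun a b c => by
    simp only [X_pow_eq_monomial, monomial_mul, mul_one]
  have h2 := nzd (p := p) (a := u0) (b := v1) (N := N) (h := t)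
    (c := Finsupp.single s20 1 + Finsupp.single u1 2 + Finsupp.single v0 2) (by simp) (by simp)
    (r := X s00 * X u0 * X v0 ^ 2 + X s02 * X u0 * X v1 ^ 2 + X s11 * X u1 * X v0 * X v1)
    (s := X s22 * X u1 ^ 2 * X v1) (by
      rw [hm]
      simp only [G, Gf, Gf']; ring) (by
      rw [← ht, x0, x1, mul_pow, mul_pow]
      exact Ideal.mem_span_pair.mpr ⟨-(X v0 ^ N * g1), X u1 ^ N * g0, by ring⟩)
  have h3 := nzd (p := p) (a := u1) (b := v0) (N := N) (h := t)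
    (c := Finsupp.single s02 1 + Finsupp.single u0 2 + Finsupp.single v1 2) (by simp) (by simp)
    (r := X s22 * X u1 * X v1 ^ 2 + X s20 * X u1 * X v0 ^ 2 + X s11 * X u0 * X v0 * X v1)
    (s := X s00 * X u0 ^ 2 * X v0) (by
      rw [hm]
      simp only [G, Gf, Gf']; ring) (by
      rw [← ht, x0, x1, mul_pow, mul_pow]
      exact Ideal.mem_span_pair.mpr ⟨X v1 ^ N * g0, -(X u0 ^ N * g1), by ring⟩)
  have h4 : t ∈ Ideal.span {x0 p ^ N, x1 p ^ N} := by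
    rw [x0, x1, mul_pow, mul_pow]
    simp only [X_pow_eq_monomial, monomial_mul, mul_one]
    rw [← Set.image_pair (fun s => monomial s (1 : ZMod p)), mem_ideal_span_monomial_image]
    intro d hd
    rw [mem_support_iff] at hd
    have b1 := h1 d hd
    have b2 := h2 d hd
    have b3 := h3 d hd
    rw [weight_wt] at b1
    simp only [Set.mem_ofPred_eq, Prod.fst_add, Prod.snd_add] at b1
    have key : ∀ a b : V, a ≠ b → N ≤ d a → N ≤ d b →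
        Finsupp.single a N + Finsupp.single b N ≤ d := fun a b hab ha hb i => by
      simp only [Finsupp.coe_add, Pi.add_apply, Finsupp.single_apply]
      split_ifs with c1 c2 c2
      · exact absurd (c1.trans c2.symm) hab
      · simpa [← c1]
      · simpa [← c2]
      · simp
    by_cases c : N ≤ d u0 ∧ N ≤ d v0
    · exact ⟨_, Or.inl rfl, key _ _ (by decide) c.1 c.2⟩
    · exact ⟨_, Or.inr rfl, key _ _ (by decide) (by omega) (by omega)⟩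
  obtain ⟨a, b, rfl⟩ := Ideal.mem_span_pair.mp h4
  have hrel : IsRelPrime (x0 p) (x1 p) := by
    refine IsRelPrime.mul_left ?_ ?_
    · exact relPrime_X _ (fun i => if i = u0 then 0 else 1) (by simp) (by simp [x1])
    · exact relPrime_X _ (fun i => if i = v0 then 0 else 1) (by simp) (by simp [x1])
  obtain ⟨g, hg⟩ := (hrel.pow (m := N) (n := N)).dvd_of_dvd_mul_left (z := g0 - G p * b)
    ⟨g1 + G p * a, by linear_combination ht⟩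
  refine ⟨g, mul_left_cancel₀ (pow_ne_zero N ev_x0_ne) ?_⟩
  rw [← E0, ← map_pow, ← map_mul, ← hg, map_sub, map_mul, ev_G, zero_mul, sub_zero]

end Pool.Agent.Lib.MP_010de0_ag
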